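import Pool.Agent.Helper43.RD.Words

/-!
# The faithful representation of `Λ(R)` on words
-/

set_option autoImplicit false
set_option linter.unusedSectionVars false

namespace Pool.Agent.Helper43.RD

open Finsupp

noncomputable section

open scoped Classical

section D

variable {k R β L : Type} [Field k] [Ring R] [Algebra k R] (B : Module.Basis β k R) (o : β)

/-- exact removal of the last letter -/
def D (y : L) : Module.End k (V β L R) := dl B y (B.coord o)

theorem D_mul_plain (hB : B o = 1) (x y : L) :
    (D B o x * plain B y : Module.End k (V β L R)) = if y = x then 1 else 0 := by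
  rw [D, dl_plain]
  have : (B.coord o) 1 = 1 := by rw [← hB]; simp
  rw [this, one_smul]

theorem D_plain (hB : B o = 1) (x y : L) (v : V β L R) :
    D B o x (plain B y v) = if y = x then v else 0 := by
  have h := LinearMap.congr_fun (D_mul_plain B o hB x y) v
  rw [Module.End.mul_apply] at h
  rw [h]
  split_ifs <;> rfl

@[simp] theorem D_nil (y : L) (c : R) : D B o y (single [] c) = 0 := dl_nil _ _ _ _

theorem D_cons (y : L) (b b' : β) (x : L) (t : List (β × L)) :
    D B o y (single ((b', x) :: t) (B b)) = if x = y then (if b = o then single t (B b') else 0)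
      else 0 := by
  rw [D, dl_cons]
  split_ifs with h1 h2
  · simp [h2]
  · simp [h2]
  · rfl

end D

section Abs

variable {R E : Type} [Ring R] [Ring E]

/-- the action of the letters, abstractly -/
def actE (pl : Lt R → E) (rh : R → E) (dd : Lt R → E) : Lt R → E
  | .w M i => pl (.w M i)
  | .s M j => pl (.s M j)
  | .Y M j i => pl (.Y M j i)
  | .r M => pl (.r M) + ∑ i, ((∑ j, pl (.s M j) * rh (M.A i j)) -
      pl (.r M) * pl (.w M i)) * dd (.w M i)
  | .z M m => pl (.z M m) + ∑ i, ((if i = m then 1 else 0) +
      (∑ j, pl (.Y M j m) * rh (M.A i j)) -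
      pl (.z M m) * pl (.w M i)) * dd (.w M i)
  | .P M j => pl (.P M j) + ((∑ i, rh (M.A i j) * pl (.z M i)) -
      pl (.P M j) * pl (.r M)) * dd (.r M) +
      ∑ l, ((if l = j then 1 else 0) + (∑ i, rh (M.A i j) * pl (.Y M l i)) -
      pl (.P M j) * pl (.s M l)) * dd (.s M l)

variable {pl : Lt R → E} {rh : R → E} {dd : Lt R → E}
  (hD : ∀ x y, dd x * pl y = if y = x then 1 else 0)
include hD

theorem actE_h1 (M : RM R) (i : Fin M.q) :
    actE pl rh dd (.r M) * actE pl rh dd (.w M i) =
      ∑ j, actE pl rh dd (.s M j) * rh (M.A i j) := by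
  simp only [actE, add_mul, Finset.sum_mul, mul_assoc, hD, Lt.w.injEq, heq_eq_eq,
    true_and, mul_ite, mul_one, mul_zero]
  rw [Finset.sum_ite_eq]
  simp

theorem actE_h4 (M : RM R) (i m : Fin M.q) :
    actE pl rh dd (.z M m) * actE pl rh dd (.w M i) = (if i = m then 1 else 0) +
      ∑ j, actE pl rh dd (.Y M j m) * rh (M.A i j) := by
  simp only [actE, add_mul, Finset.sum_mul, mul_assoc, hD, Lt.w.injEq, heq_eq_eq,
    true_and, mul_ite, mul_one, mul_zero]
  rw [Finset.sum_ite_eq]
  simp

theorem actE_Pr (M : RM R) (j : Fin M.p) :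
    actE pl rh dd (.P M j) * pl (.r M) = ∑ i, rh (M.A i j) * pl (.z M i) := by
  simp [actE, add_mul, Finset.sum_mul, mul_assoc, hD]

theorem actE_Ps (M : RM R) (j l : Fin M.p) :
    actE pl rh dd (.P M j) * pl (.s M l) = (if l = j then 1 else 0) +
      ∑ i, rh (M.A i j) * pl (.Y M l i) := by
  simp only [actE, add_mul, Finset.sum_mul, mul_assoc, hD, Lt.s.injEq, heq_eq_eq,
    true_and, mul_ite, mul_one, mul_zero]
  rw [Finset.sum_ite_eq]
  simp

theorem actE_h3 (M : RM R) (j l : Fin M.p) :
    actE pl rh dd (.P M l) * actE pl rh dd (.s M j) = (if j = l then 1 else 0) +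
      ∑ i, rh (M.A i l) * actE pl rh dd (.Y M j i) := actE_Ps hD M l j

theorem actE_h2 (M : RM R) (j : Fin M.p) :
    actE pl rh dd (.P M j) * actE pl rh dd (.r M) =
      ∑ i, rh (M.A i j) * actE pl rh dd (.z M i) := by
  have e1 : actE pl rh dd (.P M j) * actE pl rh dd (.r M) = actE pl rh dd (.P M j) * pl (.r M) +
      ∑ i, ((∑ l, (actE pl rh dd (.P M j) * pl (.s M l)) * rh (M.A i l)) -
        (actE pl rh dd (.P M j) * pl (.r M)) * pl (.w M i)) * dd (.w M i) := by
    conv_lhs => rw [show actE pl rh dd (.r M) = pl (.r M) +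
      ∑ i, ((∑ j, pl (.s M j) * rh (M.A i j)) -
        pl (.r M) * pl (.w M i)) * dd (.w M i) from rfl]
    rw [mul_add, Finset.mul_sum]
    congr 1
    refine Finset.sum_congr rfl fun i _ => ?_
    rw [← mul_assoc, mul_sub, Finset.mul_sum]
    simp only [mul_assoc]
  rw [e1, actE_Pr hD]
  simp only [actE_Ps hD]
  have e2 : ∀ i : Fin M.q, ((∑ l, ((if l = j then 1 else 0) +
      ∑ m, rh (M.A m j) * pl (.Y M l m)) * rh (M.A i l)) -
      (∑ m, rh (M.A m j) * pl (.z M m)) * pl (.w M i)) *
        dd (.w M i) =
      ∑ m, rh (M.A m j) * (((if i = m then 1 else 0) +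
      (∑ j, pl (.Y M j m) * rh (M.A i j)) -
      pl (.z M m) * pl (.w M i)) * dd (.w M i)) := by
    intro i
    have e3 : ∑ l, ((if l = j then 1 else 0) +
        ∑ m, rh (M.A m j) * pl (.Y M l m)) * rh (M.A i l) = rh (M.A i j) +
        ∑ m, rh (M.A m j) * ∑ l, pl (.Y M l m) * rh (M.A i l) := by
      simp only [add_mul, Finset.sum_add_distrib, ite_mul, one_mul, zero_mul]
      rw [Finset.sum_ite_eq']
      simp only [Finset.mem_univ, if_true, Finset.sum_mul, Finset.mul_sum, mul_assoc]
      rw [Finset.sum_comm]
    rw [e3]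
    simp only [sub_mul, add_mul, mul_sub, mul_add, Finset.sum_sub_distrib,
      Finset.sum_add_distrib, Finset.sum_mul, mul_assoc]
    congr 2
    simp
  simp only [e2]
  rw [Finset.sum_comm]
  simp only [actE, mul_add, Finset.mul_sum, Finset.sum_add_distrib]

end Abs

section Act

variable {k R β : Type} [Field k] [Ring R] [Algebra k R] (B : Module.Basis β k R) (o : β)

/-- the action of the letters -/
def act' : Lt R → Module.End k (V β (Lt R) R) :=
  actE (plain B) (rho k) (D B o)

variable (hB : B o = 1)
include hB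

theorem act_h1 (M : RM R) (i : Fin M.q) :
    act' B o (.r M) * act' B o (.w M i) = ∑ j, act' B o (.s M j) * rho k (M.A i j) :=
  actE_h1 (D_mul_plain B o hB) M i

theorem act_h4 (M : RM R) (i m : Fin M.q) :
    act' B o (.z M m) * act' B o (.w M i) = (if i = m then 1 else 0) +
      ∑ j, act' B o (.Y M j m) * rho k (M.A i j) :=
  actE_h4 (D_mul_plain B o hB) M i m

theorem act_h3 (M : RM R) (j l : Fin M.p) :
    act' B o (.P M l) * act' B o (.s M j) = (if j = l then 1 else 0) +
      ∑ i, rho k (M.A i l) * act' B o (.Y M j i) :=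
  actE_h3 (D_mul_plain B o hB) M j l

theorem act_h2 (M : RM R) (j : Fin M.p) :
    act' B o (.P M j) * act' B o (.r M) = ∑ i, rho k (M.A i j) * act' B o (.z M i) :=
  actE_h2 (D_mul_plain B o hB) M j

/-- `Λ(R)` acts on words -/
theorem exists_actHom : ∃ f : Lam k R →ₐ[k] (Module.End k (V β (Lt R) R))ᵐᵒᵖ,
    (∀ a, f (Lam.incl k R a) = MulOpposite.op (rho k a)) ∧
    ∀ x, f (Lam.letter k x) = MulOpposite.op (act' B o x) := by
  obtain ⟨f, hf1, hf2⟩ := Lam.exists_lift (k := k) (R := R)
    (rhoHom : R →ₐ[k] (Module.End k (V β (Lt R) R))ᵐᵒᵖ)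
    (fun M =>
      { r := MulOpposite.op (act' B o (.r M))
        w := fun i => MulOpposite.op (act' B o (.w M i))
        z := fun i => MulOpposite.op (act' B o (.z M i))
        s := fun i => MulOpposite.op (act' B o (.s M i))
        p := fun i => MulOpposite.op (act' B o (.P M i))
        Y := fun j i => MulOpposite.op (act' B o (.Y M j i))
        h1 := fun i => by
          apply MulOpposite.unop_injective
          simp only [MulOpposite.unop_mul, MulOpposite.unop_op, Finset.unop_sum]
          exact act_h1 B o hB M i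
        h2 := fun i => by
          apply MulOpposite.unop_injective
          simp only [MulOpposite.unop_mul, MulOpposite.unop_op, Finset.unop_sum]
          exact act_h2 B o hB M i
        h3 := fun i j => by
          apply MulOpposite.unop_injective
          simp only [MulOpposite.unop_mul, MulOpposite.unop_op, Finset.unop_sum,
            MulOpposite.unop_add, apply_ite MulOpposite.unop, MulOpposite.unop_one,
            MulOpposite.unop_zero]
          exact act_h3 B o hB M i j
        h4 := fun i j => by
          apply MulOpposite.unop_injective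
          simp only [MulOpposite.unop_mul, MulOpposite.unop_op, Finset.unop_sum,
            MulOpposite.unop_add, apply_ite MulOpposite.unop, MulOpposite.unop_one,
            MulOpposite.unop_zero]
          exact act_h4 B o hB M i j })
  refine ⟨f, hf1, fun x => ?_⟩
  rw [hf2]
  cases x <;> rfl

end Act

end

end Pool.Agent.Helper43.RD
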