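import Mathlib

/-!
# Regular matrices, certificates and purity
-/

set_option autoImplicit false

namespace Pool.Agent.Helper43.RD

open Matrix

section Defs

variable {R : Type} [Ring R] {Q P : Type}

/-- right regular matrices: no nonzero column is killed -/
def RReg [Fintype P] (M : Matrix Q P R) : Prop := ∀ x : P → R, M *ᵥ x = 0 → x = 0

/-- left regular matrices: no nonzero row is killed -/
def LReg [Fintype Q] (M : Matrix Q P R) : Prop := ∀ y : Q → R, y ᵥ* M = 0 → y = 0

/-- A certificate: `A` is a homotopy retract of a `1 × 1` matrix. -/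
structure Cert [Fintype Q] [Fintype P] [DecidableEq Q] [DecidableEq P] (A : Matrix Q P R) where
  r : R
  w : Q → R
  z : Q → R
  s : P → R
  p : P → R
  Y : P → Q → R
  h1 : ∀ i, w i * r = ∑ j, A i j * s j
  h2 : ∀ j, r * p j = ∑ i, z i * A i j
  h3 : ∀ j l, s j * p l = (if j = l then 1 else 0) + ∑ i, Y j i * A i l
  h4 : ∀ i m, w i * z m = (if i = m then 1 else 0) + ∑ j, A i j * Y j m

end Defs

section Cert

variable {R : Type} [Ring R] {Q P : Type} [Fintype Q] [Fintype P] [DecidableEq Q] [DecidableEq P]

theorem Cert.rreg {A : Matrix Q P R} [NoZeroDivisors R] (c : Cert A) (hr : c.r ≠ 0) : RReg A := by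
  intro x hx
  have hx' : ∀ i, ∑ j, A i j * x j = 0 := fun i => congrFun hx i
  have ht : ∑ j, c.p j * x j = 0 := by
    have h : c.r * ∑ j, c.p j * x j = 0 := by
      rw [Finset.mul_sum]
      calc ∑ j, c.r * (c.p j * x j) = ∑ j, ∑ i, c.z i * (A i j * x j) := by
            refine Finset.sum_congr rfl fun j _ => ?_
            rw [← mul_assoc, c.h2, Finset.sum_mul]
            exact Finset.sum_congr rfl fun i _ => mul_assoc _ _ _
        _ = ∑ i, c.z i * ∑ j, A i j * x j := by
            rw [Finset.sum_comm]
            exact Finset.sum_congr rfl fun i _ => (Finset.mul_sum _ _ _).symm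
        _ = 0 := by simp [hx']
    exact (mul_eq_zero.1 h).resolve_left hr
  funext j
  have h : c.s j * ∑ l, c.p l * x l = x j + ∑ i, c.Y j i * ∑ l, A i l * x l := by
    rw [Finset.mul_sum]
    calc ∑ l, c.s j * (c.p l * x l)
        = ∑ l, ((if j = l then 1 else 0) * x l + ∑ i, c.Y j i * (A i l * x l)) := by
          refine Finset.sum_congr rfl fun l _ => ?_
          rw [← mul_assoc, c.h3, add_mul, Finset.sum_mul]
          congr 1
          exact Finset.sum_congr rfl fun i _ => mul_assoc _ _ _
      _ = _ := by
          rw [Finset.sum_add_distrib, Finset.sum_comm]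
          simp [Finset.mul_sum]
  rw [ht, mul_zero] at h
  simp only [hx', mul_zero, Finset.sum_const_zero, add_zero] at h
  exact h.symm

theorem Cert.lreg {A : Matrix Q P R} [NoZeroDivisors R] (c : Cert A) (hr : c.r ≠ 0) : LReg A := by
  intro y hy
  have hy' : ∀ j, ∑ i, y i * A i j = 0 := fun j => congrFun hy j
  have ht : ∑ i, y i * c.w i = 0 := by
    have h : (∑ i, y i * c.w i) * c.r = 0 := by
      rw [Finset.sum_mul]
      calc ∑ i, y i * c.w i * c.r = ∑ i, ∑ j, (y i * A i j) * c.s j := by
            refine Finset.sum_congr rfl fun i _ => ?_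
            rw [mul_assoc, c.h1, Finset.mul_sum]
            exact Finset.sum_congr rfl fun j _ => (mul_assoc _ _ _).symm
        _ = ∑ j, (∑ i, y i * A i j) * c.s j := by
            rw [Finset.sum_comm]
            exact Finset.sum_congr rfl fun i _ => (Finset.sum_mul _ _ _).symm
        _ = 0 := by simp [hy']
    exact (mul_eq_zero.1 h).resolve_right hr
  funext m
  have h : (∑ i, y i * c.w i) * c.z m = y m + ∑ j, (∑ i, y i * A i j) * c.Y j m := by
    rw [Finset.sum_mul]
    calc ∑ i, y i * c.w i * c.z m
        = ∑ i, (y i * (if i = m then 1 else 0) + ∑ j, (y i * A i j) * c.Y j m) := by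
          refine Finset.sum_congr rfl fun i _ => ?_
          rw [mul_assoc, c.h4, mul_add, Finset.mul_sum]
          congr 1
          exact Finset.sum_congr rfl fun j _ => (mul_assoc _ _ _).symm
      _ = _ := by
          rw [Finset.sum_add_distrib, Finset.sum_comm]
          simp [Finset.sum_mul]
  rw [ht, zero_mul] at h
  simp only [hy', zero_mul, Finset.sum_const_zero, add_zero] at h
  exact h.symm

/-- reindexing a certificate -/
def Cert.reindex {A : Matrix Q P R} {Q' P' : Type} [Fintype Q'] [Fintype P'] [DecidableEq Q']
    [DecidableEq P'] (e : Q' ≃ Q) (f : P' ≃ P) (c : Cert A) : Cert (A.submatrix e f) where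
  r := c.r
  w i := c.w (e i)
  z i := c.z (e i)
  s j := c.s (f j)
  p j := c.p (f j)
  Y j i := c.Y (f j) (e i)
  h1 i := by
    rw [c.h1]
    exact (Equiv.sum_comp f fun j => A (e i) j * c.s j).symm
  h2 j := by
    rw [c.h2]
    exact (Equiv.sum_comp e fun i => c.z i * A i (f j)).symm
  h3 j l := by
    rw [c.h3]
    congr 1
    · simp
    · exact (Equiv.sum_comp e fun i => c.Y (f j) i * A i (f l)).symm
  h4 i m := by
    rw [c.h4]
    congr 1
    · simp
    · exact (Equiv.sum_comp f fun j => A (e i) j * c.Y j (e m)).symm

end Cert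

section Regular

variable {R : Type} [Ring R] {Q P : Type} [Fintype Q] [Fintype P]

theorem RReg.submatrix {A : Matrix Q P R} {Q' P' : Type} [Fintype Q'] [Fintype P']
    (h : RReg A) (e : Q' ≃ Q) (f : P' ≃ P) : RReg (A.submatrix e f) := by
  intro x hx
  have h1 : A *ᵥ (x ∘ f.symm) = 0 := by
    funext i
    have := congrFun hx (e.symm i)
    simp only [mulVec, dotProduct, submatrix_apply, Equiv.apply_symm_apply, Pi.zero_apply]
      at this ⊢
    rw [← this]
    rw [← Equiv.sum_comp f]
    simp
  have h2 := h _ h1
  funext j
  have := congrFun h2 (f j)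
  simpa using this

theorem LReg.submatrix {A : Matrix Q P R} {Q' P' : Type} [Fintype Q'] [Fintype P']
    (h : LReg A) (e : Q' ≃ Q) (f : P' ≃ P) : LReg (A.submatrix e f) := by
  intro y hy
  have h1 : (y ∘ e.symm) ᵥ* A = 0 := by
    funext j
    have := congrFun hy (f.symm j)
    simp only [vecMul, dotProduct, submatrix_apply, Equiv.apply_symm_apply, Pi.zero_apply]
      at this ⊢
    rw [← this]
    rw [← Equiv.sum_comp e]
    simp
  have h2 := h _ h1
  funext j
  have := congrFun h2 (e j)
  simpa using this

end Regular

/-! ### Regular matrices stay regular -/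

section Persist

variable {R : Type} [Ring R] [NoZeroDivisors R] {Q P : Type} [Fintype Q] [Fintype P]

/-- A right regular matrix can be completed by standard columns to a regular matrix. -/
theorem exists_completion [DecidableEq Q] (M : Matrix Q P R) (hM : RReg M) :
    ∃ J : Finset Q, ∃ N : Matrix Q (P ⊕ J) R, (∀ i j, N i (Sum.inl j) = M i j) ∧
      RReg N ∧ LReg N := by
  classical
  let I : Finset Q → Prop := fun J => ∀ (x : P → R) (v : Q → R), (∀ i, i ∉ J → v i = 0) →
    M *ᵥ x + v = 0 → x = 0 ∧ v = 0
  have hI0 : I ∅ := by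
    intro x v hv h
    have hv0 : v = 0 := by
      funext i
      exact hv i (by simp)
    subst hv0
    rw [add_zero] at h
    exact ⟨hM x h, rfl⟩
  obtain ⟨J, hJ, hmax⟩ := Set.Finite.exists_maximal (s := {J : Finset Q | I J})
    (Set.toFinite _) ⟨∅, hI0⟩
  have hJ' : I J := hJ
  refine ⟨J, fun i j => Sum.elim (fun j => M i j) (fun k => if i = k.1 then 1 else 0) j,
    fun i j => rfl, ?_, ?_⟩
  · intro x hx
    let v : Q → R := fun i => if h : i ∈ J then x (Sum.inr ⟨i, h⟩) else 0
    have h1 : M *ᵥ (fun j => x (Sum.inl j)) + v = 0 := by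
      funext i
      have h2 := congrFun hx i
      simp only [mulVec, dotProduct, Fintype.sum_sum_type, Sum.elim_inl, Sum.elim_inr,
        Pi.zero_apply] at h2
      simp only [Pi.add_apply, mulVec, dotProduct, Pi.zero_apply]
      rw [← h2]
      congr 1
      simp only [v]
      by_cases h : i ∈ J
      · rw [dif_pos h, Finset.sum_eq_single (⟨i, h⟩ : J)]
        · simp
        · intro b _ hb
          have : i ≠ b.1 := fun h' => hb (Subtype.ext h'.symm)
          simp [this]
        · simp
      · rw [dif_neg h, Finset.sum_eq_zero]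
        intro b _
        have : i ≠ b.1 := fun h' => h (h' ▸ b.2)
        simp [this]
    have h3 := hJ' _ v (fun i hi => by simp only [v]; rw [dif_neg hi]) h1
    funext j
    rcases j with j | j
    · exact congrFun h3.1 j
    · have := congrFun h3.2 j.1
      simp only [v] at this
      rw [dif_pos j.2] at this
      exact this
  · intro y hy
    have h1 : y ᵥ* M = 0 := by
      funext j
      exact congrFun hy (Sum.inl j)
    have h2 : ∀ i ∈ J, y i = 0 := by
      intro i hi
      have := congrFun hy (Sum.inr ⟨i, hi⟩)
      simpa [vecMul, dotProduct] using this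
    funext i
    by_cases hi : i ∈ J
    · exact h2 i hi
    · have h3 : ¬ I (insert i J) := by
        intro h
        have := hmax h (Finset.subset_insert i J)
        exact hi (this (Finset.mem_insert_self i J))
      simp only [I] at h3
      push Not at h3
      obtain ⟨x, v, hv, hxv, hne⟩ := h3
      have h4 : v i ≠ 0 := by
        intro h0
        have h5 := hJ' x v (by
          intro k hk
          by_cases hki : k = i
          · rw [hki]; exact h0
          · exact hv k (by simp [hki, hk])) hxv
        exact hne h5.1 h5.2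
      have h6 : y i * v i = 0 := by
        have h7 : y ⬝ᵥ (M *ᵥ x + v) = 0 := by rw [hxv]; simp
        rw [dotProduct_add, dotProduct_mulVec, h1, zero_dotProduct, zero_add] at h7
        rw [← h7]
        simp only [dotProduct]
        rw [Finset.sum_eq_single i]
        · intro k _ hk
          by_cases hkJ : k ∈ J
          · rw [h2 k hkJ, zero_mul]
          · rw [hv k (by simp [hk, hkJ]), mul_zero]
        · simp
      exact (mul_eq_zero.1 h6).resolve_right h4

/-- A left regular matrix can be completed by standard rows to a regular matrix. -/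
theorem exists_completion' [DecidableEq P] (M : Matrix Q P R) (hM : LReg M) :
    ∃ J : Finset P, ∃ N : Matrix (Q ⊕ J) P R, (∀ i j, N (Sum.inl i) j = M i j) ∧
      RReg N ∧ LReg N := by
  classical
  let I : Finset P → Prop := fun J => ∀ (y : Q → R) (v : P → R), (∀ i, i ∉ J → v i = 0) →
    y ᵥ* M + v = 0 → y = 0 ∧ v = 0
  have hI0 : I ∅ := by
    intro x v hv h
    have hv0 : v = 0 := by
      funext i
      exact hv i (by simp)
    subst hv0
    rw [add_zero] at h
    exact ⟨hM x h, rfl⟩
  obtain ⟨J, hJ, hmax⟩ := Set.Finite.exists_maximal (s := {J : Finset P | I J})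
    (Set.toFinite _) ⟨∅, hI0⟩
  have hJ' : I J := hJ
  refine ⟨J, fun i j => Sum.elim (fun i => M i j) (fun k => if k.1 = j then 1 else 0) i,
    fun i j => rfl, ?_, ?_⟩
  · intro x hx
    have h1 : M *ᵥ x = 0 := by
      funext j
      exact congrFun hx (Sum.inl j)
    have h2 : ∀ i ∈ J, x i = 0 := by
      intro i hi
      have := congrFun hx (Sum.inr ⟨i, hi⟩)
      simpa [mulVec, dotProduct] using this
    funext i
    by_cases hi : i ∈ J
    · exact h2 i hi
    · have h3 : ¬ I (insert i J) := by
        intro h
        have := hmax h (Finset.subset_insert i J)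
        exact hi (this (Finset.mem_insert_self i J))
      simp only [I] at h3
      push Not at h3
      obtain ⟨y, v, hv, hxv, hne⟩ := h3
      have h4 : v i ≠ 0 := by
        intro h0
        have h5 := hJ' y v (by
          intro k hk
          by_cases hki : k = i
          · rw [hki]; exact h0
          · exact hv k (by simp [hki, hk])) hxv
        exact hne h5.1 h5.2
      have h6 : v i * x i = 0 := by
        have h7 : (y ᵥ* M + v) ⬝ᵥ x = 0 := by rw [hxv]; simp
        rw [add_dotProduct, ← dotProduct_mulVec, h1, dotProduct_zero, zero_add] at h7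
        rw [← h7]
        simp only [dotProduct]
        rw [Finset.sum_eq_single i]
        · intro k _ hk
          by_cases hkJ : k ∈ J
          · rw [h2 k hkJ, mul_zero]
          · rw [hv k (by simp [hk, hkJ]), zero_mul]
        · simp
      exact (mul_eq_zero.1 h6).resolve_left h4
  · intro y hy
    let v : P → R := fun i => if h : i ∈ J then y (Sum.inr ⟨i, h⟩) else 0
    have h1 : (fun j => y (Sum.inl j)) ᵥ* M + v = 0 := by
      funext i
      have h2 := congrFun hy i
      simp only [vecMul, dotProduct, Fintype.sum_sum_type, Sum.elim_inl, Sum.elim_inr,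
        Pi.zero_apply] at h2
      simp only [Pi.add_apply, vecMul, dotProduct, Pi.zero_apply]
      rw [← h2]
      congr 1
      simp only [v]
      by_cases h : i ∈ J
      · rw [dif_pos h, Finset.sum_eq_single (⟨i, h⟩ : J)]
        · simp
        · intro b _ hb
          have : b.1 ≠ i := fun h' => hb (Subtype.ext h')
          simp [this]
        · simp
      · rw [dif_neg h, Finset.sum_eq_zero]
        intro b _
        have : b.1 ≠ i := fun h' => h (h' ▸ b.2)
        simp [this]
    have h3 := hJ' _ v (fun i hi => by simp only [v]; rw [dif_neg hi]) h1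
    funext j
    rcases j with j | j
    · exact congrFun h3.1 j
    · have := congrFun h3.2 j.1
      simp only [v] at this
      rw [dif_pos j.2] at this
      exact this

variable {S : Type} [Ring S] [NoZeroDivisors S]

/-- All regular matrices over `R` have (non-degenerate) certificates over `S`. -/
def Covers (φ : R →+* S) : Prop :=
  ∀ (q p : ℕ) (M : Matrix (Fin q) (Fin p) R), RReg M → LReg M →
    ∃ c : Cert (M.map φ), c.r ≠ 0

theorem Covers.cert {φ : R →+* S} (h : Covers φ) [DecidableEq Q] [DecidableEq P]
    (M : Matrix Q P R) (h1 : RReg M) (h2 : LReg M) : ∃ c : Cert (M.map φ), c.r ≠ 0 := by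
  let e := Fintype.equivFin Q
  let f := Fintype.equivFin P
  obtain ⟨c, hc⟩ := h _ _ (M.submatrix e.symm f.symm) (h1.submatrix e.symm f.symm)
    (h2.submatrix e.symm f.symm)
  have h3 : ((M.submatrix e.symm f.symm).map φ).submatrix e f = M.map φ := by
    ext i j
    simp
  have c' := c.reindex e f
  have h4 : (c.reindex e f).r ≠ 0 := hc
  rw [h3] at c'
  exact ⟨h3 ▸ c.reindex e f, by
    have : ∀ (A B : Matrix Q P S) (h : A = B) (c : Cert A), (h ▸ c : Cert B).r = c.r := by
      intro A B h c
      subst h
      rfl
    rw [this]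
    exact h4⟩

theorem Covers.rreg {φ : R →+* S} (h : Covers φ) (M : Matrix Q P R) (hM : RReg M) :
    RReg (M.map φ) := by
  classical
  obtain ⟨J, N, h1, h2, h3⟩ := exists_completion M hM
  obtain ⟨c, hc⟩ := h.cert N h2 h3
  have h4 := c.rreg hc
  intro x hx
  have h5 := h4 (Sum.elim x 0) (by
    funext i
    have := congrFun hx i
    simp only [mulVec, dotProduct, map_apply, Fintype.sum_sum_type, Sum.elim_inl,
      Sum.elim_inr, Pi.zero_apply, mul_zero, Finset.sum_const_zero, add_zero, h1] at this ⊢
    exact this)
  funext j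
  exact congrFun h5 (Sum.inl j)

theorem Covers.lreg {φ : R →+* S} (h : Covers φ) (M : Matrix Q P R) (hM : LReg M) :
    LReg (M.map φ) := by
  classical
  obtain ⟨J, N, h1, h2, h3⟩ := exists_completion' M hM
  obtain ⟨c, hc⟩ := h.cert N h2 h3
  have h4 := c.lreg hc
  intro x hx
  have h5 := h4 (Sum.elim x 0) (by
    funext i
    have := congrFun hx i
    simp only [vecMul, dotProduct, map_apply, Fintype.sum_sum_type, Sum.elim_inl,
      Sum.elim_inr, Pi.zero_apply, zero_mul, Finset.sum_const_zero, add_zero, h1] at this ⊢
    exact this)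
  funext j
  exact congrFun h5 (Sum.inl j)

end Persist

end Pool.Agent.Helper43.RD
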