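import Pool.Agent.Helper43.RD.Tower

/-!
# The limit ring
-/

set_option autoImplicit false
set_option linter.unusedSectionVars false

namespace Pool.Agent.Helper43.RD

open Matrix

/-- bundled formally smooth domains -/
structure Ob (k : Type) [Field k] where
  C : Type
  [ring : Ring C]
  [alg : Algebra k C]
  [dom : IsDomain C]
  qf : QF k C

attribute [instance] Ob.ring Ob.alg Ob.dom

noncomputable section

variable {k : Type} [Field k]

/-- one step of the construction -/
def Ob.step (X : Ob k) : Ob k := { C := Lam k X.C, qf := Lam.qf X.qf }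

/-- the chain of algebras -/
def Ob.chain (X : Ob k) : ℕ → Ob k
  | 0 => X
  | n + 1 => (Ob.chain X n).step

/-- the algebras of the chain -/
abbrev Ob.G (X : Ob k) (n : ℕ) : Type := (X.chain n).C

/-- the inclusions of the chain -/
def Ob.f (X : Ob k) (n : ℕ) : X.G n →+* X.G (n + 1) :=
  (Lam.incl k (X.G n) : X.G n →+* Lam k (X.G n))

theorem Ob.f_injective (X : Ob k) (n : ℕ) : Function.Injective (X.f n) :=
  Lam.incl_injective k (X.G n)

theorem Ob.f_covers (X : Ob k) (n : ℕ) : Covers (X.f n) :=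
  Lam.covers k (X.G n)

/-- the transition maps of the chain -/
def Ob.tr (X : Ob k) (n m : ℕ) (h : n ≤ m) : X.G n →+* X.G m :=
  Nat.leRecOn h (fun {k} g => (X.f k).comp g) (RingHom.id (X.G n))

theorem Ob.tr_self (X : Ob k) (n : ℕ) : X.tr n n le_rfl = RingHom.id _ := Nat.leRecOn_self _

theorem Ob.tr_succ (X : Ob k) {n m : ℕ} (h : n ≤ m) :
    X.tr n (m + 1) (h.trans (Nat.le_succ m)) = (X.f m).comp (X.tr n m h) :=
  Nat.leRecOn_succ h _

theorem Ob.tr_tr (X : Ob k) {n m l : ℕ} (h : n ≤ m) (h' : m ≤ l) (x : X.G n) :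
    X.tr m l h' (X.tr n m h x) = X.tr n l (h.trans h') x := by
  induction l, h' using Nat.le_induction with
  | base => rw [X.tr_self]; rfl
  | succ l hl ih =>
    rw [X.tr_succ hl, X.tr_succ (h.trans hl)]
    change X.f l (X.tr m l hl (X.tr n m h x)) = X.f l (X.tr n l _ x)
    rw [ih]

theorem Ob.tr_injective (X : Ob k) {n m : ℕ} (h : n ≤ m) : Function.Injective (X.tr n m h) := by
  induction m, h using Nat.le_induction with
  | base =>
    rw [X.tr_self]
    exact Function.injective_id
  | succ m hm ih =>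
    rw [X.tr_succ hm]
    exact (X.f_injective m).comp ih

instance Ob.directedSystem (X : Ob k) : DirectedSystem X.G (fun i j h => X.tr i j h) where
  map_self := fun i x => by
    rw [X.tr_self]
    rfl
  map_map := fun l j i h h' x => X.tr_tr h h' x

/-- the union of the chain -/
def Ob.Lim (X : Ob k) : Type := DirectLimit X.G X.tr

instance (X : Ob k) : Ring X.Lim := inferInstanceAs (Ring (DirectLimit X.G X.tr))

/-- the maps to the union -/
def Ob.inc (X : Ob k) (n : ℕ) : X.G n →+* X.Lim where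
  toFun x := (⟦⟨n, x⟩⟧ : DirectLimit X.G X.tr)
  map_one' := (DirectLimit.one_def n).symm
  map_mul' x y := (DirectLimit.mul_def n x y).symm
  map_zero' := (DirectLimit.zero_def n).symm
  map_add' x y := (DirectLimit.add_def n x y).symm

theorem Ob.inc_injective (X : Ob k) (n : ℕ) : Function.Injective (X.inc n) :=
  DirectLimit.mk_injective X.tr (fun _ _ h => X.tr_injective h) n

theorem Ob.inc_f (X : Ob k) (n : ℕ) (x : X.G n) : X.inc (n + 1) (X.f n x) = X.inc n x := by
  have h1 := DirectLimit.mk_apply (f := X.tr) n (n + 1) x (Nat.le_succ n)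
  have h2 : X.tr n (n + 1) (Nat.le_succ n) x = X.f n x := by
    rw [X.tr_succ (le_refl n), X.tr_self]
    rfl
  rw [h2] at h1
  exact h1

theorem Ob.inc_surj (X : Ob k) (x : X.Lim) : ∃ n y, X.inc n y = x := by
  obtain ⟨n, y, h⟩ := DirectLimit.exists_eq_mk X.tr x
  exact ⟨n, y, h.symm⟩

theorem Ob.lim_isDomain (X : Ob k) : IsDomain X.Lim :=
  tower_isDomain X.f X.inc X.inc_injective X.inc_f X.inc_surj

theorem Ob.lim_SL (X : Ob k) : SL X.Lim :=
  tower_SL X.f X.inc X.inc_injective X.inc_f X.inc_surj X.f_covers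
    (fun n => (X.chain n).qf.SL)

theorem Ob.lim_SR (X : Ob k) : SR X.Lim :=
  tower_SR X.f X.inc X.inc_injective X.inc_f X.inc_surj X.f_covers
    (fun n => SR_of_op (X.chain n).qf.op.SL)

/-- The union has the RD property. -/
theorem Ob.lim_rd (X : Ob k) {M : Type} [AddCommGroup M] [Module X.Lim M]
    {N : Submodule X.Lim M} (hN : RDPure N) {m n : ℕ} (A : Matrix (Fin m) (Fin n) X.Lim)
    (x : Fin n → M) (hx : ∀ i, act A x i ∈ N) :
    ∃ y : Fin n → M, (∀ j, y j ∈ N) ∧ act A y = act A x := by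
  have := X.lim_isDomain
  exact rd_pure X.lim_SL X.lim_SR
    (fun M h1 h2 => tower_cert X.f X.inc X.inc_injective X.inc_f X.inc_surj X.f_covers M h1 h2)
    hN A x hx

theorem Ob.lim_not_ore (X : Ob k) (a b : X.G 0) (hab : ∀ x y : X.G 0, a * x = b * y → x = 0 ∧ y = 0)
    (x y : X.Lim) (hxy : X.inc 0 a * x = X.inc 0 b * y) : x = 0 := by
  let M : Matrix (Fin 1) (Fin 2) (X.G 0) := Matrix.of fun _ => ![a, -b]
  have hM : RReg M := by
    intro v hv
    have h1 : a * v 0 + -b * v 1 = 0 := by
      have h2 := congrFun hv 0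
      simp only [Matrix.mulVec, dotProduct, Fin.sum_univ_two] at h2
      exact h2
    rw [neg_mul] at h1
    obtain ⟨h3, h4⟩ := hab _ _ (add_neg_eq_zero.1 h1)
    funext i
    fin_cases i
    · exact h3
    · exact h4
  have hM' := tower_rreg X.f X.inc X.inc_injective X.inc_f X.inc_surj X.f_covers M hM
  have h5 := hM' ![x, y] (by
    funext i
    simp only [Matrix.mulVec, dotProduct, Fin.sum_univ_two, Pi.zero_apply]
    change X.inc 0 a * x + X.inc 0 (-b) * y = 0
    rw [hxy, map_neg, neg_mul, add_neg_cancel])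
  exact congrFun h5 0

/-- the free algebra on two generators -/
def freeOb (k : Type) [Field k] : Ob k :=
  { C := FreeAlgebra k (Fin 2), qf := QF.freeAlgebra k (Fin 2) }

theorem freeAlgebra_not_ore (k : Type) [Field k] {x y : FreeAlgebra k (Fin 2)}
    (h : FreeAlgebra.ι k 0 * x = FreeAlgebra.ι k 1 * y) : x = 0 ∧ y = 0 := by
  let e : FreeAlgebra k (Fin 2) ≃ₐ[k] MonoidAlgebra k (FreeMonoid (Fin 2)) :=
    FreeAlgebra.equivMonoidAlgebraFreeMonoid
  have he : ∀ j, e (FreeAlgebra.ι k j) = MonoidAlgebra.single (FreeMonoid.of j) 1 := by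
    intro j
    simp [e, FreeAlgebra.equivMonoidAlgebraFreeMonoid]
  have h1 := congrArg e h
  rw [map_mul, map_mul, he, he] at h1
  constructor
  · apply e.injective
    rw [map_zero]
    ext w
    have h2 := congrArg (fun z : MonoidAlgebra k (FreeMonoid (Fin 2)) =>
      z.coeff (FreeMonoid.of 0 * w)) h1
    beta_reduce at h2
    rw [MonoidAlgebra.coeff_single_mul_eq_mul_coeff w (by simp),
      MonoidAlgebra.coeff_single_mul_of_forall_mul_ne] at h2
    · simpa using h2
    · intro d hd
      have := congrArg FreeMonoid.toList hd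
      simp at this
  · apply e.injective
    rw [map_zero]
    ext w
    have h2 := congrArg (fun z : MonoidAlgebra k (FreeMonoid (Fin 2)) =>
      z.coeff (FreeMonoid.of 1 * w)) h1
    beta_reduce at h2
    rw [MonoidAlgebra.coeff_single_mul_of_forall_mul_ne,
      MonoidAlgebra.coeff_single_mul_eq_mul_coeff w (by simp)] at h2
    · simpa using h2.symm
    · intro d hd
      have := congrArg FreeMonoid.toList hd
      simp at this

/-- There is an RD domain which is not a right Ore domain. -/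
theorem exists_rd_not_ore : ∃ (R : Type) (_ : Ring R), IsDomain R ∧
    (∀ (M : Type) [AddCommGroup M] [Module R M] (N : Submodule R M), RDPure N →
      ∀ (m n : ℕ) (A : Matrix (Fin m) (Fin n) R) (x : Fin n → M), (∀ i, act A x i ∈ N) →
      ∃ y : Fin n → M, (∀ j, y j ∈ N) ∧ act A y = act A x) ∧
    ∃ a b : R, a ≠ 0 ∧ b ≠ 0 ∧ ∀ x y, a * x = b * y → x = 0 := by
  let X : Ob ℚ := freeOb ℚ
  let a : X.G 0 := FreeAlgebra.ι ℚ (0 : Fin 2)
  let b : X.G 0 := FreeAlgebra.ι ℚ (1 : Fin 2)
  have ha : a ≠ 0 := FreeAlgebra.ι_ne_zero _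
  have hb : b ≠ 0 := FreeAlgebra.ι_ne_zero _
  have hab : ∀ x y : X.G 0, a * x = b * y → x = 0 ∧ y = 0 :=
    fun x y h => freeAlgebra_not_ore ℚ h
  refine ⟨X.Lim, inferInstance, X.lim_isDomain, ?_, X.inc 0 a, X.inc 0 b, ?_, ?_, ?_⟩
  · intro M _ _ N hN m n A x hx
    exact X.lim_rd hN A x hx
  · intro h
    exact ha (X.inc_injective 0 (h.trans (map_zero _).symm))
  · intro h
    exact hb (X.inc_injective 0 (h.trans (map_zero _).symm))
  · exact X.lim_not_ore a b hab

end

end Pool.Agent.Helper43.RD
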