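import Pool.Agent.Helper43.RD.PurityU
import Pool.Agent.Helper43.RD.Chain

/-!
# Both sides, all universes, over any field
-/

set_option autoImplicit false
set_option linter.unusedSectionVars false

namespace Pool.Agent.Helper43.RDU

open Matrix MulOpposite
open Pool.Agent.Helper43.RD hiding act act_mul act_add act_one RDPure rd_pure

universe w

section Op

variable {R : Type} [Ring R] {Q P : Type} [Fintype Q] [Fintype P]

/-- a matrix over the opposite ring as a transposed matrix over the ring -/
def trp (M : Matrix Q P Rᵐᵒᵖ) : Matrix P Q R := Matrix.of fun j i => (M i j).unop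

theorem lreg_trp {M : Matrix Q P Rᵐᵒᵖ} (h : RReg M) : LReg (trp M) := by
  intro y hy
  have h1 := h (fun j => op (y j)) (by
    funext i
    apply unop_injective
    have h2 := congrFun hy i
    simpa [vecMul, mulVec, dotProduct, trp] using h2)
  funext j
  have h3 := congrArg unop (congrFun h1 j)
  simpa using h3

theorem rreg_trp {M : Matrix Q P Rᵐᵒᵖ} (h : LReg M) : RReg (trp M) := by
  intro y hy
  have h1 := h (fun j => op (y j)) (by
    funext i
    apply unop_injective
    have h2 := congrFun hy i
    simpa [vecMul, mulVec, dotProduct, trp] using h2)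
  funext j
  have h3 := congrArg unop (congrFun h1 j)
  simpa using h3

/-- certificates over the opposite ring -/
def certOfTrp [DecidableEq Q] [DecidableEq P] {M : Matrix Q P Rᵐᵒᵖ} (c : Cert (trp M)) :
    Cert M where
  r := op c.r
  w i := op (c.p i)
  z i := op (c.s i)
  s j := op (c.z j)
  p j := op (c.w j)
  Y j i := op (c.Y i j)
  h1 i := by
    apply unop_injective
    have h := c.h2 i
    simpa [trp] using h
  h2 j := by
    apply unop_injective
    have h := c.h1 j
    simpa [trp] using h
  h3 j l := by
    apply unop_injective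
    have h := c.h4 l j
    by_cases hjl : j = l
    · subst hjl
      simpa [trp] using h
    · have hlj : ¬ l = j := fun h => hjl h.symm
      simpa [trp, hjl, hlj] using h
  h4 i m := by
    apply unop_injective
    have h := c.h3 m i
    by_cases him : i = m
    · subst him
      simpa [trp] using h
    · have hmi : ¬ m = i := fun h => him h.symm
      simpa [trp, him, hmi] using h

theorem SL_op (h : SR R) : SL Rᵐᵒᵖ := by
  intro m n A
  obtain ⟨C, h1, h2⟩ := h n m (trp A)
  refine ⟨Matrix.of fun i j => op (C j i), ?_, ?_⟩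
  · ext i j
    apply unop_injective
    have h3 := congrFun (congrFun h1 j) i
    simpa [trp, Matrix.mul_apply] using h3
  · intro y hy
    have h3 := h2 (fun j => (y j).unop) (by
      funext i
      have h4 := congrArg unop (congrFun hy i)
      simpa [vecMul, mulVec, dotProduct, trp] using h4)
    funext i
    apply unop_injective
    have h4 := congrFun h3 i
    simpa [vecMul, mulVec, dotProduct] using h4

theorem SR_op (h : SL R) : SR Rᵐᵒᵖ := by
  intro m n A
  obtain ⟨C, h1, h2⟩ := h n m (trp A)
  refine ⟨Matrix.of fun i j => op (C j i), ?_, ?_⟩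
  · ext i j
    apply unop_injective
    have h3 := congrFun (congrFun h1 j) i
    simpa [trp, Matrix.mul_apply] using h3
  · intro y hy
    have h3 := h2 (fun j => (y j).unop) (by
      funext i
      have h4 := congrArg unop (congrFun hy i)
      simpa [vecMul, mulVec, dotProduct, trp] using h4)
    funext i
    apply unop_injective
    have h4 := congrFun h3 i
    simpa [vecMul, mulVec, dotProduct] using h4

end Op

section Lim

variable {k : Type} [Field k] (X : Ob k)

/-- left modules over the union -/
theorem lim_rd_left {M : Type w} [AddCommGroup M] [Module X.Lim M]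
    {N : Submodule X.Lim M} (hN : RDPure N) {m n : ℕ} (A : Matrix (Fin m) (Fin n) X.Lim)
    (x : Fin n → M) (hx : ∀ i, act A x i ∈ N) :
    ∃ y : Fin n → M, (∀ j, y j ∈ N) ∧ act A y = act A x := by
  have := X.lim_isDomain
  exact rd_pure X.lim_SL X.lim_SR
    (fun M h1 h2 => tower_cert X.f X.inc X.inc_injective X.inc_f X.inc_surj X.f_covers M h1 h2)
    hN A x hx

/-- right modules over the union -/
theorem lim_rd_right {M : Type w} [AddCommGroup M] [Module X.Limᵐᵒᵖ M]
    {N : Submodule X.Limᵐᵒᵖ M} (hN : RDPure N) {m n : ℕ}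
    (A : Matrix (Fin m) (Fin n) X.Limᵐᵒᵖ)
    (x : Fin n → M) (hx : ∀ i, act A x i ∈ N) :
    ∃ y : Fin n → M, (∀ j, y j ∈ N) ∧ act A y = act A x := by
  have := X.lim_isDomain
  refine rd_pure (SL_op X.lim_SR) (SR_op X.lim_SL) ?_ hN A x hx
  intro Q P _ _ _ _ M h1 h2
  obtain ⟨c⟩ := tower_cert X.f X.inc X.inc_injective X.inc_f X.inc_surj X.f_covers (trp M)
    (rreg_trp h2) (lreg_trp h1)
  exact ⟨certOfTrp c⟩

theorem lim_not_ore_left (a b : X.G 0) (hab : ∀ x y : X.G 0, x * a = y * b → x = 0 ∧ y = 0)
    (x y : X.Lim) (hxy : x * X.inc 0 a = y * X.inc 0 b) : x = 0 := by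
  let M : Matrix (Fin 2) (Fin 1) (X.G 0) := Matrix.of fun i _ => (![a, -b] : Fin 2 → X.G 0) i
  have hM : LReg M := by
    intro v hv
    have h1 : v 0 * a + v 1 * -b = 0 := by
      have h2 := congrFun hv 0
      simp only [Matrix.vecMul, dotProduct, Fin.sum_univ_two] at h2
      exact h2
    rw [mul_neg] at h1
    obtain ⟨h3, h4⟩ := hab _ _ (add_neg_eq_zero.1 h1)
    funext i
    fin_cases i
    · exact h3
    · exact h4
  have hM' := tower_lreg X.f X.inc X.inc_injective X.inc_f X.inc_surj X.f_covers M hM
  have h5 := hM' ![x, y] (by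
    funext i
    simp only [Matrix.vecMul, dotProduct, Fin.sum_univ_two, Pi.zero_apply]
    change x * X.inc 0 a + y * X.inc 0 (-b) = 0
    rw [hxy, map_neg, mul_neg, add_neg_cancel])
  exact congrFun h5 0

theorem freeAlgebra_not_ore_left (k : Type) [Field k] {x y : FreeAlgebra k (Fin 2)}
    (h : x * FreeAlgebra.ι k 0 = y * FreeAlgebra.ι k 1) : x = 0 ∧ y = 0 := by
  let e : FreeAlgebra k (Fin 2) ≃ₐ[k] MonoidAlgebra k (FreeMonoid (Fin 2)) :=
    FreeAlgebra.equivMonoidAlgebraFreeMonoid
  have he : ∀ j, e (FreeAlgebra.ι k j) = MonoidAlgebra.single (FreeMonoid.of j) 1 := by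
    intro j
    simp [e, FreeAlgebra.equivMonoidAlgebraFreeMonoid]
  have hne : ∀ (d w : FreeMonoid (Fin 2)) (i j : Fin 2), i ≠ j →
      d * FreeMonoid.of i ≠ w * FreeMonoid.of j := by
    intro d w i j hij hd
    have h1 := congrArg (fun z => (FreeMonoid.toList z).reverse) hd
    simp only [FreeMonoid.toList_mul, FreeMonoid.toList_of, List.reverse_append,
      List.reverse_singleton, List.singleton_append] at h1
    exact hij (List.cons.inj h1).1
  have h1 := congrArg e h
  rw [map_mul, map_mul, he, he] at h1
  constructor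
  · apply e.injective
    rw [map_zero]
    ext w
    have h2 := congrArg (fun z : MonoidAlgebra k (FreeMonoid (Fin 2)) =>
      z.coeff (w * FreeMonoid.of 0)) h1
    beta_reduce at h2
    rw [MonoidAlgebra.coeff_mul_single_eq_coeff_mul w (by simp),
      MonoidAlgebra.coeff_mul_single_of_forall_mul_ne] at h2
    · simpa using h2
    · intro d
      exact hne _ _ _ _ (by decide)
  · apply e.injective
    rw [map_zero]
    ext w
    have h2 := congrArg (fun z : MonoidAlgebra k (FreeMonoid (Fin 2)) =>
      z.coeff (w * FreeMonoid.of 1)) h1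
    beta_reduce at h2
    rw [MonoidAlgebra.coeff_mul_single_of_forall_mul_ne,
      MonoidAlgebra.coeff_mul_single_eq_coeff_mul w (by simp)] at h2
    · simpa using h2.symm
    · intro d
      exact hne _ _ _ _ (by decide)

/-- scalars in the union -/
theorem inc_algebraMap (n : ℕ) (c : k) :
    X.inc n (algebraMap k (X.G n) c) = X.inc 0 (algebraMap k (X.G 0) c) := by
  induction n with
  | zero => rfl
  | succ n ih =>
    rw [← ih, ← X.inc_f n]
    congr 1
    exact ((Lam.incl k (X.G n)).commutes c).symm

/-- the union is an algebra over the base field -/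
@[reducible] noncomputable def limAlgebra : Algebra k X.Lim :=
  RingHom.toAlgebra' ((X.inc 0).comp (algebraMap k (X.G 0))) (by
    intro c x
    obtain ⟨n, y, rfl⟩ := X.inc_surj x
    rw [RingHom.comp_apply, ← inc_algebraMap X n c, ← map_mul, ← map_mul,
      Algebra.commutes])

end Lim

end Pool.Agent.Helper43.RDU
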