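import Pool.Agent.Helper43.RD.Theta

/-!
# `Λ(R)` is a domain
-/

set_option autoImplicit false
set_option linter.unusedSectionVars false
set_option linter.unusedSimpArgs false

namespace Pool.Agent.Helper43.RD

open Finsupp

noncomputable section

open scoped Classical

/-- letters of the associated graded picture -/
inductive Xt (R : Type) [Ring R] : Type
  | e (M : RM R) (i : Fin M.q)
  | f (M : RM R) (j : Fin M.p)
  | r (M : RM R)

/-- degrees -/
def dg {R : Type} [Ring R] : Lt R → ℕ
  | .w _ _ => 1
  | .P _ _ => 1
  | .r _ => 1
  | .s _ _ => 2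
  | .z _ _ => 2
  | .Y _ _ _ => 3

/-- degrees -/
def dx {R : Type} [Ring R] : Xt R → ℕ := fun _ => 1

section Free

variable {k R β L : Type} [Field k] [Ring R] [Algebra k R] (B : Module.Basis β k R)

theorem rho_rho (a b : R) (v : V β L R) : rho k a (rho k b v) = rho k (b * a) v := by
  rw [rho_mul]
  rfl

/-- the product with a fixed element in the free `R`-ring -/
def pst (v : V β L R) : V β L R →ₗ[k] V β L R := (wordRep (plain B)).ev B v

theorem dl_pst (v u : V β L R) (x : L) (χ : R →ₗ[k] k) :
    dl B x χ (pst B v u) = pst B v (dl B x χ u) + dl B x χ (rho k (u []) v) := by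
  induction u using Finsupp.induction_linear with
  | zero => simp [rho_zero]
  | add a b ha hb =>
    rw [map_add, map_add, map_add, ha, hb, map_add]
    have : (a + b) [] = a [] + b [] := rfl
    rw [this, rho_add, LinearMap.add_apply, map_add]
    abel
  | single t c =>
    cases t with
    | nil =>
      rw [dl_nil, map_zero, zero_add, pst, Rep.ev_single, Finsupp.single_eq_same]
      rfl
    | cons p t =>
      obtain ⟨b, y⟩ := p
      have h1 : (single ((b, y) :: t) c : V β L R) [] = 0 := by
        rw [Finsupp.single_eq_of_ne]
        simp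
      rw [h1, rho_zero, LinearMap.zero_apply, map_zero, add_zero, pst, Rep.ev_cons, dl_cons]
      change dl B x χ (rho k c (plain B y _)) = _
      rw [dl_rho_plain]
      split_ifs
      · rw [← map_smul, Finsupp.smul_single]
      · rw [map_zero]

theorem pst_not_low [NoZeroDivisors R] {d : L → ℕ} (hd : ∀ x, d x = 1) {n : ℤ}
    {v : V β L R} (hv1 : v ∈ (low (k := k) d (n + 1))) (hv2 : v ∉ (low (k := k) d n)) (m : ℕ) :
    ∀ u : V β L R, u ∈ (low (k := k) d (m + 1)) → u ∉ (low (k := k) d m) →
      pst B v u ∉ (low (k := k) d (n + m)) := by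
  induction m with
  | zero =>
    intro u hu1 hu2
    have h1 : u = single [] (u []) := by
      ext t
      cases t with
      | nil => simp
      | cons p t =>
        rw [Finsupp.single_eq_of_ne (by simp)]
        apply hu1
        simp only [wt_cons, hd]
        push_cast
        omega
    have h2 : u [] ≠ 0 := by
      intro h
      rw [h, Finsupp.single_zero] at h1
      apply hu2
      rw [h1]
      exact Submodule.zero_mem _
    intro h
    apply hv2
    rw [h1, pst, Rep.ev_single] at h
    intro t ht
    have h3 := h t (by simpa using ht)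
    change v t * u [] = 0 at h3
    exact (mul_eq_zero.1 h3).resolve_right h2
  | succ m ih =>
    intro u hu1 hu2 h
    have h3 : ∃ t, ((m + 1 : ℕ) : ℤ) ≤ (wt d t : ℤ) ∧ u t ≠ 0 := by
      by_contra h'
      push Not at h'
      exact hu2 h'
    obtain ⟨t, ht, hut⟩ := h3
    cases t with
    | nil =>
      simp only [wt_nil] at ht
      omega
    | cons p t =>
      obtain ⟨b, x⟩ := p
      have h4 : ∃ b', B.repr (u ((b, x) :: t)) b' ≠ 0 := by
        by_contra h'
        push Not at h'
        apply hut
        apply B.repr.injective
        ext b'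
        rw [h' b']
        simp
      obtain ⟨b', hb'⟩ := h4
      refine ih (dl B x (B.coord b') u) ?_ ?_ ?_
      · have := dl_low B x (B.coord b') hu1
        rw [hd] at this
        refine low_mono ?_ this
        push_cast
        omega
      · intro h5
        have h6 := repr_dl B x (B.coord b') u t b
        rw [h5 t (by simp only [wt_cons, hd] at ht; push_cast at ht; omega)] at h6
        simp only [map_zero, Finsupp.coe_zero, Pi.zero_apply, Module.Basis.coord_apply] at h6
        exact hb' h6.symm
      · have h7 := dl_pst B v u x (B.coord b')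
        have h8 := dl_low B x (B.coord b') h
        rw [h7, hd] at h8
        have h9 := dl_low B x (B.coord b') (rho_low (u []) hv1)
        rw [hd] at h9
        have h10 := Submodule.sub_mem _ (low_mono (n := n + m) (by push_cast; omega) h8)
          (low_mono (n := n + m) (by push_cast; omega) h9)
        rwa [add_sub_cancel_right] at h10

end Free

section Phi

variable {k R β : Type} [Field k] [Ring R] [Algebra k R] (B : Module.Basis β k R) (o : β)

/-- the leading forms of the letters -/
def phi : Lt R → Module.End k (V β (Xt R) R)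
  | .w M i => ∑ j, plain B (.f M j) * rho k (M.A i j)
  | .P M j => ∑ i, rho k (M.A i j) * plain B (.e M i)
  | .r M => plain B (.r M)
  | .s M j => plain B (.r M) * plain B (.f M j)
  | .z M i => plain B (.e M i) * plain B (.r M)
  | .Y M j i => plain B (.e M i) * (plain B (.r M) * plain B (.f M j))

/-- the leading form map -/
def Phi : V β (Lt R) R →ₗ[k] V β (Xt R) R := (wordRep (phi B)).ev B (single [] 1)

theorem Phi_rho (c : R) (v : V β (Lt R) R) : Phi B (rho k c v) = rho k c (Phi B v) :=
  (wordRep (phi B)).ev_rho B _ c v

theorem Phi_plain (x : Lt R) (v : V β (Lt R) R) : Phi B (plain B x v) = phi B x (Phi B v) :=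
  (wordRep (phi B)).ev_plain B _ x v

theorem Phi_nil (c : R) : Phi B (single [] c) = single [] c := by
  rw [Phi, Rep.ev_single]
  change rho k c (single [] 1) = _
  rw [rho_single, one_mul]

theorem Phi_cons (b : β) (x : Lt R) (t : List (β × Lt R)) (c : R) :
    Phi B (single ((b, x) :: t) c) = rho k c (phi B x (Phi B (single t (B b)))) :=
  (wordRep (phi B)).ev_cons B _ b x t c

/-- the error terms -/
def err : Lt R → V β (Lt R) R → V β (Xt R) R
  | .z M m, v => Phi B (D B o (.w M m) v)
  | .P M j, v => Phi B (D B o (.s M j) v)
  | _, _ => 0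

theorem Phi_act (x : Lt R) (v : V β (Lt R) R) :
    Phi B (act' B o x v) = phi B x (Phi B v) + err B o x v := by
  cases x with
  | w M i =>
    change Phi B (plain B _ v) = _ + 0
    rw [Phi_plain, add_zero]
  | s M i =>
    change Phi B (plain B _ v) = _ + 0
    rw [Phi_plain, add_zero]
  | Y M j i =>
    change Phi B (plain B _ v) = _ + 0
    rw [Phi_plain, add_zero]
  | r M =>
    simp only [act', actE, LinearMap.add_apply, LinearMap.sum_apply, LinearMap.sub_apply,
      Module.End.mul_apply, map_add, map_sum, map_sub, Phi_plain, Phi_rho, phi, err,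
      sub_self, Finset.sum_const_zero]
  | z M m =>
    simp only [act', actE, LinearMap.add_apply, LinearMap.sum_apply, LinearMap.sub_apply,
      Module.End.mul_apply, map_add, map_sum, map_sub, Phi_plain, Phi_rho, phi, err,
      add_sub_cancel_right]
    rw [Finset.sum_eq_single m]
    · simp
    · intro i _ hi
      simp [hi]
    · simp
  | P M j =>
    simp only [act', actE, LinearMap.add_apply, LinearMap.sum_apply, LinearMap.sub_apply,
      Module.End.mul_apply, map_add, map_sum, map_sub, Phi_plain, Phi_rho, phi, err,
      add_sub_cancel_right, sub_self, add_zero]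
    rw [Finset.sum_eq_single j]
    · simp
    · intro i _ hi
      simp [hi]
    · simp

theorem phi_low {n : ℤ} (x : Lt R) {v : V β (Xt R) R} (hv : v ∈ (low (k := k) dx n)) :
    phi B x v ∈ (low (k := k) dx (n + dg x)) := by
  have hp : ∀ {m : ℤ} (y : Xt R) {u : V β (Xt R) R}, u ∈ (low (k := k) dx m) →
      plain B y u ∈ (low (k := k) dx (m + 1)) := by
    intro m y u hu
    have := plain_low B y hu
    simpa [dx] using this
  cases x with
  | w M i =>
    simp only [phi, LinearMap.sum_apply, Module.End.mul_apply]
    exact Submodule.sum_mem _ fun j _ => hp _ (rho_low _ hv)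
  | P M i =>
    simp only [phi, LinearMap.sum_apply, Module.End.mul_apply]
    exact Submodule.sum_mem _ fun j _ => rho_low _ (hp _ hv)
  | r M => exact hp _ hv
  | s M i =>
    have h := hp (.r M) (hp (.f M i) hv)
    exact low_mono (by simp only [dg]; push_cast; omega) h
  | z M i =>
    have h := hp (.e M i) (hp (.r M) hv)
    exact low_mono (by simp only [dg]; push_cast; omega) h
  | Y M j i =>
    have h := hp (.e M i) (hp (.r M) (hp (.f M j) hv))
    exact low_mono (by simp only [dg]; push_cast; omega) h

theorem Phi_single_low (t : List (β × Lt R)) (c : R) :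
    Phi B (single t c) ∈ (low (k := k) dx (wt dg t + 1)) := by
  revert c
  induction t with
  | nil =>
    intro c
    rw [Phi_nil]
    exact single_mem_low (by simp) _
  | cons p t ih =>
    intro c
    obtain ⟨b, x⟩ := p
    rw [Phi_cons]
    refine rho_low _ (low_mono ?_ (phi_low B x (ih _)))
    simp only [wt_cons]
    push_cast
    omega

theorem Phi_low {n : ℤ} {v : V β (Lt R) R} (hv : v ∈ (low (k := k) dg n)) :
    Phi B v ∈ (low (k := k) dx n) := by
  refine low_map B _ _ (fun t ht b => ?_) hv
  exact low_mono (by omega) (Phi_single_low B t _)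

theorem ite_low {L : Type} {d : L → ℕ} {n : ℤ} (p : Prop) [Decidable p] {v : V β L R}
    (hv : v ∈ (low (k := k) d n)) :
    ((if p then 1 else 0 : Module.End k (V β L R)) v) ∈ (low (k := k) d n) := by
  split_ifs
  · exact hv
  · exact Submodule.zero_mem _

theorem act_low {n : ℤ} (x : Lt R) {v : V β (Lt R) R} (hv : v ∈ (low (k := k) dg n)) :
    act' B o x v ∈ (low (k := k) dg (n + dg x)) := by
  have hD : ∀ y, D B o y v ∈ (low (k := k) dg (n - dg y)) := fun y => dl_low B y _ hv
  have hp : ∀ {m : ℤ} (y : Lt R) {u : V β (Lt R) R}, u ∈ (low (k := k) dg m) →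
      plain B y u ∈ (low (k := k) dg (m + dg y)) := fun y u hu => plain_low B y hu
  cases x with
  | w M i => exact hp _ hv
  | s M i => exact hp _ hv
  | Y M j i => exact hp _ hv
  | r M =>
    simp only [act', actE, LinearMap.add_apply, LinearMap.sum_apply, LinearMap.sub_apply,
      Module.End.mul_apply]
    refine Submodule.add_mem _ (hp _ hv) (Submodule.sum_mem _ fun i _ =>
      Submodule.sub_mem _ (Submodule.sum_mem _ fun j _ => ?_) ?_)
    · have h := hp (.s M j) (rho_low (M.A i j) (hD (.w M i)))
      exact low_mono (by simp only [dg]; push_cast; omega) h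
    · have h := hp (.r M) (hp (.w M i) (hD (.w M i)))
      exact low_mono (by simp only [dg]; push_cast; omega) h
  | z M m =>
    simp only [act', actE, LinearMap.add_apply, LinearMap.sum_apply, LinearMap.sub_apply,
      Module.End.mul_apply]
    refine Submodule.add_mem _ (hp _ hv) (Submodule.sum_mem _ fun i _ =>
      Submodule.sub_mem _ (Submodule.add_mem _ ?_ (Submodule.sum_mem _ fun j _ => ?_)) ?_)
    · have h := ite_low (i = m) (hD (.w M i))
      exact low_mono (by simp only [dg]; push_cast; omega) h
    · have h := hp (.Y M j m) (rho_low (M.A i j) (hD (.w M i)))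
      exact low_mono (by simp only [dg]; push_cast; omega) h
    · have h := hp (.z M m) (hp (.w M i) (hD (.w M i)))
      exact low_mono (by simp only [dg]; push_cast; omega) h
  | P M j =>
    simp only [act', actE, LinearMap.add_apply, LinearMap.sum_apply, LinearMap.sub_apply,
      Module.End.mul_apply]
    refine Submodule.add_mem _ (Submodule.add_mem _ (hp _ hv) (Submodule.sub_mem _
      (Submodule.sum_mem _ fun i _ => ?_) ?_)) (Submodule.sum_mem _ fun l _ =>
      Submodule.sub_mem _ (Submodule.add_mem _ ?_ (Submodule.sum_mem _ fun i _ => ?_)) ?_)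
    · have h := rho_low (M.A i j) (hp (.z M i) (hD (.r M)))
      exact low_mono (by simp only [dg]; push_cast; omega) h
    · have h := hp (.P M j) (hp (.r M) (hD (.r M)))
      exact low_mono (by simp only [dg]; push_cast; omega) h
    · have h := ite_low (l = j) (hD (.s M l))
      exact low_mono (by simp only [dg]; push_cast; omega) h
    · have h := rho_low (M.A i j) (hp (.Y M l i) (hD (.s M l)))
      exact low_mono (by simp only [dg]; push_cast; omega) h
    · have h := hp (.P M j) (hp (.s M l) (hD (.s M l)))
      exact low_mono (by simp only [dg]; push_cast; omega) h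

theorem err_low {n : ℤ} (x : Lt R) {v : V β (Lt R) R} (hv : v ∈ (low (k := k) dg n)) :
    err B o x v ∈ (low (k := k) dx (n - 1)) := by
  have hD : ∀ y, D B o y v ∈ (low (k := k) dg (n - dg y)) := fun y => dl_low B y _ hv
  cases x with
  | w M i => exact Submodule.zero_mem _
  | s M i => exact Submodule.zero_mem _
  | Y M j i => exact Submodule.zero_mem _
  | r M => exact Submodule.zero_mem _
  | z M m => exact low_mono (by simp only [dg]; push_cast; omega) (Phi_low B (hD (.w M m)))
  | P M j => exact low_mono (by simp only [dg]; push_cast; omega) (Phi_low B (hD (.s M j)))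

theorem dg_pos (x : Lt R) : 1 ≤ dg x := by
  cases x <;> simp [dg]

theorem evw_approx {n : ℤ} {v : V β (Lt R) R} (hv : v ∈ (low (k := k) dg (n + 1)))
    (t : List (β × Lt R)) :
    (wordRep (act' B o)).evw B v t ∈ (low (k := k) dg (n + 1 + wt dg t)) ∧
    Phi B ((wordRep (act' B o)).evw B v t) - (wordRep (phi B)).evw B (Phi B v) t ∈
      (low (k := k) dx (n + wt dg t)) := by
  induction t with
  | nil =>
    refine ⟨low_mono (by simp) hv, ?_⟩
    change Phi B v - Phi B v ∈ _
    rw [sub_self]
    exact Submodule.zero_mem _
  | cons p t ih =>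
    obtain ⟨b, x⟩ := p
    obtain ⟨ih1, ih2⟩ := ih
    have hx := dg_pos x
    constructor
    · change act' B o x (rho k (B b) ((wordRep (act' B o)).evw B v t)) ∈ _
      refine low_mono ?_ (act_low B o x (rho_low _ ih1))
      simp only [wt_cons]
      push_cast
      omega
    · change Phi B (act' B o x (rho k (B b) ((wordRep (act' B o)).evw B v t))) -
        phi B x (rho k (B b) ((wordRep (phi B)).evw B (Phi B v) t)) ∈ _
      rw [Phi_act, Phi_rho]
      have h1 := phi_low B x (rho_low (B b) ih2)
      have h2 := err_low B o x (rho_low (B b) ih1)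
      rw [map_sub, map_sub] at h1
      have h3 := Submodule.add_mem _ (low_mono (n := n + wt dg ((b, x) :: t)) (by
        simp only [wt_cons]; push_cast; omega) h1) (low_mono (n := n + wt dg ((b, x) :: t)) (by
        simp only [wt_cons]; push_cast; omega) h2)
      convert h3 using 1
      abel

theorem ev_phi_eq (v : V β (Xt R) R) (u : V β (Lt R) R) :
    (wordRep (phi B)).ev B v u = pst B v (Phi B u) := by
  have hp : ∀ (x : Xt R) (y : V β (Xt R) R), pst B v (plain B x y) = plain B x (pst B v y) :=
    fun x y => (wordRep (plain B)).ev_plain B v x y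
  have hr : ∀ (c : R) (y : V β (Xt R) R), pst B v (rho k c y) = rho k c (pst B v y) :=
    fun c y => (wordRep (plain B)).ev_rho B v c y
  have hphi : ∀ (x : Lt R) (y : V β (Xt R) R), pst B v (phi B x y) = phi B x (pst B v y) := by
    intro x y
    cases x <;> simp only [phi, LinearMap.sum_apply, Module.End.mul_apply, map_sum, hp, hr]
  have h : (wordRep (phi B)).ev B v = (pst B v).comp (Phi B) := by
    apply V.hom_ext B
    intro t
    induction t with
    | nil =>
      intro b
      rw [LinearMap.comp_apply, Phi_nil, Rep.ev_single, pst, Rep.ev_single]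
      rfl
    | cons p t ih =>
      intro b'
      obtain ⟨b, x⟩ := p
      rw [LinearMap.comp_apply, Phi_cons, Rep.ev_cons, hr, hphi]
      rw [ih b]
      rfl
  exact LinearMap.congr_fun h u

theorem ev_approx {n m : ℤ} {v u : V β (Lt R) R} (hv : v ∈ (low (k := k) dg (n + 1)))
    (hu : u ∈ (low (k := k) dg (m + 1))) :
    Phi B ((wordRep (act' B o)).ev B v u) - pst B (Phi B v) (Phi B u) ∈
      (low (k := k) dx (n + m)) := by
  rw [← ev_phi_eq]
  have h := low_map B ((Phi B).comp ((wordRep (act' B o)).ev B v) -
    (wordRep (phi B)).ev B (Phi B v)) (low (k := k) dx (n + m)) (fun t ht b => ?_) hu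
  · exact h
  · rw [LinearMap.sub_apply, LinearMap.comp_apply, Rep.ev_single, Rep.ev_single, wordRep_r,
      wordRep_r, Phi_rho, ← map_sub]
    exact low_mono (by omega) (rho_low _ (evw_approx B o hv t).2)

end Phi

end

end Pool.Agent.Helper43.RD
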