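import Pool.Agent.Helper43.RD.Smooth

/-!
# Lifting certificates along square zero extensions
-/

set_option autoImplicit false
set_option linter.unusedSectionVars false

namespace Pool.Agent.Helper43.RD

open Matrix

section LiftCert

variable {C C' : Type} [Ring C] [Ring C'] (π : C →+* C')
variable {a b c d : Type} [Fintype a] [Fintype b] [Fintype c] [Fintype d]

theorem map_zero_mul_zero (hsq : ∀ x y, π x = 0 → π y = 0 → x * y = 0)
    {M : Matrix a b C} {N : Matrix b c C} (hM : M.map π = 0) (hN : N.map π = 0) :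
    M * N = 0 := by
  ext i j
  rw [Matrix.mul_apply]
  refine Finset.sum_eq_zero fun k _ => ?_
  exact hsq _ _ (congrFun (congrFun hM i) k) (congrFun (congrFun hN k) j)

theorem map_mul_zero_left {M : Matrix a b C} {N : Matrix b c C} (hM : M.map π = 0) :
    (M * N).map π = 0 := by
  rw [Matrix.map_mul, hM, Matrix.zero_mul]

theorem map_mul_zero_right {M : Matrix a b C} {N : Matrix b c C} (hN : N.map π = 0) :
    (M * N).map π = 0 := by
  rw [Matrix.map_mul, hN, Matrix.mul_zero]

theorem map_sub' (M N : Matrix a b C) : (M - N).map π = M.map π - N.map π :=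
  Matrix.map_sub _ (map_sub π) _ _

theorem map_add' (M N : Matrix a b C) : (M + N).map π = M.map π + N.map π :=
  Matrix.map_add _ (map_add π) _ _

end LiftCert

section LiftCert2

variable {C C' : Type} [Ring C] [Ring C'] (π : C →+* C')
variable {Q P U : Type} [Fintype Q] [Fintype P] [Fintype U] [DecidableEq Q] [DecidableEq P]

/-- certificates in matrix form -/
structure CertM (A : Matrix Q P C) (r : Matrix U U C) (w : Matrix Q U C) (z : Matrix U Q C)
    (s : Matrix P U C) (p : Matrix U P C) (Y : Matrix P Q C) : Prop where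
  h1 : w * r = A * s
  h2 : r * p = z * A
  h3 : s * p = 1 + Y * A
  h4 : w * z = 1 + A * Y

theorem lift_certM (hsq : ∀ x y, π x = 0 → π y = 0 → x * y = 0)
    (A : Matrix Q P C) (r : Matrix U U C) (w : Matrix Q U C) (z : Matrix U Q C)
    (s : Matrix P U C) (p : Matrix U P C) (Y : Matrix P Q C)
    (h : CertM (A.map π) (r.map π) (w.map π) (z.map π) (s.map π) (p.map π) (Y.map π)) :
    ∃ (r' : Matrix U U C) (w' : Matrix Q U C) (z' : Matrix U Q C) (s' : Matrix P U C)
      (p' : Matrix U P C) (Y' : Matrix P Q C), CertM A r' w' z' s' p' Y' ∧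
      r'.map π = r.map π ∧ w'.map π = w.map π ∧ z'.map π = z.map π ∧ s'.map π = s.map π ∧
      p'.map π = p.map π ∧ Y'.map π = Y.map π := by
  -- step 1
  obtain ⟨z1, Y1, hz1, hY1, h4⟩ : ∃ (z1 : Matrix U Q C) (Y1 : Matrix P Q C),
      z1.map π = z.map π ∧ Y1.map π = Y.map π ∧ w * z1 = 1 + A * Y1 := by
    obtain ⟨ε, h5⟩ : ∃ ε : Matrix Q Q C, w * z = 1 + A * Y + ε := ⟨w * z - 1 - A * Y, by abel⟩
    have hε : ε.map π = 0 := by
      have := congrArg (fun M : Matrix Q Q C => M.map π) h5
      simp only [map_add', Matrix.map_mul, h.h4, Matrix.map_one _ (map_zero π) (map_one π)] at this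
      simpa using this.symm
    have hε2 : ε * ε = 0 := map_zero_mul_zero π hsq hε hε
    refine ⟨z - z * ε, Y - Y * ε, ?_, ?_, ?_⟩
    · rw [map_sub', map_mul_zero_right π hε, sub_zero]
    · rw [map_sub', map_mul_zero_right π hε, sub_zero]
    · rw [Matrix.mul_sub, ← Matrix.mul_assoc w, h5, Matrix.mul_sub, ← Matrix.mul_assoc A,
        Matrix.add_mul, Matrix.add_mul, Matrix.one_mul, hε2]
      abel
  -- step 2
  obtain ⟨r1, s1, hr1, hs1, h1⟩ : ∃ (r1 : Matrix U U C) (s1 : Matrix P U C),
      r1.map π = r.map π ∧ s1.map π = s.map π ∧ w * r1 = A * s1 := by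
    obtain ⟨ε, h5⟩ : ∃ ε : Matrix Q U C, w * r = A * s + ε := ⟨w * r - A * s, by abel⟩
    have hε : ε.map π = 0 := by
      have := congrArg (fun M : Matrix Q U C => M.map π) h5
      simp only [map_add', Matrix.map_mul, h.h1] at this
      simpa using this.symm
    refine ⟨r - z1 * ε, s - Y1 * ε, ?_, ?_, ?_⟩
    · rw [map_sub', map_mul_zero_right π hε, sub_zero]
    · rw [map_sub', map_mul_zero_right π hε, sub_zero]
    · rw [Matrix.mul_sub, ← Matrix.mul_assoc w, h4, Matrix.mul_sub, ← Matrix.mul_assoc A,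
        Matrix.add_mul, Matrix.one_mul, h5]
      abel
  -- step 3
  obtain ⟨ε2, e2⟩ : ∃ ε : Matrix U P C, r1 * p = z1 * A + ε := ⟨r1 * p - z1 * A, by abel⟩
  obtain ⟨ε3, e3⟩ : ∃ ε : Matrix P P C, s1 * p = 1 + Y1 * A + ε :=
    ⟨s1 * p - 1 - Y1 * A, by abel⟩
  have hε2 : ε2.map π = 0 := by
    have := congrArg (fun M : Matrix U P C => M.map π) e2
    simp only [map_add', Matrix.map_mul, hr1, hz1, h.h2] at this
    simpa using this.symm
  have hε3 : ε3.map π = 0 := by
    have := congrArg (fun M : Matrix P P C => M.map π) e3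
    simp only [map_add', Matrix.map_mul, hs1, hY1, h.h3,
      Matrix.map_one _ (map_zero π) (map_one π)] at this
    simpa using this.symm
  have hsyz : w * ε2 = A * ε3 := by
    have k1 : w * (r1 * p) = A * (s1 * p) := by
      rw [← Matrix.mul_assoc, h1, Matrix.mul_assoc]
    have k2 : w * (z1 * A) = A + A * (Y1 * A) := by
      rw [← Matrix.mul_assoc, h4, Matrix.add_mul, Matrix.one_mul, Matrix.mul_assoc]
    rw [e2, e3, Matrix.mul_add, Matrix.mul_add, Matrix.mul_add, k2, Matrix.mul_one] at k1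
    exact add_left_cancel k1
  have hsp : ∀ {X : Type} [Fintype X] (N : Matrix X P C), N.map π = 0 → N * (s1 * p) =
      N + N * (Y1 * A) := by
    intro X _ N hN
    rw [e3, Matrix.mul_add, Matrix.mul_add, Matrix.mul_one, map_zero_mul_zero π hsq hN hε3,
      add_zero]
  refine ⟨r1 - (ε2 - z1 * (w * ε2)) * s1, w, z1 - (ε2 - z1 * (w * ε2)) * Y1,
    s1 + Y1 * (w * ε2) * s1, p - p * ε3, Y1 + Y1 * (w * ε2) * Y1, ⟨?_, ?_, ?_, ?_⟩,
    ?_, rfl, ?_, ?_, ?_, ?_⟩
  · -- w r = A s
    have k1 : w * ((ε2 - z1 * (w * ε2)) * s1) = -(A * (Y1 * (w * ε2) * s1)) := by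
      rw [← Matrix.mul_assoc, Matrix.mul_sub, ← Matrix.mul_assoc w z1, h4, Matrix.add_mul,
        Matrix.one_mul]
      simp only [← Matrix.mul_assoc, Matrix.sub_mul, Matrix.add_mul]
      abel
    rw [Matrix.mul_sub, k1, h1, Matrix.mul_add]
    abel
  · -- r p = z A
    have hN : (ε2 - z1 * (w * ε2)).map π = 0 := by
      rw [map_sub', hε2, map_mul_zero_right π (map_mul_zero_right π hε2), sub_zero]
    have k1 : (ε2 - z1 * (w * ε2)) * s1 * p = (ε2 - z1 * (w * ε2)) +
        (ε2 - z1 * (w * ε2)) * Y1 * A := by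
      rw [Matrix.mul_assoc, hsp _ hN, Matrix.mul_assoc (ε2 - z1 * (w * ε2)) Y1 A]
    have k2 : (ε2 - z1 * (w * ε2)) * ε3 = 0 := map_zero_mul_zero π hsq hN hε3
    have k3 : (ε2 - z1 * (w * ε2)) * s1 * (p * ε3) = 0 := by
      rw [← Matrix.mul_assoc, k1, Matrix.add_mul, k2,
        map_zero_mul_zero π hsq (map_mul_zero_left π (map_mul_zero_left π hN)) hε3, add_zero]
    have k4 : r1 * (p * ε3) = z1 * (w * ε2) := by
      rw [← Matrix.mul_assoc, e2, Matrix.add_mul, map_zero_mul_zero π hsq hε2 hε3, add_zero,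
        Matrix.mul_assoc, hsyz]
    rw [Matrix.sub_mul, Matrix.mul_sub, Matrix.mul_sub, k3, k4, k1, e2,
      Matrix.sub_mul z1 ((ε2 - z1 * (w * ε2)) * Y1) A]
    abel
  · -- s p = 1 + Y A
    have hN : (Y1 * (w * ε2)).map π = 0 := map_mul_zero_right π (map_mul_zero_right π hε2)
    have k1 : Y1 * (w * ε2) * s1 * p = Y1 * (w * ε2) + Y1 * (w * ε2) * Y1 * A := by
      rw [Matrix.mul_assoc (Y1 * (w * ε2)), hsp _ hN, Matrix.mul_assoc (Y1 * (w * ε2)) Y1 A]
    have k3 : Y1 * (w * ε2) * s1 * (p * ε3) = 0 := by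
      rw [← Matrix.mul_assoc (Y1 * (w * ε2) * s1), k1, Matrix.add_mul,
        map_zero_mul_zero π hsq hN hε3,
        map_zero_mul_zero π hsq (map_mul_zero_left π (map_mul_zero_left π hN)) hε3, add_zero]
    have k4 : s1 * (p * ε3) = ε3 + Y1 * (w * ε2) := by
      rw [← Matrix.mul_assoc, e3, Matrix.add_mul, Matrix.add_mul, Matrix.one_mul,
        map_zero_mul_zero π hsq hε3 hε3, add_zero, Matrix.mul_assoc, hsyz]
    rw [Matrix.add_mul, Matrix.mul_sub, Matrix.mul_sub, k3, k4, k1, e3, Matrix.add_mul]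
    abel
  · -- w z = 1 + A Y
    have k1 : w * ((ε2 - z1 * (w * ε2)) * Y1) = -(A * (Y1 * (w * ε2) * Y1)) := by
      rw [← Matrix.mul_assoc, Matrix.mul_sub, ← Matrix.mul_assoc w z1, h4, Matrix.add_mul,
        Matrix.one_mul]
      simp only [← Matrix.mul_assoc, Matrix.sub_mul, Matrix.add_mul]
      abel
    rw [Matrix.mul_sub, k1, h4, Matrix.mul_add]
    abel
  · have hN : (ε2 - z1 * (w * ε2)).map π = 0 := by
      rw [map_sub', hε2, map_mul_zero_right π (map_mul_zero_right π hε2), sub_zero]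
    rw [map_sub', map_mul_zero_left π hN, sub_zero, hr1]
  · have hN : (ε2 - z1 * (w * ε2)).map π = 0 := by
      rw [map_sub', hε2, map_mul_zero_right π (map_mul_zero_right π hε2), sub_zero]
    rw [map_sub', map_mul_zero_left π hN, sub_zero, hz1]
  · rw [map_add', map_mul_zero_left π (map_mul_zero_right π (map_mul_zero_right π hε2)),
      add_zero, hs1]
  · rw [map_sub', map_mul_zero_right π hε3, sub_zero]
  · rw [map_add', map_mul_zero_left π (map_mul_zero_right π (map_mul_zero_right π hε2)),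
      add_zero, hY1]

/-- **Lifting Lemma.** Certificates lift along square zero extensions. -/
theorem lift_cert (hπ : Function.Surjective π) (hsq : ∀ x y, π x = 0 → π y = 0 → x * y = 0)
    (A : Matrix Q P C) (c' : Cert (A.map π)) :
    ∃ c : Cert A, π c.r = c'.r ∧ (∀ i, π (c.w i) = c'.w i) ∧ (∀ i, π (c.z i) = c'.z i) ∧
      (∀ j, π (c.s j) = c'.s j) ∧ (∀ j, π (c.p j) = c'.p j) ∧
      (∀ j i, π (c.Y j i) = c'.Y j i) := by
  obtain ⟨r, hr⟩ := hπ c'.r
  choose w hw using fun i => hπ (c'.w i)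
  choose z hz using fun i => hπ (c'.z i)
  choose s hs using fun j => hπ (c'.s j)
  choose p hp using fun j => hπ (c'.p j)
  choose Y hY using fun j i => hπ (c'.Y j i)
  obtain ⟨r', w', z', s', p', Y', hc, hr', hw', hz', hs', hp', hY'⟩ := lift_certM (U := Unit) π hsq A
    (Matrix.of fun _ _ => r) (Matrix.of fun i _ => w i) (Matrix.of fun _ i => z i)
    (Matrix.of fun j _ => s j) (Matrix.of fun _ j => p j) (Matrix.of fun j i => Y j i) (by
      constructor
      · ext i j
        have := c'.h1 i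
        simpa [Matrix.mul_apply, hw, hr, hs] using this
      · ext i j
        have := c'.h2 j
        simpa [Matrix.mul_apply, hp, hr, hz] using this
      · ext i j
        have := c'.h3 i j
        simpa [Matrix.mul_apply, hp, hs, hY, Matrix.one_apply] using this
      · ext i j
        have := c'.h4 i j
        simpa [Matrix.mul_apply, hw, hz, hY, Matrix.one_apply] using this)
  have kr : π (r' () ()) = π r := congrFun (congrFun hr' ()) ()
  have kw : ∀ i, π (w' i ()) = π (w i) := fun i => congrFun (congrFun hw' i) ()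
  have kz : ∀ i, π (z' () i) = π (z i) := fun i => congrFun (congrFun hz' ()) i
  have ks : ∀ i, π (s' i ()) = π (s i) := fun i => congrFun (congrFun hs' i) ()
  have kp : ∀ i, π (p' () i) = π (p i) := fun i => congrFun (congrFun hp' ()) i
  have kY : ∀ j i, π (Y' j i) = π (Y j i) := fun j i => congrFun (congrFun hY' j) i
  refine ⟨⟨r' () (), fun i => w' i (), fun i => z' () i, fun j => s' j (), fun j => p' () j,
    fun j i => Y' j i, ?_, ?_, ?_, ?_⟩, kr.trans hr, fun i => (kw i).trans (hw i),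
    fun i => (kz i).trans (hz i), fun i => (ks i).trans (hs i), fun i => (kp i).trans (hp i),
    fun j i => (kY j i).trans (hY j i)⟩
  · intro i
    have := congrFun (congrFun hc.h1 i) ()
    simpa [Matrix.mul_apply] using this
  · intro j
    have := congrFun (congrFun hc.h2 ()) j
    simpa [Matrix.mul_apply] using this
  · intro j l
    have := congrFun (congrFun hc.h3 j) l
    simpa [Matrix.mul_apply, Matrix.one_apply] using this
  · intro i m
    have := congrFun (congrFun hc.h4 i) m
    simpa [Matrix.mul_apply, Matrix.one_apply] using this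

end LiftCert2

end Pool.Agent.Helper43.RD
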