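import Pool.Agent.Helper43.RD.Lift

/-!
# The algebra `Λ(R)`: freely adjoining certificates for all regular matrices
-/

set_option autoImplicit false
set_option linter.unusedSectionVars false

namespace Pool.Agent.Helper43.RD

open Matrix

/-- regular matrices -/
structure RM (R : Type) [Ring R] where
  q : ℕ
  p : ℕ
  A : Matrix (Fin q) (Fin p) R
  rreg : RReg A
  lreg : LReg A

/-- The letters that are adjoined. -/
inductive Lt (R : Type) [Ring R] : Type
  | w (M : RM R) (i : Fin M.q)
  | r (M : RM R)
  | P (M : RM R) (j : Fin M.p)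
  | z (M : RM R) (i : Fin M.q)
  | s (M : RM R) (j : Fin M.p)
  | Y (M : RM R) (j : Fin M.p) (i : Fin M.q)

section Pres

variable (k R : Type) [Field k] [Ring R] [Algebra k R]

/-- coefficient letters -/
def cf (a : R) : FreeAlgebra k (R ⊕ Lt R) := FreeAlgebra.ι k (Sum.inl a)

variable {R}

/-- new letters -/
def lf (x : Lt R) : FreeAlgebra k (R ⊕ Lt R) := FreeAlgebra.ι k (Sum.inr x)

variable (R)

/-- the defining relations -/
inductive Rel : FreeAlgebra k (R ⊕ Lt R) → FreeAlgebra k (R ⊕ Lt R) → Prop
  | add (a b : R) : Rel (cf k R (a + b)) (cf k R a + cf k R b)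
  | mul (a b : R) : Rel (cf k R (a * b)) (cf k R a * cf k R b)
  | scalar (c : k) : Rel (cf k R (algebraMap k R c)) (algebraMap k _ c)
  | h1 (M : RM R) (i : Fin M.q) : Rel (lf k (Lt.w M i) * lf k (Lt.r M))
      (∑ j, cf k R (M.A i j) * lf k (Lt.s M j))
  | h2 (M : RM R) (j : Fin M.p) : Rel (lf k (Lt.r M) * lf k (Lt.P M j))
      (∑ i, lf k (Lt.z M i) * cf k R (M.A i j))
  | h3 (M : RM R) (j l : Fin M.p) : Rel (lf k (Lt.s M j) * lf k (Lt.P M l))
      ((if j = l then 1 else 0) + ∑ i, lf k (Lt.Y M j i) * cf k R (M.A i l))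
  | h4 (M : RM R) (i m : Fin M.q) : Rel (lf k (Lt.w M i) * lf k (Lt.z M m))
      ((if i = m then 1 else 0) + ∑ j, cf k R (M.A i j) * lf k (Lt.Y M j m))

/-- The algebra `Λ(R)`. -/
def Lam : Type := RingQuot (Rel k R)

instance : Ring (Lam k R) := inferInstanceAs (Ring (RingQuot (Rel k R)))
instance : Algebra k (Lam k R) := inferInstanceAs (Algebra k (RingQuot (Rel k R)))

/-- the quotient map -/
def Lam.quo : FreeAlgebra k (R ⊕ Lt R) →ₐ[k] Lam k R := RingQuot.mkAlgHom k (Rel k R)

theorem Lam.quo_rel {x y : FreeAlgebra k (R ⊕ Lt R)} (h : Rel k R x y) :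
    Lam.quo k R x = Lam.quo k R y := RingQuot.mkAlgHom_rel k h

theorem Lam.quo_surjective : Function.Surjective (Lam.quo k R) :=
  RingQuot.mkAlgHom_surjective k _

/-- the inclusion of `R` -/
def Lam.incl : R →ₐ[k] Lam k R :=
  AlgHom.mk
    { toFun := fun a => Lam.quo k R (cf k R a)
      map_one' := by
        have := Lam.quo_rel k R (Rel.scalar 1)
        simpa using this
      map_mul' := fun a b => by
        have := Lam.quo_rel k R (Rel.mul a b)
        simpa using this
      map_zero' := by
        have := Lam.quo_rel k R (Rel.scalar 0)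
        simpa using this
      map_add' := fun a b => by
        have := Lam.quo_rel k R (Rel.add a b)
        simpa using this }
    (by
      intro c
      have := Lam.quo_rel k R (Rel.scalar c)
      rw [AlgHom.commutes] at this
      exact this)

variable {R}

/-- the new elements -/
def Lam.letter (x : Lt R) : Lam k R := Lam.quo k R (lf k x)

theorem Lam.quo_cf (a : R) : Lam.quo k R (cf k R a) = Lam.incl k R a := rfl
theorem Lam.quo_lf (x : Lt R) : Lam.quo k R (lf k x) = Lam.letter k x := rfl

/-- the universal certificate -/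
def Lam.cert (M : RM R) : Cert (M.A.map (Lam.incl k R)) where
  r := Lam.letter k (Lt.r M)
  w i := Lam.letter k (Lt.w M i)
  z i := Lam.letter k (Lt.z M i)
  s j := Lam.letter k (Lt.s M j)
  p j := Lam.letter k (Lt.P M j)
  Y j i := Lam.letter k (Lt.Y M j i)
  h1 i := by
    have := Lam.quo_rel k R (Rel.h1 M i)
    simpa [Lam.quo_cf, Lam.quo_lf] using this
  h2 j := by
    have := Lam.quo_rel k R (Rel.h2 M j)
    simpa [Lam.quo_cf, Lam.quo_lf] using this
  h3 j l := by
    have := Lam.quo_rel k R (Rel.h3 M j l)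
    simpa [Lam.quo_cf, Lam.quo_lf, apply_ite] using this
  h4 i m := by
    have := Lam.quo_rel k R (Rel.h4 M i m)
    simpa [Lam.quo_cf, Lam.quo_lf, apply_ite] using this

variable {k}

/-- letters of a family of certificates -/
def certVal {C : Type} [Ring C] {ψ : R → C} (c : ∀ M : RM R, Cert (M.A.map ψ)) : Lt R → C
  | Lt.w M i => (c M).w i
  | Lt.r M => (c M).r
  | Lt.P M j => (c M).p j
  | Lt.z M i => (c M).z i
  | Lt.s M j => (c M).s j
  | Lt.Y M j i => (c M).Y j i

/-- the universal property of `Λ(R)` -/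
theorem Lam.exists_lift {C : Type} [Ring C] [Algebra k C] (ψ : R →ₐ[k] C)
    (c : ∀ M : RM R, Cert (M.A.map ψ)) :
    ∃ f : Lam k R →ₐ[k] C, (∀ a, f (Lam.incl k R a) = ψ a) ∧
      ∀ x, f (Lam.letter k x) = certVal c x := by
  let g : FreeAlgebra k (R ⊕ Lt R) →ₐ[k] C :=
    FreeAlgebra.lift k (Sum.elim (fun a => ψ a) (certVal c))
  have gcf : ∀ a, g (cf k R a) = ψ a := fun a => by simp [g, cf]
  have glf : ∀ x, g (lf k x) = certVal c x := fun x => by simp [g, lf]
  have hg : ∀ ⦃x y⦄, Rel k R x y → g x = g y := by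
    intro x y h
    induction h with
    | add a b => simp only [gcf, map_add]
    | mul a b => simp only [gcf, map_mul]
    | scalar c =>
      rw [gcf, AlgHom.commutes, AlgHom.commutes]
    | h1 M i =>
      simp only [gcf, glf, map_mul, map_sum, certVal]
      exact (c M).h1 i
    | h2 M j =>
      simp only [gcf, glf, map_mul, map_sum, certVal]
      exact (c M).h2 j
    | h3 M j l =>
      simp only [gcf, glf, map_mul, map_sum, map_add, certVal, apply_ite g, map_one, map_zero]
      exact (c M).h3 j l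
    | h4 M i m =>
      simp only [gcf, glf, map_mul, map_sum, map_add, certVal, apply_ite g, map_one, map_zero]
      exact (c M).h4 i m
  refine ⟨RingQuot.liftAlgHom k ⟨g, hg⟩, fun a => ?_, fun x => ?_⟩
  · rw [← gcf a]
    exact RingQuot.liftAlgHom_mkAlgHom_apply k g hg _
  · rw [← glf x]
    exact RingQuot.liftAlgHom_mkAlgHom_apply k g hg _

/-- uniqueness -/
theorem Lam.hom_ext {C : Type} [Ring C] [Algebra k C] {f g : Lam k R →ₐ[k] C}
    (h1 : ∀ a, f (Lam.incl k R a) = g (Lam.incl k R a))
    (h2 : ∀ x, f (Lam.letter k x) = g (Lam.letter k x)) : f = g := by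
  have h3 : f.comp (Lam.quo k R) = g.comp (Lam.quo k R) := by
    apply FreeAlgebra.hom_ext
    funext x
    rcases x with a | x
    · exact h1 a
    · exact h2 x
  apply AlgHom.ext
  intro x
  obtain ⟨y, rfl⟩ := Lam.quo_surjective k R x
  exact DFunLike.congr_fun h3 y

/-- formal smoothness of `Λ(R)` -/
theorem Lam.qf (h : QF k R) : QF k (Lam k R) := by
  intro C C' _ _ _ _ π hπ hsq φ
  obtain ⟨ψ, hψ⟩ := h C C' π hπ hsq (φ.comp (Lam.incl k R))
  have hψ' : ∀ a, π (ψ a) = φ (Lam.incl k R a) := fun a => DFunLike.congr_fun hψ a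
  let c' : ∀ M : RM R, Cert ((M.A.map ψ).map (π : C →+* C')) := fun M =>
    { r := φ (Lam.cert k M).r
      w := fun i => φ ((Lam.cert k M).w i)
      z := fun i => φ ((Lam.cert k M).z i)
      s := fun i => φ ((Lam.cert k M).s i)
      p := fun i => φ ((Lam.cert k M).p i)
      Y := fun j i => φ ((Lam.cert k M).Y j i)
      h1 := fun i => by
        rw [← map_mul, (Lam.cert k M).h1, map_sum]
        refine Finset.sum_congr rfl fun j _ => ?_
        simp [hψ']
      h2 := fun i => by
        rw [← map_mul, (Lam.cert k M).h2, map_sum]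
        refine Finset.sum_congr rfl fun j _ => ?_
        simp [hψ']
      h3 := fun i l => by
        rw [← map_mul, (Lam.cert k M).h3, map_add, map_sum]
        congr 1
        · simp [apply_ite φ]
        · refine Finset.sum_congr rfl fun j _ => ?_
          simp [hψ']
      h4 := fun i l => by
        rw [← map_mul, (Lam.cert k M).h4, map_add, map_sum]
        congr 1
        · simp [apply_ite φ]
        · refine Finset.sum_congr rfl fun j _ => ?_
          simp [hψ'] }
  choose c hc using fun M : RM R => lift_cert (π : C →+* C') hπ (fun x y hx hy => hsq x y hx hy)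
    (M.A.map ψ) (c' M)
  obtain ⟨f, hf1, hf2⟩ := Lam.exists_lift ψ c
  refine ⟨f, Lam.hom_ext (fun a => ?_) (fun x => ?_)⟩
  · change π (f _) = _
    rw [hf1, hψ']
  · change π (f _) = _
    rw [hf2]
    cases x with
    | w M i => exact (hc M).2.1 i
    | r M => exact (hc M).1
    | P M j => exact (hc M).2.2.2.2.1 j
    | z M i => exact (hc M).2.2.1 i
    | s M j => exact (hc M).2.2.2.1 j
    | Y M j i => exact (hc M).2.2.2.2.2 j i

end Pres

end Pool.Agent.Helper43.RD
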