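import Pool.Agent.Helper43.RD.Purity

/-!
# RD-purity implies purity, modules in any universe
-/

set_option autoImplicit false
set_option linter.unusedSectionVars false

namespace Pool.Agent.Helper43.RDU

open Pool.Agent.Helper43.RD hiding act act_mul act_add act_one RDPure rd_pure

open Matrix

universe w

section Act

variable {R : Type} [Ring R] {M : Type w} [AddCommGroup M] [Module R M]
variable {Q P S : Type} [Fintype Q] [Fintype P] [Fintype S]

/-- a matrix acting on a column of module elements -/
def act (A : Matrix Q P R) (x : P → M) (i : Q) : M := ∑ j, A i j • x j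

theorem act_mul (A : Matrix Q P R) (B : Matrix P S R) (x : S → M) :
    act (A * B) x = act A (act B x) := by
  funext i
  simp only [act, Matrix.mul_apply, Finset.sum_smul, Finset.smul_sum, mul_smul]
  exact Finset.sum_comm

theorem act_add (A : Matrix Q P R) (x y : P → M) : act A (x + y) = act A x + act A y := by
  funext i
  simp [act, Finset.sum_add_distrib]

theorem act_one [DecidableEq P] (x : P → M) : act (1 : Matrix P P R) x = x := by
  funext i
  simp [act, Matrix.one_apply]

/-- RD-purity -/
def RDPure (N : Submodule R M) : Prop := ∀ (r : R) (x : M), r • x ∈ N → ∃ y ∈ N, r • y = r • x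

/-- Purity for regular matrices with a certificate. -/
theorem cert_pure [DecidableEq Q] [DecidableEq P] {A : Matrix Q P R} (c : Cert A)
    {N : Submodule R M} (hN : RDPure N) (x : P → M) (hx : ∀ i, act A x i ∈ N) :
    ∃ y : P → M, (∀ j, y j ∈ N) ∧ act A y = act A x := by
  have h1 : c.r • ∑ j, c.p j • x j = ∑ i, c.z i • act A x i := by
    simp only [act, Finset.smul_sum, smul_smul, c.h2, Finset.sum_smul]
    exact Finset.sum_comm
  have h2 : c.r • ∑ j, c.p j • x j ∈ N := by
    rw [h1]
    exact N.sum_mem fun i _ => N.smul_mem _ (hx i)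
  obtain ⟨t, ht, hrt⟩ := hN _ _ h2
  rw [h1] at hrt
  refine ⟨fun j => c.s j • t - ∑ i, c.Y j i • act A x i, fun j => ?_, ?_⟩
  · exact N.sub_mem (N.smul_mem _ ht) (N.sum_mem fun i _ => N.smul_mem _ (hx i))
  · funext i
    have h3 : ∑ j, A i j • c.s j • t = c.w i • ∑ m, c.z m • act A x m := by
      rw [← hrt, smul_smul, c.h1, Finset.sum_smul]
      simp only [smul_smul]
    have h4 : ∑ j, A i j • ∑ m, c.Y j m • act A x m =
        c.w i • (∑ m, c.z m • act A x m) - act A x i := by
      have h5 : c.w i • (∑ m, c.z m • act A x m) =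
          act A x i + ∑ j, A i j • ∑ m, c.Y j m • act A x m := by
        simp only [Finset.smul_sum, smul_smul, c.h4, add_smul, Finset.sum_add_distrib,
          Finset.sum_smul]
        congr 1
        · simp
        · exact Finset.sum_comm
      rw [h5]
      abel
    change ∑ j, A i j • (c.s j • t - ∑ m, c.Y j m • act A x m) = act A x i
    simp only [smul_sub, Finset.sum_sub_distrib]
    rw [h3, h4]
    abel

end Act

section Main

variable {T : Type} [Ring T] [NoZeroDivisors T]

theorem rd_pure (hSL : SL T) (hSR : SR T)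
    (hcert : ∀ {Q P : Type} [Fintype Q] [Fintype P] [DecidableEq Q] [DecidableEq P]
      (M : Matrix Q P T), RReg M → LReg M → Nonempty (Cert M))
    {M : Type w} [AddCommGroup M] [Module T M] {N : Submodule T M} (hN : RDPure N)
    {m n : ℕ} (A : Matrix (Fin m) (Fin n) T) (x : Fin n → M) (hx : ∀ i, act A x i ∈ N) :
    ∃ y : Fin n → M, (∀ j, y j ∈ N) ∧ act A y = act A x := by
  obtain ⟨B, hB1, hB2⟩ := hSL m n A
  obtain ⟨C, hC1, hC2⟩ := hSR m n A
  have hBB := SL_idem hB1 hB2
  have hCC := SR_idem hC1 hC2
  obtain ⟨J, hJ1, hJ2⟩ := exists_maximal_rows (1 - C)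
  obtain ⟨K, hK1, hK2⟩ := exists_maximal_rows B
  let A' : Matrix (Fin m ⊕ (J ⊕ K)) (Fin n ⊕ Fin m) T := fun i j =>
    Sum.elim (fun i => Sum.elim (fun j => A i j) (fun j => (1 - B) i j) j)
      (Sum.elim (fun i => Sum.elim (fun j => (1 - C) i.1 j) (fun _ => 0) j)
        (fun i => Sum.elim (fun _ => 0) (fun j => B i.1 j) j)) i
  have hr : RReg A' := by
    intro v hv
    let a : Fin n → T := fun j => v (Sum.inl j)
    let b : Fin m → T := fun j => v (Sum.inr j)
    have e1 : A *ᵥ a + (1 - B) *ᵥ b = 0 := by
      funext i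
      have := congrFun hv (Sum.inl i)
      simpa [mulVec, dotProduct, Fintype.sum_sum_type, A'] using this
    have e2 : (1 - C) *ᵥ a = 0 := by
      apply hJ2
      intro j hj
      have := congrFun hv (Sum.inr (Sum.inl ⟨j, hj⟩))
      simpa [mulVec, dotProduct, Fintype.sum_sum_type, A'] using this
    have e3 : B *ᵥ b = 0 := by
      apply hK2
      intro j hj
      have := congrFun hv (Sum.inr (Sum.inr ⟨j, hj⟩))
      simpa [mulVec, dotProduct, Fintype.sum_sum_type, A'] using this
    have e4 : (1 - B) *ᵥ b = 0 := by
      have h := congrArg (fun u => (1 - B) *ᵥ u) e1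
      simp only [mulVec_add, mulVec_mulVec, mulVec_zero] at h
      have h5 : (1 - B) * A = 0 := by rw [Matrix.sub_mul, hB1, Matrix.one_mul, sub_self]
      have h6 : (1 - B) * (1 - B) = 1 - B := by
        rw [Matrix.mul_sub, Matrix.mul_one, Matrix.sub_mul, hBB, Matrix.one_mul, sub_self,
          sub_zero]
      rw [h5, h6, zero_mulVec, zero_add] at h
      exact h
    have hb : b = 0 := by
      have : b = B *ᵥ b + (1 - B) *ᵥ b := by
        rw [← add_mulVec, add_sub_cancel, one_mulVec]
      rw [this, e3, e4, add_zero]
    have ha : a = 0 := by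
      rw [e4, add_zero] at e1
      have h7 := hC2 a e1
      have : a = C *ᵥ a + (1 - C) *ᵥ a := by
        rw [← add_mulVec, add_sub_cancel, one_mulVec]
      rw [this, h7, e2, add_zero]
    funext j
    rcases j with j | j
    · exact congrFun ha j
    · exact congrFun hb j
  have hl : LReg A' := by
    intro v hv
    let y : Fin m → T := fun j => v (Sum.inl j)
    let c : Fin n → T := fun j => if h : j ∈ J then v (Sum.inr (Sum.inl ⟨j, h⟩)) else 0
    let d : Fin m → T := fun j => if h : j ∈ K then v (Sum.inr (Sum.inr ⟨j, h⟩)) else 0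
    have e1 : y ᵥ* A + c ᵥ* (1 - C) = 0 := by
      funext j
      have := congrFun hv (Sum.inl j)
      simp only [vecMul, dotProduct, Fintype.sum_sum_type, A', Sum.elim_inl, Sum.elim_inr,
        mul_zero, Finset.sum_const_zero, add_zero, Pi.zero_apply] at this
      simp only [Pi.add_apply, vecMul, dotProduct, Pi.zero_apply]
      rw [← this]
      congr 1
      exact sum_dite_mul J (fun i => v (Sum.inr (Sum.inl i))) (fun i => (1 - C) i j)
    have e2 : y ᵥ* (1 - B) + d ᵥ* B = 0 := by
      funext j
      have := congrFun hv (Sum.inr j)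
      simp only [vecMul, dotProduct, Fintype.sum_sum_type, A', Sum.elim_inl, Sum.elim_inr,
        mul_zero, Finset.sum_const_zero, zero_add, Pi.zero_apply] at this
      simp only [Pi.add_apply, vecMul, dotProduct, Pi.zero_apply]
      rw [← this]
      congr 1
      exact sum_dite_mul K (fun i => v (Sum.inr (Sum.inr i))) (fun i => B i j)
    have e3 : c ᵥ* (1 - C) = 0 := by
      have h := congrArg (fun u => u ᵥ* (1 - C)) e1
      simp only [add_vecMul, vecMul_vecMul, zero_vecMul] at h
      have h5 : A * (1 - C) = 0 := by rw [Matrix.mul_sub, hC1, Matrix.mul_one, sub_self]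
      have h6 : (1 - C) * (1 - C) = 1 - C := by
        rw [Matrix.mul_sub, Matrix.mul_one, Matrix.sub_mul, hCC, Matrix.one_mul, sub_self,
          sub_zero]
      rw [h5, h6, vecMul_zero, zero_add] at h
      exact h
    have hc : c = 0 := hJ1 c (fun j hj => dif_neg hj) e3
    have hyA : y ᵥ* A = 0 := by
      rw [e3, add_zero] at e1
      exact e1
    have hyB : y ᵥ* B = 0 := hB2 y hyA
    have hy1 : y ᵥ* (1 - B) = y := by
      rw [vecMul_sub, vecMul_one, hyB, sub_zero]
    have e4 : d ᵥ* B = 0 := by
      have h := congrArg (fun u => u ᵥ* B) e2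
      simp only [add_vecMul, vecMul_vecMul, zero_vecMul] at h
      rw [hBB, Matrix.sub_mul, Matrix.one_mul, hBB, sub_self, vecMul_zero, zero_add] at h
      exact h
    have hd : d = 0 := hK1 d (fun j hj => dif_neg hj) e4
    have hy : y = 0 := by
      rw [e4, add_zero, hy1] at e2
      exact e2
    funext j
    rcases j with j | j | j
    · exact congrFun hy j
    · have h := congrFun hc j.1
      simp only [c] at h
      rw [dif_pos j.2] at h
      exact h
    · have h := congrFun hd j.1
      simp only [d] at h
      rw [dif_pos j.2] at h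
      exact h
  obtain ⟨cert⟩ := hcert A' hr hl
  -- the solution in `M`
  let x' : Fin n ⊕ Fin m → M := Sum.elim (act C x) 0
  have hx' : act A' x' = Sum.elim (act A x) 0 := by
    funext i
    rcases i with i | i | i
    · have h1 : act A (act C x) = act A x := by rw [← act_mul, hC1]
      have h2 := congrFun h1 i
      simp only [Sum.elim_inl]
      rw [← h2]
      simp [act, A', x', Fintype.sum_sum_type]
    · have h1 : act (1 - C) (act C x) = 0 := by
        rw [← act_mul, Matrix.sub_mul, hCC, Matrix.one_mul, sub_self]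
        funext i
        simp [act]
      have h2 := congrFun h1 i.1
      simp only [Sum.elim_inr, Pi.zero_apply] at h2 ⊢
      rw [← h2]
      simp [act, A', x', Fintype.sum_sum_type]
    · simp [act, A', x', Fintype.sum_sum_type]
  obtain ⟨y, hy1, hy2⟩ := cert_pure cert hN x' (by
    intro i
    rw [hx']
    rcases i with i | i
    · exact hx i
    · exact N.zero_mem)
  rw [hx'] at hy2
  refine ⟨fun j => y (Sum.inl j), fun j => hy1 _, ?_⟩
  let ξ : Fin n → M := fun j => y (Sum.inl j)
  let η : Fin m → M := fun j => y (Sum.inr j)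
  have h1 : act A ξ + act (1 - B) η = act A x := by
    funext i
    have h := congrFun hy2 (Sum.inl i)
    simp only [Sum.elim_inl] at h
    rw [← h]
    simp [act, A', ξ, η, Fintype.sum_sum_type]
  have h2 := congrArg (act B) h1
  rw [act_add, ← act_mul, ← act_mul, ← act_mul, hB1] at h2
  have h3 : B * (1 - B) = 0 := by rw [Matrix.mul_sub, Matrix.mul_one, hBB, sub_self]
  rw [h3] at h2
  have h4 : act (0 : Matrix (Fin m) (Fin m) T) η = 0 := by
    funext i
    simp [act]
  rw [h4, add_zero] at h2
  exact h2

end Main

end Pool.Agent.Helper43.RDU
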