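import Pool.Agent.Helper43.RD.Purity

/-!
# Formally smooth algebras and projections onto kernels
-/

set_option autoImplicit false
set_option linter.unusedSectionVars false

namespace Pool.Agent.Helper43.RD

open Matrix

/-- formally smooth (quasi-free) algebras -/
def QF (k R : Type) [Field k] [Ring R] [Algebra k R] : Prop :=
  ∀ (C C' : Type) [Ring C] [Ring C'] [Algebra k C] [Algebra k C'] (π : C →ₐ[k] C'),
    Function.Surjective π → (∀ a b, π a = 0 → π b = 0 → a * b = 0) →
    ∀ φ : R →ₐ[k] C', ∃ ψ : R →ₐ[k] C, π.comp ψ = φ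

theorem QF.freeAlgebra (k X : Type) [Field k] : QF k (FreeAlgebra k X) := by
  intro C C' _ _ _ _ π hπ _ φ
  choose g hg using fun x : X => hπ (φ (FreeAlgebra.ι k x))
  refine ⟨FreeAlgebra.lift k g, ?_⟩
  ext x
  simp [hg]

theorem QF.op {k R : Type} [Field k] [Ring R] [Algebra k R] (h : QF k R) : QF k Rᵐᵒᵖ := by
  intro C C' _ _ _ _ π hπ hsq φ
  obtain ⟨ψ, hψ⟩ := h Cᵐᵒᵖ C'ᵐᵒᵖ (AlgHom.op π)
    (by
      intro x
      obtain ⟨y, hy⟩ := hπ x.unop
      exact ⟨MulOpposite.op y, by simp [hy]⟩)
    (by
      intro a b ha hb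
      have ha' : π a.unop = 0 := congrArg MulOpposite.unop ha
      have hb' : π b.unop = 0 := congrArg MulOpposite.unop hb
      have := hsq _ _ hb' ha'
      exact MulOpposite.unop_injective this)
    ((AlgHom.opComm).symm φ)
  refine ⟨AlgHom.opComm ψ, ?_⟩
  ext x
  have := congrArg MulOpposite.unop (DFunLike.congr_fun hψ x.unop)
  exact this

section Sq

variable (k R : Type) [Field k] [Ring R] [Algebra k R]
variable (M X : Type) [AddCommGroup M] [AddCommGroup X] [Module R M] [Module R X] [Module k M]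
  [Module k X] [IsScalarTower k R M] [IsScalarTower k R X]

/-- The square zero extension of `R` by the bimodule `Hom_k(M, X)`. -/
def Sq : Type := R × (M →ₗ[k] X)

instance : AddCommGroup (Sq k R M X) := inferInstanceAs (AddCommGroup (R × (M →ₗ[k] X)))

variable {k R M X}

/-- constructor -/
def Sq.mk (a : R) (h : M →ₗ[k] X) : Sq k R M X := (a, h)

@[ext] theorem Sq.ext {u v : Sq k R M X} (h1 : u.1 = v.1) (h2 : ∀ m, u.2 m = v.2 m) : u = v :=
  Prod.ext h1 (LinearMap.ext h2)

instance : Mul (Sq k R M X) :=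
  ⟨fun u v => Sq.mk (u.1 * v.1)
    ((Algebra.lsmul k k X u.1).comp v.2 + u.2.comp (Algebra.lsmul k k M v.1))⟩

instance : One (Sq k R M X) := ⟨Sq.mk 1 0⟩

@[simp] theorem Sq.mul_fst (u v : Sq k R M X) : (u * v).1 = u.1 * v.1 := rfl
@[simp] theorem Sq.mul_snd (u v : Sq k R M X) (m : M) :
    (u * v).2 m = u.1 • v.2 m + u.2 (v.1 • m) := rfl
@[simp] theorem Sq.one_fst : (1 : Sq k R M X).1 = 1 := rfl
@[simp] theorem Sq.one_snd (m : M) : (1 : Sq k R M X).2 m = 0 := rfl
@[simp] theorem Sq.add_fst (u v : Sq k R M X) : (u + v).1 = u.1 + v.1 := rfl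
@[simp] theorem Sq.add_snd (u v : Sq k R M X) (m : M) : (u + v).2 m = u.2 m + v.2 m := rfl
@[simp] theorem Sq.zero_fst : (0 : Sq k R M X).1 = 0 := rfl
@[simp] theorem Sq.zero_snd (m : M) : (0 : Sq k R M X).2 m = 0 := rfl
@[simp] theorem Sq.mk_fst (a : R) (h : M →ₗ[k] X) : (Sq.mk a h).1 = a := rfl
@[simp] theorem Sq.mk_snd (a : R) (h : M →ₗ[k] X) : (Sq.mk a h).2 = h := rfl

instance : Ring (Sq k R M X) :=
  { (inferInstance : AddCommGroup (Sq k R M X)), (inferInstance : Mul (Sq k R M X)),
    (inferInstance : One (Sq k R M X)) with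
    mul_assoc := by
      intro a b c
      ext m
      · simp [mul_assoc]
      · simp [mul_smul, smul_add, add_assoc]
    one_mul := by
      intro a
      ext m <;> simp
    mul_one := by
      intro a
      ext m <;> simp
    left_distrib := by
      intro a b c
      ext m
      · simp [mul_add]
      · simp [smul_add, add_smul]
        abel
    right_distrib := by
      intro a b c
      ext m
      · simp [add_mul]
      · simp [smul_add, add_smul]
        abel
    zero_mul := by
      intro a
      ext m <;> simp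
    mul_zero := by
      intro a
      ext m <;> simp }

/-- the structure map -/
def Sq.algMap : k →+* Sq k R M X where
  toFun c := Sq.mk (algebraMap k R c) 0
  map_one' := by ext m <;> simp
  map_mul' := by intro a b; ext m <;> simp
  map_zero' := by ext m <;> simp
  map_add' := by intro a b; ext m <;> simp

instance : Algebra k (Sq k R M X) :=
  Sq.algMap.toAlgebra' (by
    intro c x
    ext m
    · simp [Sq.algMap, Algebra.commutes]
    · simp [Sq.algMap])

theorem Sq.algebraMap_eq (c : k) : algebraMap k (Sq k R M X) c = Sq.mk (algebraMap k R c) 0 := rfl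

/-- functoriality in `X` -/
def Sq.map {N : Type} [AddCommGroup N] [Module R N] [Module k N] [IsScalarTower k R N]
    (μ : X →ₗ[R] N) : Sq k R M X →ₐ[k] Sq k R M N :=
  AlgHom.mk
    { toFun := fun u => Sq.mk u.1 ((μ.restrictScalars k).comp u.2)
      map_one' := by ext m <;> simp
      map_mul' := by intro a b; ext m <;> simp
      map_zero' := by ext m <;> simp
      map_add' := by intro a b; ext m <;> simp }
    (by
      intro c
      rw [Sq.algebraMap_eq, Sq.algebraMap_eq]
      ext m <;> simp)

@[simp] theorem Sq.map_fst {N : Type} [AddCommGroup N] [Module R N] [Module k N]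
    [IsScalarTower k R N] (μ : X →ₗ[R] N) (u : Sq k R M X) : (Sq.map μ u).1 = u.1 := rfl
@[simp] theorem Sq.map_snd {N : Type} [AddCommGroup N] [Module R N] [Module k N]
    [IsScalarTower k R N] (μ : X →ₗ[R] N) (u : Sq k R M X) (m : M) :
    (Sq.map μ u).2 m = μ (u.2 m) := rfl

end Sq

section Lift

variable {k R : Type} [Field k] [Ring R] [Algebra k R]

theorem exists_desc {F Z : Type} [AddCommGroup F] [AddCommGroup Z] [Module R F] [Module k F]
    [IsScalarTower k R F] [Module k Z] (N : Submodule R F) (h : F →ₗ[k] Z)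
    (hN : ∀ v ∈ N, h v = 0) : ∃ g : (F ⧸ N) →ₗ[k] Z, ∀ v, g (N.mkQ v) = h v := by
  refine ⟨((N.restrictScalars k).liftQ h (by
    intro v hv
    exact hN v hv)).comp (Submodule.Quotient.restrictScalarsEquiv k N).symm.toLinearMap, ?_⟩
  intro v
  rfl

theorem QF.exists_section (h : QF k R) {F X : Type} [AddCommGroup F] [AddCommGroup X]
    [Module R F] [Module R X] [Module k F] [Module k X] [IsScalarTower k R F]
    [IsScalarTower k R X] {ι : Type} [Fintype ι] (e : Module.Basis ι R F) (N : Submodule R F)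
    (μ : X →ₗ[R] N) (hμ : Function.Surjective μ) :
    ∃ σ : N →ₗ[R] X, ∀ v, μ (σ v) = v := by
  classical
  obtain ⟨ρ, hρ⟩ := (μ.restrictScalars k).exists_rightInverse_of_surjective
    (LinearMap.range_eq_top.2 hμ)
  have hρ' : ∀ v : N, μ (ρ v) = v := fun v => LinearMap.congr_fun hρ v
  obtain ⟨P, hP⟩ := (N.restrictScalars k).subtype.exists_leftInverse_of_injective
    (Submodule.ker_subtype _)
  let P' : F →ₗ[k] N := P
  have hP' : ∀ v : N, P' v.1 = v := fun v => LinearMap.congr_fun hP v
  -- the derivation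
  have hD : ∀ a : R, ∃ g : (F ⧸ N) →ₗ[k] N, ∀ v, g (N.mkQ v) = a • P' v - P' (a • v) := by
    intro a
    obtain ⟨g, hg⟩ := exists_desc (k := k) N
      ((Algebra.lsmul k k N a).comp P' - P'.comp (Algebra.lsmul k k F a)) (by
        intro v hv
        have h1 := hP' ⟨v, hv⟩
        have h2 := hP' ⟨a • v, N.smul_mem a hv⟩
        simp only at h1 h2
        simp only [LinearMap.sub_apply, LinearMap.comp_apply, Algebra.lsmul_coe]
        rw [h1, h2, sub_eq_zero]
        rfl)
    exact ⟨g, fun v => by rw [hg]; rfl⟩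
  choose D hD using hD
  have hmk : ∀ x : F ⧸ N, ∃ v : F, N.mkQ v = x := Submodule.mkQ_surjective N
  let φ : R →ₐ[k] Sq k R (F ⧸ N) N :=
    AlgHom.mk
      { toFun := fun a => Sq.mk a (D a)
        map_one' := by
          refine Sq.ext rfl (fun x => ?_)
          obtain ⟨v, rfl⟩ := hmk x
          rw [Sq.mk_snd, Sq.one_snd, hD, one_smul, one_smul, sub_self]
        map_mul' := by
          intro a b
          refine Sq.ext rfl (fun x => ?_)
          obtain ⟨v, rfl⟩ := hmk x
          have : b • N.mkQ v = N.mkQ (b • v) := rfl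
          rw [Sq.mul_snd, Sq.mk_snd, Sq.mk_snd, Sq.mk_snd, Sq.mk_fst, Sq.mk_fst, this, hD, hD, hD,
            smul_sub, mul_smul, mul_smul]
          abel
        map_zero' := by
          refine Sq.ext rfl (fun x => ?_)
          obtain ⟨v, rfl⟩ := hmk x
          rw [Sq.mk_snd, Sq.zero_snd, hD, zero_smul, zero_smul, map_zero, sub_self]
        map_add' := by
          intro a b
          refine Sq.ext rfl (fun x => ?_)
          obtain ⟨v, rfl⟩ := hmk x
          rw [Sq.add_snd, Sq.mk_snd, Sq.mk_snd, Sq.mk_snd, hD, hD, hD, add_smul, add_smul, map_add]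
          abel }
      (by
        intro c
        rw [Sq.algebraMap_eq]
        refine Sq.ext rfl (fun x => ?_)
        obtain ⟨v, rfl⟩ := hmk x
        change D (algebraMap k R c) (N.mkQ v) = 0
        rw [hD]
        rw [algebraMap_smul, algebraMap_smul, map_smul, sub_self])
  obtain ⟨ψ, hψ⟩ := h (Sq k R (F ⧸ N) X) (Sq k R (F ⧸ N) N) (Sq.map μ)
    (by
      intro u
      refine ⟨Sq.mk u.1 (ρ.comp u.2), ?_⟩
      refine Sq.ext rfl (fun x => ?_)
      exact hρ' _)
    (by
      intro u v hu hv
      have h1 : u.1 = 0 := congrArg (fun w : Sq k R (F ⧸ N) N => w.1) hu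
      have h2 : v.1 = 0 := congrArg (fun w : Sq k R (F ⧸ N) N => w.1) hv
      refine Sq.ext ?_ (fun x => ?_)
      · simp [h1]
      · simp [h1, h2])
    φ
  have hψ1 : ∀ a, (ψ a).1 = a := fun a =>
    congrArg (fun w : Sq k R (F ⧸ N) N => w.1) (DFunLike.congr_fun hψ a)
  have hψ2 : ∀ a x, μ ((ψ a).2 x) = D a x := fun a x =>
    congrArg (fun w : Sq k R (F ⧸ N) N => w.2 x) (DFunLike.congr_fun hψ a)
  have hmulψ : ∀ a b x, (ψ (a * b)).2 x = a • (ψ b).2 x + (ψ a).2 (b • x) := by
    intro a b x
    rw [map_mul, Sq.mul_snd, hψ1, hψ1]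
  have haddψ : ∀ a b x, (ψ (a + b)).2 x = (ψ a).2 x + (ψ b).2 x := by
    intro a b x
    rw [map_add, Sq.add_snd]
  have he : ∀ v : F, v = ∑ i, e.repr v i • e i := fun v => (e.sum_repr v).symm
  let T : F → X := fun v => -∑ i, (ψ (e.repr v i)).2 (N.mkQ (e i))
  have hT : ∀ (a : R) (v : F), T (a • v) = a • T v - (ψ a).2 (N.mkQ v) := by
    intro a v
    have h1 : N.mkQ v = ∑ i, e.repr v i • N.mkQ (e i) := by
      conv_lhs => rw [he v]
      rw [map_sum]
      rfl
    have h2 : (ψ a).2 (N.mkQ v) = ∑ i, (ψ a).2 (e.repr v i • N.mkQ (e i)) := by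
      rw [h1, map_sum]
    have h3 : ∑ i, (ψ (e.repr (a • v) i)).2 (N.mkQ (e i))
        = ∑ i, (a • (ψ (e.repr v i)).2 (N.mkQ (e i)) + (ψ a).2 (e.repr v i • N.mkQ (e i))) := by
      refine Finset.sum_congr rfl fun i _ => ?_
      rw [map_smul, Finsupp.smul_apply, smul_eq_mul, hmulψ]
    change -∑ i, (ψ (e.repr (a • v) i)).2 (N.mkQ (e i)) = _
    rw [h3, Finset.sum_add_distrib, h2, ← Finset.smul_sum, smul_neg]
    abel
  have hTadd : ∀ v w : F, T (v + w) = T v + T w := by
    intro v w
    simp only [T, map_add, Finsupp.add_apply, Sq.add_snd, Finset.sum_add_distrib]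
    abel
  -- the `R`-linear map `θ`
  let θ : F → N := fun v => μ (T v) - P' v
  have hθ : ∀ (a : R) (v : F), θ (a • v) = a • θ v := by
    intro a v
    simp only [θ, hT, map_sub, map_smul, hψ2, hD, smul_sub]
    abel
  have hθadd : ∀ v w : F, θ (v + w) = θ v + θ w := by
    intro v w
    simp only [θ, hTadd, map_add]
    abel
  let θL : F →ₗ[R] N := { toFun := θ, map_add' := hθadd, map_smul' := hθ }
  choose c hc using fun i : ι => hμ (θ (e i))
  let σ : F → X := fun v => T v - ∑ i, e.repr v i • c i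
  have hσadd : ∀ v w : F, σ (v + w) = σ v + σ w := by
    intro v w
    simp only [σ, hTadd, map_add, Finsupp.add_apply, add_smul, Finset.sum_add_distrib]
    abel
  have hσ : ∀ (a : R) (v : F), v ∈ N → σ (a • v) = a • σ v := by
    intro a v hv
    have h0 : N.mkQ v = 0 := by rwa [Submodule.mkQ_apply, Submodule.Quotient.mk_eq_zero]
    simp only [σ, hT, h0, map_zero, sub_zero, map_smul, Finsupp.smul_apply, smul_eq_mul,
      mul_smul, smul_sub, Finset.smul_sum]
  have hμσ : ∀ v : N, μ (σ v.1) = v := by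
    intro v
    have h1 : θ v.1 = ∑ i, e.repr v.1 i • θ (e i) := by
      have h2 : θL v.1 = ∑ i, e.repr v.1 i • θL (e i) := by
        conv_lhs => rw [he v.1]
        rw [map_sum]
        exact Finset.sum_congr rfl fun i _ => map_smul _ _ _
      exact h2
    simp only [σ, map_sub, map_sum, map_smul, hc]
    rw [← h1]
    simp only [θ, hP']
    abel
  exact ⟨{ toFun := fun v => σ v.1
           map_add' := fun v w => hσadd _ _
           map_smul' := fun a v => hσ a v.1 v.2 }, hμσ⟩

theorem QF.SL (h : QF k R) : SL R := by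
  classical
  intro m n A
  let μ' : (Fin m → R) →ₗ[R] (Fin n → R) :=
    { toFun := fun y => y ᵥ* A
      map_add' := fun x y => add_vecMul _ _ _
      map_smul' := fun a x => by
        funext j
        change ∑ i, (a * x i) * A i j = a * ∑ i, x i * A i j
        simp only [Finset.mul_sum, mul_assoc] }
  obtain ⟨σ, hσ⟩ := h.exists_section (Pi.basisFun R (Fin n)) (LinearMap.range μ')
    μ'.rangeRestrict (LinearMap.surjective_rangeRestrict μ')
  let τ : (Fin m → R) →ₗ[R] (Fin m → R) := σ.comp μ'.rangeRestrict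
  have hτ : ∀ y : Fin m → R, τ y ᵥ* A = y ᵥ* A := by
    intro y
    have := hσ (μ'.rangeRestrict y)
    exact congrArg Subtype.val this
  have hτs : ∀ y : Fin m → R, τ y = ∑ i, y i • τ (Pi.single i 1) := by
    intro y
    have h1 : y = ∑ i, y i • (Pi.single i 1 : Fin m → R) := by
      funext j
      simp [Finset.sum_apply, Pi.single_apply]
    conv_lhs => rw [h1]
    rw [map_sum]
    exact Finset.sum_congr rfl fun i _ => map_smul _ _ _
  refine ⟨fun i => τ (Pi.single i 1), ?_, ?_⟩
  · funext i
    have h2 := hτ (Pi.single i 1)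
    rw [single_one_vecMul] at h2
    exact h2
  · intro y hy
    have h1 := hτs y
    have h2 : μ'.rangeRestrict y = 0 := Subtype.ext hy
    have h0 : τ y = 0 := by
      change σ (μ'.rangeRestrict y) = 0
      rw [h2, map_zero]
    rw [h0] at h1
    funext j
    have h3 := congrFun h1 j
    simp only [Pi.zero_apply, Finset.sum_apply, Pi.smul_apply, smul_eq_mul] at h3
    simp only [vecMul, dotProduct, Pi.zero_apply]
    exact h3.symm

theorem SR_of_op (h : SL Rᵐᵒᵖ) : SR R := by
  intro m n A
  obtain ⟨B, h1, h2⟩ := h n m (fun j i => MulOpposite.op (A i j))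
  refine ⟨fun i j => (B j i).unop, ?_, ?_⟩
  · ext i j
    have h5 : ∑ l, B j l * MulOpposite.op (A i l) = MulOpposite.op (A i j) :=
      congrFun (congrFun h1 j) i
    have h6 := congrArg MulOpposite.unop h5
    change ∑ l, A i l * (B j l).unop = A i j
    simpa using h6
  · intro x hx
    have h3 := h2 (fun i => MulOpposite.op (x i)) (by
      funext i
      apply MulOpposite.unop_injective
      have := congrFun hx i
      simpa [vecMul, mulVec, dotProduct] using this)
    funext i
    have := congrArg MulOpposite.unop (congrFun h3 i)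
    simpa [vecMul, mulVec, dotProduct] using this

end Lift

end Pool.Agent.Helper43.RD
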