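import Pool.Agent.Helper43.RD.Domain

/-!
# The leading form map is injective on reduced words, and `Λ(R)` is a domain
-/

set_option autoImplicit false
set_option linter.unusedSectionVars false
set_option linter.unusedSimpArgs false

namespace Pool.Agent.Helper43.RD

open Finsupp

noncomputable section

open scoped Classical

section Strict

variable {k R β : Type} [Field k] [Ring R] [Algebra k R] (B : Module.Basis β k R) (o : β)

theorem rho_sum_comm {ι : Type} (s : Finset ι) (c : R) (g : ι → V β (Xt R) R) :
    rho k c (∑ i ∈ s, g i) = ∑ i ∈ s, rho k c (g i) := map_sum _ _ _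

theorem Phi_dl_cons (b : β) (x y : Lt R) (t : List (β × Lt R)) (c : R) (χ : R →ₗ[k] k) :
    Phi B (dl B y χ (single ((b, x) :: t) c)) =
      if x = y then χ c • Phi B (single t (B b)) else 0 := by
  rw [dl_cons]
  split_ifs
  · rw [← Finsupp.smul_single, map_smul]
  · rw [map_zero]

theorem dl_rho_rho_plain {L : Type} (x y : L) (χ : R →ₗ[k] k) (c a : R) (v : V β L R) :
    dl B x χ (rho k c (rho k a (plain B y v))) = if y = x then χ (a * c) • v else 0 := by
  rw [rho_rho, dl_rho_plain]

theorem dlf (M : RM R) (j : Fin M.p) (χ : R →ₗ[k] k) (v : V β (Lt R) R) :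
    dl B (.f M j) χ (Phi B v) = ∑ i, rho k (M.A i j) (Phi B (dl B (.w M i) χ v)) := by
  induction v using Finsupp.induction_linear with
  | zero => simp
  | add a b ha hb => simp only [map_add, ha, hb, Finset.sum_add_distrib]
  | single t c =>
    cases t with
    | nil => simp [Phi_nil]
    | cons p t =>
      obtain ⟨b, x⟩ := p
      rw [Phi_cons]
      generalize hu : Phi B (single t (B b)) = u
      cases x with
      | w M' i' =>
        simp only [Phi_dl_cons, hu, phi, LinearMap.sum_apply, Module.End.mul_apply, map_sum,
          dl_rho_plain]
        by_cases hM : M' = M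
        · subst hM
          rw [Finset.sum_eq_single j, Finset.sum_eq_single i']
          · simp
          · intro i _ hi
            have : (Lt.w M' i') ≠ Lt.w M' i := by
              intro h
              simp at h
              exact hi h.symm
            simp [this]
          · simp
          · intro l _ hl
            have : (Xt.f M' l) ≠ Xt.f M' j := by
              intro h
              simp at h
              exact hl h
            simp [this]
          · simp
        · simp [hM]
      | P M' j' =>
        simp [Phi_dl_cons, hu, phi, LinearMap.sum_apply, Module.End.mul_apply, map_sum,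
          dl_rho_plain, dl_rho_rho_plain]
      | r M' =>
        simp [Phi_dl_cons, hu, phi, LinearMap.sum_apply, Module.End.mul_apply, map_sum,
          dl_rho_plain, dl_rho_rho_plain]
      | s M' j' =>
        simp [Phi_dl_cons, hu, phi, LinearMap.sum_apply, Module.End.mul_apply, map_sum,
          dl_rho_plain, dl_rho_rho_plain]
      | z M' i' =>
        simp [Phi_dl_cons, hu, phi, LinearMap.sum_apply, Module.End.mul_apply, map_sum,
          dl_rho_plain, dl_rho_rho_plain]
      | Y M' j' i' =>
        simp [Phi_dl_cons, hu, phi, LinearMap.sum_apply, Module.End.mul_apply, map_sum,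
          dl_rho_plain, dl_rho_rho_plain]

theorem dlr (M : RM R) (χ : R →ₗ[k] k) (v : V β (Lt R) R) :
    dl B (.r M) χ (Phi B v) = Phi B (dl B (.r M) χ v) +
      ∑ j, plain B (.f M j) (Phi B (dl B (.s M j) χ v)) := by
  induction v using Finsupp.induction_linear with
  | zero => simp
  | add a b ha hb =>
    simp only [map_add, ha, hb, Finset.sum_add_distrib]
    abel
  | single t c =>
    cases t with
    | nil => simp [Phi_nil]
    | cons p t =>
      obtain ⟨b, x⟩ := p
      rw [Phi_cons]
      generalize hu : Phi B (single t (B b)) = u
      cases x with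
      | w M' i' =>
        simp [Phi_dl_cons, hu, phi, LinearMap.sum_apply, Module.End.mul_apply, map_sum,
          dl_rho_plain, dl_rho_rho_plain]
      | P M' j' =>
        simp [Phi_dl_cons, hu, phi, LinearMap.sum_apply, Module.End.mul_apply, map_sum,
          dl_rho_plain, dl_rho_rho_plain]
      | r M' =>
        simp [Phi_dl_cons, hu, phi, LinearMap.sum_apply, Module.End.mul_apply, map_sum,
          dl_rho_plain, dl_rho_rho_plain]
      | s M' j' =>
        by_cases hM : M' = M
        · subst hM
          simp only [Phi_dl_cons, hu, phi, LinearMap.sum_apply, Module.End.mul_apply, map_sum,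
            dl_rho_plain, dl_rho_rho_plain]
          rw [Finset.sum_eq_single j']
          · simp
          · intro i _ hi
            have : (Lt.s M' j') ≠ Lt.s M' i := by
              intro h
              simp at h
              exact hi h.symm
            simp [this]
          · simp
        · simp [Phi_dl_cons, hu, phi, LinearMap.sum_apply, Module.End.mul_apply, map_sum,
            dl_rho_plain, dl_rho_rho_plain, hM]
      | z M' i' =>
        simp [Phi_dl_cons, hu, phi, LinearMap.sum_apply, Module.End.mul_apply, map_sum,
          dl_rho_plain, dl_rho_rho_plain]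
      | Y M' j' i' =>
        simp [Phi_dl_cons, hu, phi, LinearMap.sum_apply, Module.End.mul_apply, map_sum,
          dl_rho_plain, dl_rho_rho_plain]

theorem dle (M : RM R) (i : Fin M.q) (χ : R →ₗ[k] k) (v : V β (Lt R) R) :
    dl B (.e M i) χ (Phi B v) =
      (∑ j, Phi B (dl B (.P M j) (χ.comp (LinearMap.mulLeft k (M.A i j))) v)) +
      plain B (.r M) (Phi B (dl B (.z M i) χ v) +
        ∑ j, plain B (.f M j) (Phi B (dl B (.Y M j i) χ v))) := by
  induction v using Finsupp.induction_linear with
  | zero => simp
  | add a b ha hb =>
    simp only [map_add, ha, hb, Finset.sum_add_distrib]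
    abel
  | single t c =>
    cases t with
    | nil => simp [Phi_nil]
    | cons p t =>
      obtain ⟨b, x⟩ := p
      rw [Phi_cons]
      generalize hu : Phi B (single t (B b)) = u
      cases x with
      | w M' i' =>
        simp [Phi_dl_cons, hu, phi, LinearMap.sum_apply, Module.End.mul_apply, map_sum,
          dl_rho_plain, dl_rho_rho_plain]
      | P M' j' =>
        by_cases hM : M' = M
        · subst hM
          simp only [Phi_dl_cons, hu, phi, LinearMap.sum_apply, Module.End.mul_apply, map_sum,
            dl_rho_plain, dl_rho_rho_plain]
          rw [Finset.sum_eq_single i, Finset.sum_eq_single j']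
          · simp
          · intro j _ hj
            have : (Lt.P M' j') ≠ Lt.P M' j := by
              intro h
              simp at h
              exact hj h.symm
            simp [this]
          · simp
          · intro l _ hl
            have : (Xt.e M' l) ≠ Xt.e M' i := by
              intro h
              simp at h
              exact hl h
            simp [this]
          · simp
        · simp [Phi_dl_cons, hu, phi, LinearMap.sum_apply, Module.End.mul_apply, map_sum,
            dl_rho_plain, dl_rho_rho_plain, hM]
      | r M' =>
        simp [Phi_dl_cons, hu, phi, LinearMap.sum_apply, Module.End.mul_apply, map_sum,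
          dl_rho_plain, dl_rho_rho_plain]
      | s M' j' =>
        simp [Phi_dl_cons, hu, phi, LinearMap.sum_apply, Module.End.mul_apply, map_sum,
          dl_rho_plain, dl_rho_rho_plain]
      | z M' i' =>
        by_cases hM : M' = M
        · subst hM
          by_cases hi : i' = i
          · subst hi
            simp [Phi_dl_cons, hu, phi, LinearMap.sum_apply, Module.End.mul_apply, map_sum,
              dl_rho_plain, dl_rho_rho_plain]
          · simp [Phi_dl_cons, hu, phi, LinearMap.sum_apply, Module.End.mul_apply, map_sum,
              dl_rho_plain, dl_rho_rho_plain, hi]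
        · simp [Phi_dl_cons, hu, phi, LinearMap.sum_apply, Module.End.mul_apply, map_sum,
            dl_rho_plain, dl_rho_rho_plain, hM]
      | Y M' j' i' =>
        by_cases hM : M' = M
        · subst hM
          by_cases hi : i' = i
          · subst hi
            simp only [Phi_dl_cons, hu, phi, LinearMap.sum_apply, Module.End.mul_apply, map_sum,
              dl_rho_plain, dl_rho_rho_plain]
            rw [Finset.sum_eq_single j' (s := Finset.univ)
              (f := fun x => plain B (Xt.f M' x) (if Lt.Y M' j' i' = Lt.Y M' x i'
                then χ c • u else 0))]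
            · simp
            · intro j _ hj
              have : (Lt.Y M' j' i') ≠ Lt.Y M' j i' := by
                intro h
                simp at h
                exact hj h.symm
              simp [this]
            · simp
          · simp [Phi_dl_cons, hu, phi, LinearMap.sum_apply, Module.End.mul_apply, map_sum,
              dl_rho_plain, dl_rho_rho_plain, hi]
        · simp [Phi_dl_cons, hu, phi, LinearMap.sum_apply, Module.End.mul_apply, map_sum,
            dl_rho_plain, dl_rho_rho_plain, hM]

theorem D_Phi_f (M : RM R) (j : Fin M.p) {v : V β (Lt R) R}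
    (hv : ∀ i, D B o (.w M i) v = 0) : D B o (.f M j) (Phi B v) = 0 := by
  rw [D, dlf]
  refine Finset.sum_eq_zero fun i _ => ?_
  have := hv i
  rw [D] at this
  rw [this, map_zero, map_zero]

theorem D_Phi_r (M : RM R) {v : V β (Lt R) R}
    (hv : D B o (.r M) v = 0) (hv' : ∀ l, D B o (.s M l) v = 0) :
    D B o (.r M) (Phi B v) = 0 := by
  rw [D, dlr]
  rw [D] at hv
  rw [hv, map_zero, zero_add]
  refine Finset.sum_eq_zero fun i _ => ?_
  have := hv' i
  rw [D] at this
  rw [this, map_zero, map_zero]

theorem strict (hB : B o = 1) (N : ℕ) : ∀ n : ℤ, n < N → ∀ v ∈ goodV k R β o,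
    v ∈ (low (k := k) dg (n + 1)) → Phi B v ∈ (low (k := k) dx n) →
      v ∈ (low (k := k) dg n) := by
  induction N with
  | zero =>
    intro n hn v _ hv1 _
    rw [low_zero (by simp at hn; omega) hv1]
    exact Submodule.zero_mem _
  | succ N ih =>
    intro n hn v hg hv1 hv2
    have IH : ∀ m : ℤ, m < n → ∀ v ∈ goodV k R β o,
        v ∈ (low (k := k) dg (m + 1)) → Phi B v ∈ (low (k := k) dx m) →
        v ∈ (low (k := k) dg m) := fun m hm => ih m (by push_cast at hn; omega)
    have hdl : ∀ (x : Lt R) (χ : R →ₗ[k] k), dl B x χ v ∈ (low (k := k) dg (n + 1 - dg x)) :=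
      fun x χ => dl_low B x χ hv1
    have hpl : ∀ {m : ℤ} (x : Xt R) {u : V β (Xt R) R}, u ∈ (low (k := k) dx (m - 1)) →
        plain B x u ∈ (low (k := k) dx m) := by
      intro m x u hu
      have := plain_low B x hu
      simpa [dx] using this
    have hDx : ∀ {m : ℤ} (x : Xt R) (χ : R →ₗ[k] k) {u : V β (Xt R) R},
        u ∈ (low (k := k) dx m) → dl B x χ u ∈ (low (k := k) dx (m - 1)) := by
      intro m x χ u hu
      have := dl_low B x χ hu
      simpa [dx] using this
    have hDp : ∀ (x y : Xt R) (u : V β (Xt R) R), D B o x (plain B y u) =
        if y = x then u else 0 := fun x y u => D_plain B o hB x y u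
    have hg' : ∀ x (χ : R →ₗ[k] k), dl B x χ v ∈ goodV k R β o := fun x χ => dl_good B o hg x χ
    apply mem_low_of_dl B
    · intro hn0
      have h1 : v = single [] (v []) := by
        ext t
        cases t with
        | nil => simp
        | cons p t =>
          rw [Finsupp.single_eq_of_ne (by simp)]
          apply hv1
          have := dg_pos p.2
          simp only [wt_cons]
          push_cast
          omega
      rw [h1, Phi_nil] at hv2
      have h2 := low_zero hn0 hv2
      exact Finsupp.single_eq_zero.1 h2
    · intro x χ
      -- the part ending in `z`, `Y`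
      have key : ∀ (M : RM R) (i : Fin M.q) (χ : R →ₗ[k] k),
          (∀ j, dl B (.Y M j i) χ v ∈ (low (k := k) dg (n - 3))) ∧
          dl B (.z M i) χ v ∈ (low (k := k) dg (n - 2)) ∧
          (∑ j, dl B (.P M j) (χ.comp (LinearMap.mulLeft k (M.A i j))) v) ∈
            (low (k := k) dg (n - 1)) := by
        intro M i χ
        have e0 := dle B M i χ v
        have e1 := hDx (.e M i) χ hv2
        rw [e0] at e1
        have e2 := hDx (.r M) (B.coord o) e1
        have e3 : ∀ j, D B o (.r M)
            (Phi B (dl B (.P M j) (χ.comp (LinearMap.mulLeft k (M.A i j))) v)) = 0 :=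
          fun j => D_Phi_r B o M (D_dl_good B o hg (Bad.rP M j) _)
            (fun l => D_dl_good B o hg (Bad.sP M l j) _)
        change D B o (Xt.r M) _ ∈ _ at e2
        rw [map_add, map_sum, Finset.sum_eq_zero (fun j _ => e3 j), zero_add, hDp,
          if_pos rfl] at e2
        have e4 : ∀ j, Phi B (dl B (.Y M j i) χ v) ∈ (low (k := k) dx (n - 3)) := by
          intro j
          have e5 := hDx (.f M j) (B.coord o) e2
          change D B o (Xt.f M j) _ ∈ _ at e5
          rw [map_add, D_Phi_f B o M j (fun l => D_dl_good B o hg (Bad.wz M l i) _), zero_add,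
            map_sum, Finset.sum_eq_single j] at e5
          · rw [hDp, if_pos rfl] at e5
            exact low_mono (by omega) e5
          · intro l _ hl
            rw [hDp, if_neg]
            intro h
            simp at h
            exact hl h
          · simp
        have e6 : Phi B (dl B (.z M i) χ v) ∈ (low (k := k) dx (n - 2)) := by
          have e7 : (∑ j, plain B (.f M j) (Phi B (dl B (.Y M j i) χ v))) ∈
              (low (k := k) dx (n - 2)) :=
            Submodule.sum_mem _ fun j _ => hpl _ (low_mono (by omega) (e4 j))
          have e8 := Submodule.sub_mem _ (low_mono (n := n - 2) (by omega) e2) e7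
          rwa [add_sub_cancel_right] at e8
        refine ⟨fun j => ?_, ?_, ?_⟩
        · refine IH (n - 3) (by omega) _ (hg' _ _) ?_ (e4 j)
          exact low_mono (by simp only [dg]; push_cast; omega) (hdl (.Y M j i) χ)
        · refine IH (n - 2) (by omega) _ (hg' _ _) ?_ e6
          exact low_mono (by simp only [dg]; push_cast; omega) (hdl (.z M i) χ)
        · refine IH (n - 1) (by omega) _ (Submodule.sum_mem _ fun j _ => hg' _ _) ?_ ?_
          · refine Submodule.sum_mem _ fun j _ => ?_
            exact low_mono (by simp only [dg]; push_cast; omega) (hdl (.P M j) _)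
          · rw [map_sum]
            have e9 : plain B (.r M) (Phi B (dl B (.z M i) χ v) +
                ∑ j, plain B (.f M j) (Phi B (dl B (.Y M j i) χ v))) ∈
                (low (k := k) dx (n - 1)) := hpl _ (low_mono (by omega) e2)
            have e10 := Submodule.sub_mem _ e1 e9
            rwa [add_sub_cancel_right] at e10
      cases x with
      | w M i =>
        have h1 : ∀ i, Phi B (dl B (.w M i) χ v) ∈ (low (k := k) dx (n - 1)) := by
          intro i t ht
          have h2 : (fun i => Phi B (dl B (.w M i) χ v) t) = 0 := by
            apply M.lreg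
            funext j
            have h3 := hDx (.f M j) χ hv2 t ht
            rw [dlf, Finsupp.finsetSum_apply] at h3
            exact h3
          exact congrFun h2 i
        refine low_mono (by simp only [dg]; push_cast; omega)
          (IH (n - 1) (by omega) _ (hg' _ _) ?_ (h1 i))
        exact low_mono (by simp only [dg]; push_cast; omega) (hdl (.w M i) χ)
      | z M i => exact low_mono (by simp only [dg]; push_cast; omega) (key M i χ).2.1
      | Y M j i => exact low_mono (by simp only [dg]; push_cast; omega) ((key M i χ).1 j)
      | P M j =>
        intro t ht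
        apply B.repr.injective
        ext b
        rw [repr_dl]
        have h1 : (fun j => v ((b, .P M j) :: t)) = 0 := by
          apply M.rreg
          funext i
          apply B.repr.injective
          ext b'
          have h2 := (key M i (B.coord b')).2.2 t (by simpa [dg] using ht)
          rw [Finsupp.finsetSum_apply] at h2
          have h3 := congrArg (fun c => B.repr c b) h2
          simp only [map_sum, Finsupp.finsetSum_apply, repr_dl, LinearMap.comp_apply,
            LinearMap.mulLeft_apply, Module.Basis.coord_apply, map_zero, Finsupp.coe_zero,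
            Pi.zero_apply] at h3
          simp only [Matrix.mulVec, dotProduct, map_sum, Finsupp.finsetSum_apply, Pi.zero_apply,
            map_zero, Finsupp.coe_zero]
          exact h3
        have h4 := congrFun h1 j
        simp only [Pi.zero_apply] at h4
        rw [h4]
        simp
      | s M j =>
        have e1 := hDx (.r M) χ hv2
        rw [dlr] at e1
        have e2 := hDx (.f M j) (B.coord o) e1
        change D B o (Xt.f M j) _ ∈ _ at e2
        rw [map_add, D_Phi_f B o M j (fun l => D_dl_good B o hg (Bad.wr M l) _), zero_add,
          map_sum, Finset.sum_eq_single j] at e2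
        · rw [hDp, if_pos rfl] at e2
          refine low_mono (by simp only [dg]; push_cast; omega)
            (IH (n - 2) (by omega) _ (hg' _ _) ?_ (low_mono (by omega) e2))
          exact low_mono (by simp only [dg]; push_cast; omega) (hdl (.s M j) χ)
        · intro l _ hl
          rw [hDp, if_neg]
          intro h
          simp at h
          exact hl h
        · simp
      | r M =>
        have e1 := hDx (.r M) χ hv2
        rw [dlr] at e1
        have e3 : ∀ j, Phi B (dl B (.s M j) χ v) ∈ (low (k := k) dx (n - 2)) := by
          intro j
          have e2 := hDx (.f M j) (B.coord o) e1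
          change D B o (Xt.f M j) _ ∈ _ at e2
          rw [map_add, D_Phi_f B o M j (fun l => D_dl_good B o hg (Bad.wr M l) _), zero_add,
            map_sum, Finset.sum_eq_single j] at e2
          · rw [hDp, if_pos rfl] at e2
            exact low_mono (by omega) e2
          · intro l _ hl
            rw [hDp, if_neg]
            intro h
            simp at h
            exact hl h
          · simp
        have e4 : (∑ j, plain B (.f M j) (Phi B (dl B (.s M j) χ v))) ∈
            (low (k := k) dx (n - 1)) :=
          Submodule.sum_mem _ fun j _ => hpl _ (low_mono (by omega) (e3 j))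
        have e5 := Submodule.sub_mem _ e1 e4
        rw [add_sub_cancel_right] at e5
        refine low_mono (by simp only [dg]; push_cast; omega)
          (IH (n - 1) (by omega) _ (hg' _ _) ?_ e5)
        exact low_mono (by simp only [dg]; push_cast; omega) (hdl (.r M) χ)

/-- `Λ(R)` has no zero divisors -/
theorem Lam.mul_ne_zero' [NoZeroDivisors R] (hB : B o = 1) {x y : Lam k R} (hx : x ≠ 0)
    (hy : y ≠ 0) : x * y ≠ 0 := by
  have hv : toV B o hB x ≠ 0 := by
    intro h
    exact hx (toV_injective B o hB (h.trans (toV_zero B o hB).symm))
  have hu : toV B o hB y ≠ 0 := by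
    intro h
    exact hy (toV_injective B o hB (h.trans (toV_zero B o hB).symm))
  obtain ⟨n, hn1, hn2⟩ := exists_top (k := k) (d := dg) hv
  obtain ⟨m, hm1, hm2⟩ := exists_top (k := k) (d := dg) hu
  have hPn : Phi B (toV B o hB x) ∉ (low (k := k) dx (n : ℤ)) := fun h =>
    hn2 (strict B o hB (n + 1) n (by push_cast; omega) _ (toV_good B o hB x) hn1 h)
  have hPm : Phi B (toV B o hB y) ∉ (low (k := k) dx (m : ℤ)) := fun h =>
    hm2 (strict B o hB (m + 1) m (by push_cast; omega) _ (toV_good B o hB y) hm1 h)
  have h1 := pst_not_low B (d := dx) (fun _ => rfl) (Phi_low B hn1) hPn m _ (Phi_low B hm1) hPm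
  have h2 := ev_approx B o hn1 hm1
  intro h
  apply h1
  rw [← toV_mul, h, toV_zero, map_zero, zero_sub] at h2
  simpa using h2

end Strict

/-- the existence of a basis containing `1` -/
theorem exists_basis_one (k R : Type) [Field k] [Ring R] [Algebra k R] [Nontrivial R] :
    ∃ (β : Type) (B : Module.Basis β k R) (o : β), B o = 1 := by
  have hs : LinearIndepOn k id ({1} : Set R) := by
    rw [linearIndepOn_singleton_iff]
    exact one_ne_zero
  refine ⟨_, Module.Basis.extend hs, ⟨1, hs.subset_extend (Set.subset_univ _) rfl⟩, ?_⟩
  rw [Module.Basis.extend_apply_self]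

instance Lam.isDomain (k R : Type) [Field k] [Ring R] [Algebra k R] [IsDomain R] :
    IsDomain (Lam k R) := by
  obtain ⟨β, B, o, hB⟩ := exists_basis_one k R
  haveI : Nontrivial (Lam k R) := (incl_injective B o hB).nontrivial
  haveI : NoZeroDivisors (Lam k R) := ⟨by
    intro x y h
    by_contra h'
    push Not at h'
    exact Lam.mul_ne_zero' B o hB h'.1 h'.2 h⟩
  exact NoZeroDivisors.to_isDomain _

theorem Lam.incl_injective (k R : Type) [Field k] [Ring R] [Algebra k R] [IsDomain R] :
    Function.Injective (Lam.incl k R) := by
  obtain ⟨β, B, o, hB⟩ := exists_basis_one k R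
  exact Pool.Agent.Helper43.RD.incl_injective B o hB

theorem Lam.covers (k R : Type) [Field k] [Ring R] [Algebra k R] [IsDomain R] :
    Covers (Lam.incl k R : R →+* Lam k R) := by
  obtain ⟨β, B, o, hB⟩ := exists_basis_one k R
  intro q p M h1 h2
  exact ⟨Lam.cert k ⟨q, p, M, h1, h2⟩, letter_r_ne_zero B o hB _⟩

end

end Pool.Agent.Helper43.RD
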