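import Pool.Agent.Helper43.RD.Act

/-!
# Normal forms
-/

set_option autoImplicit false
set_option linter.unusedSectionVars false
set_option linter.unusedSimpArgs false

namespace Pool.Agent.Helper43.RD

open Finsupp

noncomputable section

open scoped Classical

section Theta

variable {k R β : Type} [Field k] [Ring R] [Algebra k R] (B : Module.Basis β k R) (o : β)

/-- right multiplication operators -/
def rmul (A : Type) [Ring A] [Algebra k A] : A →ₐ[k] (Module.End k A)ᵐᵒᵖ :=
  AlgHom.mk
    { toFun := fun a => MulOpposite.op (LinearMap.mulRight k a)
      map_one' := by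
        apply MulOpposite.unop_injective
        apply LinearMap.ext
        intro x
        simp
      map_mul' := fun a b => by
        apply MulOpposite.unop_injective
        apply LinearMap.ext
        intro x
        simp [mul_assoc]
      map_zero' := by
        apply MulOpposite.unop_injective
        apply LinearMap.ext
        intro x
        simp
      map_add' := fun a b => by
        apply MulOpposite.unop_injective
        apply LinearMap.ext
        intro x
        simp [mul_add] }
    (by
      intro c
      apply MulOpposite.unop_injective
      apply LinearMap.ext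
      intro v
      simp [Algebra.algebraMap_eq_smul_one])

/-- the regular representation -/
def regRep (k R : Type) [Field k] [Ring R] [Algebra k R] : Rep k R (Lt R) (Lam k R) where
  ρ := (rmul (Lam k R)).comp (Lam.incl k R)
  φ x := LinearMap.mulRight k (Lam.letter k x)

/-- words as elements of `Λ(R)` -/
def Theta : V β (Lt R) R →ₗ[k] Lam k R := (regRep k R).ev B 1

theorem Theta_rho (c : R) (v : V β (Lt R) R) :
    Theta B (rho k c v) = Theta B v * Lam.incl k R c :=
  (regRep k R).ev_rho B 1 c v

theorem Theta_plain (x : Lt R) (v : V β (Lt R) R) :
    Theta B (plain B x v) = Theta B v * Lam.letter k x :=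
  (regRep k R).ev_plain B 1 x v

theorem Theta_act (x : Lt R) (v : V β (Lt R) R) :
    Theta B (act' B o x v) = Theta B v * Lam.letter k x := by
  cases x with
  | w M i => exact Theta_plain B _ v
  | s M i => exact Theta_plain B _ v
  | Y M j i => exact Theta_plain B _ v
  | r M =>
    have h : ∀ i, ∀ u : V β (Lt R) R, (∑ j, Theta B u * Lam.incl k R (M.A i j) *
        Lam.letter k (.s M j)) - Theta B u * Lam.letter k (.w M i) * Lam.letter k (.r M) = 0 := by
      intro i u
      simp only [mul_assoc]
      rw [← Finset.mul_sum, sub_eq_zero]
      congr 1
      exact ((Lam.cert k M).h1 i).symm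
    simp only [act', actE, LinearMap.add_apply, LinearMap.sum_apply, LinearMap.sub_apply,
      Module.End.mul_apply, map_add, map_sum, map_sub, Theta_plain, Theta_rho, h,
      Finset.sum_const_zero, add_zero]
  | z M m =>
    have h : ∀ i, ∀ u : V β (Lt R) R, Theta B (((if i = m then 1 else 0) :
        Module.End k (V β (Lt R) R)) u) + (∑ j, Theta B u * Lam.incl k R (M.A i j) *
        Lam.letter k (.Y M j m)) - Theta B u * Lam.letter k (.w M i) * Lam.letter k (.z M m)
          = 0 := by
      intro i u
      have h1 : Theta B (((if i = m then 1 else 0) : Module.End k (V β (Lt R) R)) u) =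
          Theta B u * (if i = m then 1 else 0) := by
        split_ifs <;> simp
      rw [h1]
      simp only [mul_assoc]
      rw [← Finset.mul_sum, ← mul_add, sub_eq_zero]
      congr 1
      exact ((Lam.cert k M).h4 i m).symm
    simp only [act', actE, LinearMap.add_apply, LinearMap.sum_apply, LinearMap.sub_apply,
      Module.End.mul_apply, map_add, map_sum, map_sub, Theta_plain, Theta_rho, h,
      Finset.sum_const_zero, add_zero]
  | P M j =>
    have h : ∀ l, ∀ u : V β (Lt R) R, Theta B (((if l = j then 1 else 0) :
        Module.End k (V β (Lt R) R)) u) + (∑ i, Theta B u * Lam.letter k (.Y M l i) *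
        Lam.incl k R (M.A i j)) - Theta B u * Lam.letter k (.s M l) * Lam.letter k (.P M j)
          = 0 := by
      intro i u
      have h1 : Theta B (((if i = j then 1 else 0) : Module.End k (V β (Lt R) R)) u) =
          Theta B u * (if i = j then 1 else 0) := by
        split_ifs <;> simp
      rw [h1]
      simp only [mul_assoc]
      rw [← Finset.mul_sum, ← mul_add, sub_eq_zero]
      congr 1
      exact ((Lam.cert k M).h3 i j).symm
    have h' : ∀ u : V β (Lt R) R, (∑ i, Theta B u * Lam.letter k (.z M i) *
        Lam.incl k R (M.A i j)) - Theta B u * Lam.letter k (.r M) * Lam.letter k (.P M j)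
          = 0 := by
      intro u
      simp only [mul_assoc]
      rw [← Finset.mul_sum, sub_eq_zero]
      congr 1
      exact ((Lam.cert k M).h2 j).symm
    simp only [act', actE, LinearMap.add_apply, LinearMap.sum_apply, LinearMap.sub_apply,
      Module.End.mul_apply, map_add, map_sum, map_sub, Theta_plain, Theta_rho, h, h',
      Finset.sum_const_zero, add_zero]

variable (hB : B o = 1)
include hB

/-- the action on words -/
def actHom : Lam k R →ₐ[k] (Module.End k (V β (Lt R) R))ᵐᵒᵖ :=
  (exists_actHom B o hB).choose

theorem actHom_incl (a : R) :
    actHom B o hB (Lam.incl k R a) = MulOpposite.op (rho k a) :=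
  (exists_actHom B o hB).choose_spec.1 a

theorem actHom_letter (x : Lt R) :
    actHom B o hB (Lam.letter k x) = MulOpposite.op (act' B o x) :=
  (exists_actHom B o hB).choose_spec.2 x

theorem Theta_actHom (x : Lam k R) (v : V β (Lt R) R) :
    Theta B ((actHom B o hB x).unop v) = Theta B v * x := by
  obtain ⟨y, rfl⟩ := Lam.quo_surjective k R x
  revert v
  induction y using FreeAlgebra.induction with
  | grade0 c =>
    intro v
    rw [AlgHom.commutes, AlgHom.commutes]
    have : (algebraMap k (Module.End k (V β (Lt R) R))ᵐᵒᵖ c).unop v = c • v := rfl
    rw [this, map_smul, Algebra.smul_def, Algebra.commutes]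
  | grade1 a =>
    intro v
    rcases a with a | x
    · change Theta B ((actHom B o hB (Lam.incl k R a)).unop v) = Theta B v * Lam.incl k R a
      rw [actHom_incl]
      exact Theta_rho B a v
    · change Theta B ((actHom B o hB (Lam.letter k x)).unop v) = Theta B v * Lam.letter k x
      rw [actHom_letter]
      exact Theta_act B o x v
  | mul a b ha hb =>
    intro v
    rw [map_mul, map_mul, MulOpposite.unop_mul, Module.End.mul_apply, hb, ha, mul_assoc]
  | add a b ha hb =>
    intro v
    rw [map_add, map_add, MulOpposite.unop_add, LinearMap.add_apply, map_add, ha, hb, mul_add]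

/-- the normal form of an element of `Λ(R)` -/
def toV (x : Lam k R) : V β (Lt R) R := (actHom B o hB x).unop (single [] 1)

theorem Theta_toV (x : Lam k R) : Theta B (toV B o hB x) = x := by
  rw [toV, Theta_actHom]
  have : Theta B (single [] (1 : R)) = 1 := (regRep k R).ev_nil B 1
  rw [this, one_mul]

theorem toV_injective : Function.Injective (toV B o hB) := by
  intro x y h
  rw [← Theta_toV B o hB x, h, Theta_toV]

theorem toV_zero : toV B o hB 0 = 0 := by
  simp [toV]

theorem toV_incl (a : R) : toV B o hB (Lam.incl k R a) = single [] a := by
  rw [toV, actHom_incl, MulOpposite.unop_op, rho_single, one_mul]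

theorem incl_injective : Function.Injective (Lam.incl k R) := by
  intro a b h
  have h1 := congrArg (toV B o hB) h
  rw [toV_incl, toV_incl] at h1
  exact Finsupp.single_injective _ h1

theorem letter_r_ne_zero (M : RM R) : Lam.letter k (.r M) ≠ (0 : Lam k R) := by
  intro h
  have h1 : toV B o hB (Lam.letter k (.r M)) = single [(o, .r M)] 1 := by
    rw [toV, actHom_letter, MulOpposite.unop_op]
    simp only [act', actE, LinearMap.add_apply, LinearMap.sum_apply, LinearMap.sub_apply,
      Module.End.mul_apply, D_nil, map_zero, sub_zero, Finset.sum_const_zero, add_zero]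
    have := plain_single B (Lt.r M) [] o
    rw [hB] at this
    exact this
  rw [h, toV_zero] at h1
  have h2 := Finsupp.single_eq_zero.1 h1.symm
  rw [← hB] at h2
  have := congrArg B.repr h2
  rw [B.repr_self, map_zero, Finsupp.single_eq_zero] at this
  exact one_ne_zero this

theorem actHom_evw (v : V β (Lt R) R) (t : List (β × Lt R)) :
    (actHom B o hB ((regRep k R).evw B 1 t)).unop v = (wordRep (act' B o)).evw B v t := by
  induction t with
  | nil =>
    change (actHom B o hB 1).unop v = v
    rw [map_one]
    rfl
  | cons p t ih =>
    obtain ⟨b, x⟩ := p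
    change (actHom B o hB (((regRep k R).evw B 1 t * Lam.incl k R (B b)) *
      Lam.letter k x)).unop v = act' B o x (rho k (B b) ((wordRep (act' B o)).evw B v t))
    rw [map_mul, map_mul, actHom_letter, actHom_incl, ← ih]
    rfl

theorem actHom_Theta (u v : V β (Lt R) R) :
    (actHom B o hB (Theta B u)).unop v = (wordRep (act' B o)).ev B v u := by
  induction u using Finsupp.induction_linear with
  | zero => simp
  | add a b ha hb => rw [map_add, map_add, map_add, MulOpposite.unop_add, LinearMap.add_apply,
      ha, hb]
  | single t c =>
    rw [Theta, Rep.ev_single, Rep.ev_single, wordRep_r, ← actHom_evw B o hB]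
    change (actHom B o hB ((regRep k R).evw B 1 t * Lam.incl k R c)).unop v = _
    rw [map_mul, actHom_incl]
    rfl

theorem toV_mul (x y : Lam k R) :
    toV B o hB (x * y) = (wordRep (act' B o)).ev B (toV B o hB x) (toV B o hB y) := by
  rw [← actHom_Theta B o hB, Theta_toV]
  rw [toV, map_mul]
  rfl

end Theta

section Good

variable {k R β : Type} [Field k] [Ring R] [Algebra k R] (B : Module.Basis β k R) (o : β)

/-- the redexes -/
inductive Bad : Lt R → Lt R → Prop
  | wr (M : RM R) (i : Fin M.q) : Bad (.w M i) (.r M)
  | wz (M : RM R) (i m : Fin M.q) : Bad (.w M i) (.z M m)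
  | rP (M : RM R) (j : Fin M.p) : Bad (.r M) (.P M j)
  | sP (M : RM R) (l j : Fin M.p) : Bad (.s M l) (.P M j)

/-- reduced words -/
def good : List (β × Lt R) → Prop
  | [] => True
  | p :: t => (∀ q ∈ t.head?, ¬(p.1 = o ∧ Bad q.2 p.2)) ∧ good t

variable (k R β) in
/-- the span of the reduced words -/
def goodV : Submodule k (V β (Lt R) R) where
  carrier := {v | ∀ t, ¬ good o t → v t = 0}
  add_mem' := by
    intro u v hu hv t ht
    simp [hu t ht, hv t ht]
  zero_mem' := by
    intro t _
    rfl
  smul_mem' := by
    intro c v hv t ht
    simp [hv t ht]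

theorem single_mem_goodV {t : List (β × Lt R)} (ht : good o t) (c : R) :
    single t c ∈ goodV k R β o := by
  intro s hs
  rw [Finsupp.single_eq_of_ne]
  rintro rfl
  exact hs ht

theorem goodV_map {W : Type} [AddCommGroup W] [Module k W]
    (f : V β (Lt R) R →ₗ[k] W) (N : Submodule k W)
    (h : ∀ t, good o t → ∀ b, f (single t (B b)) ∈ N) {v : V β (Lt R) R}
    (hv : v ∈ goodV k R β o) : f v ∈ N := by
  refine V.map_mem B f N (good o) h v ?_
  intro t ht
  by_contra h'
  exact ht (hv t h')

theorem rho_good {v : V β (Lt R) R} (hv : v ∈ goodV k R β o) (c : R) :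
    rho k c v ∈ goodV k R β o := by
  intro t ht
  rw [rho_apply, hv t ht, zero_mul]

theorem good_cons_of {x : Lt R} (hx : ∀ y, ¬ Bad y x) {t : List (β × Lt R)} (ht : good o t)
    (b : β) : good o ((b, x) :: t) :=
  ⟨fun q _ h => hx _ h.2, ht⟩

theorem plain_good {x : Lt R} (hx : ∀ y, ¬ Bad y x) {v : V β (Lt R) R}
    (hv : v ∈ goodV k R β o) : plain B x v ∈ goodV k R β o := by
  refine goodV_map B o _ _ (fun t ht b => ?_) hv
  rw [plain_single]
  exact single_mem_goodV o (good_cons_of o hx ht b) _

theorem dl_good {v : V β (Lt R) R} (hv : v ∈ goodV k R β o) (x : Lt R) (χ : R →ₗ[k] k) :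
    dl B x χ v ∈ goodV k R β o := by
  intro t ht
  apply B.repr.injective
  ext b
  rw [repr_dl, hv]
  · simp
  · intro h
    exact ht h.2

theorem D_dl_good {v : V β (Lt R) R} (hv : v ∈ goodV k R β o) {x y : Lt R} (h : Bad y x)
    (χ : R →ₗ[k] k) : D B o y (dl B x χ v) = 0 := by
  ext t
  apply B.repr.injective
  ext b
  rw [D, repr_dl, B.coord_apply, repr_dl, hv]
  · simp
  · intro h'
    exact h'.1 (b, y) (by simp) ⟨rfl, h⟩

theorem bad_of_not_good {b : β} {x : Lt R} {t : List (β × Lt R)} (ht : good o t)
    (h : ¬ good o ((b, x) :: t)) : b = o ∧ ∃ b' y t', t = (b', y) :: t' ∧ Bad y x := by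
  cases t with
  | nil =>
    exfalso
    apply h
    exact ⟨by simp, ht⟩
  | cons p t =>
    obtain ⟨b', y⟩ := p
    by_contra h'
    apply h
    refine ⟨?_, ht⟩
    intro q hq hb
    simp only [List.head?_cons, Option.mem_def, Option.some.injEq] at hq
    subst hq
    exact h' ⟨hb.1, b', y, t, rfl, hb.2⟩

theorem D_single_of_good {b : β} {x y : Lt R} {t : List (β × Lt R)}
    (h : good o ((b, x) :: t)) (hyx : Bad y x) :
    D B o y (single t (B b) : V β (Lt R) R) = 0 := by
  cases t with
  | nil => exact D_nil _ _ _ _
  | cons p t =>
    obtain ⟨b', y'⟩ := p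
    rw [D_cons]
    split_ifs with h1 h2
    · subst h1
      exact absurd ⟨h2, hyx⟩ (h.1 (b', y') (by simp))
    · rfl
    · rfl

variable (hB : B o = 1)
include hB

theorem plain_plain_single (x y : Lt R) (t : List (β × Lt R)) (b : β) :
    (plain B x (plain B y (single t (B b))) : V β (Lt R) R) =
      single ((o, x) :: (b, y) :: t) 1 := by
  rw [plain_single]
  have := plain_single B x ((b, y) :: t) o
  rw [hB] at this
  exact this

theorem act_good {v : V β (Lt R) R} (hv : v ∈ goodV k R β o) (x : Lt R) :
    act' B o x v ∈ goodV k R β o := by
  refine goodV_map B o _ _ (fun t ht b => ?_) hv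
  cases x with
  | w M i =>
    exact plain_good B o (by intro y hy; cases hy) (single_mem_goodV o ht _)
  | s M i =>
    exact plain_good B o (by intro y hy; cases hy) (single_mem_goodV o ht _)
  | Y M j i =>
    exact plain_good B o (by intro y hy; cases hy) (single_mem_goodV o ht _)
  | r M =>
    by_cases h : good o ((b, Lt.r M) :: t)
    · have h0 : ∀ i, D B o (.w M i) (single t (B b) : V β (Lt R) R) = 0 :=
        fun i => D_single_of_good B o h (Bad.wr M i)
      simp only [act', actE, LinearMap.add_apply, LinearMap.sum_apply, LinearMap.sub_apply,
        Module.End.mul_apply, h0, map_zero, sub_zero, Finset.sum_const_zero, add_zero]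
      rw [plain_single]
      exact single_mem_goodV o h _
    · obtain ⟨rfl, b', y, t', rfl, hy⟩ := bad_of_not_good o ht h
      cases hy with
      | wr _ i0 =>
        simp only [act', actE, LinearMap.add_apply, LinearMap.sum_apply, LinearMap.sub_apply,
          Module.End.mul_apply, D_cons, if_true]
        rw [Finset.sum_eq_single i0]
        · rw [if_pos rfl, plain_plain_single B b hB, plain_single]
          rw [add_sub_cancel]
          refine Submodule.sum_mem _ fun j _ => ?_
          exact plain_good B _ (by intro y hy; cases hy)
            (rho_good _ (single_mem_goodV _ ht.2 _) _)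
        · intro i _ hi
          have : (Lt.w M i0) ≠ Lt.w M i := by
            intro h
            simp at h
            exact hi h.symm
          rw [if_neg this]
          simp
        · simp
  | z M m =>
    by_cases h : good o ((b, Lt.z M m) :: t)
    · have h0 : ∀ i, D B o (.w M i) (single t (B b) : V β (Lt R) R) = 0 :=
        fun i => D_single_of_good B o h (Bad.wz M i m)
      simp only [act', actE, LinearMap.add_apply, LinearMap.sum_apply, LinearMap.sub_apply,
        Module.End.mul_apply, h0, map_zero, sub_zero, Finset.sum_const_zero, add_zero]
      rw [plain_single]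
      exact single_mem_goodV o h _
    · obtain ⟨rfl, b', y, t', rfl, hy⟩ := bad_of_not_good o ht h
      cases hy with
      | wz _ i0 =>
        simp only [act', actE, LinearMap.add_apply, LinearMap.sum_apply, LinearMap.sub_apply,
          Module.End.mul_apply, D_cons, if_true]
        rw [Finset.sum_eq_single i0]
        · rw [if_pos rfl, plain_plain_single B b hB, plain_single]
          rw [add_sub_cancel]
          refine Submodule.add_mem _ ?_ (Submodule.sum_mem _ fun j _ => ?_)
          · split_ifs
            · exact single_mem_goodV _ ht.2 _
            · exact Submodule.zero_mem _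
          · exact plain_good B _ (by intro y hy; cases hy)
              (rho_good _ (single_mem_goodV _ ht.2 _) _)
        · intro i _ hi
          have : (Lt.w M i0) ≠ Lt.w M i := by
            intro h
            simp at h
            exact hi h.symm
          rw [if_neg this]
          simp
        · simp
  | P M j =>
    by_cases h : good o ((b, Lt.P M j) :: t)
    · have h0 : ∀ i, D B o (.s M i) (single t (B b) : V β (Lt R) R) = 0 :=
        fun i => D_single_of_good B o h (Bad.sP M i j)
      have h0' : D B o (.r M) (single t (B b) : V β (Lt R) R) = 0 :=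
        D_single_of_good B o h (Bad.rP M j)
      simp only [act', actE, LinearMap.add_apply, LinearMap.sum_apply, LinearMap.sub_apply,
        Module.End.mul_apply, h0, h0', map_zero, sub_zero, Finset.sum_const_zero, add_zero]
      rw [plain_single]
      exact single_mem_goodV o h _
    · obtain ⟨rfl, b', y, t', rfl, hy⟩ := bad_of_not_good o ht h
      cases hy with
      | rP =>
        simp only [act', actE, LinearMap.add_apply, LinearMap.sum_apply, LinearMap.sub_apply,
          Module.End.mul_apply, D_cons, if_true, reduceCtorEq, if_false, map_zero, sub_zero,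
          Finset.sum_const_zero, add_zero]
        rw [plain_plain_single B b hB, plain_single, add_sub_cancel]
        refine Submodule.sum_mem _ fun i _ => rho_good _ ?_ _
        rw [plain_single]
        apply single_mem_goodV
        refine ⟨?_, ht.2⟩
        intro q hq hb
        refine ht.1 q hq ⟨hb.1, ?_⟩
        have h2 := hb.2
        cases q with
        | mk q1 q2 =>
          cases h2 with
          | wz _ i _ => exact Bad.wr M i
      | sP _ l0 =>
        simp only [act', actE, LinearMap.add_apply, LinearMap.sum_apply, LinearMap.sub_apply,
          Module.End.mul_apply, D_cons, if_true, reduceCtorEq, if_false, map_zero, sub_zero,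
          Finset.sum_const_zero, add_zero]
        rw [Finset.sum_eq_single l0]
        · rw [if_pos rfl, plain_plain_single B b hB, plain_single]
          rw [add_sub_cancel]
          refine Submodule.add_mem _ ?_ (Submodule.sum_mem _ fun j _ => ?_)
          · split_ifs
            · exact single_mem_goodV _ ht.2 _
            · exact Submodule.zero_mem _
          · exact rho_good _ (plain_good B _ (by intro y hy; cases hy)
              (single_mem_goodV _ ht.2 _)) _
        · intro i _ hi
          have : (Lt.s M l0) ≠ Lt.s M i := by
            intro h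
            simp at h
            exact hi h.symm
          rw [if_neg this]
          simp
        · simp

theorem toV_good (x : Lam k R) : toV B o hB x ∈ goodV k R β o := by
  have h : ∀ y : FreeAlgebra k (R ⊕ Lt R), ∀ v ∈ goodV k R β o,
      (actHom B o hB (Lam.quo k R y)).unop v ∈ goodV k R β o := by
    intro y
    induction y using FreeAlgebra.induction with
    | grade0 c =>
      intro v hv
      rw [AlgHom.commutes, AlgHom.commutes]
      exact Submodule.smul_mem _ c hv
    | grade1 a =>
      intro v hv
      rcases a with a | x
      · change (actHom B o hB (Lam.incl k R a)).unop v ∈ _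
        rw [actHom_incl]
        exact rho_good o hv a
      · change (actHom B o hB (Lam.letter k x)).unop v ∈ _
        rw [actHom_letter]
        exact act_good B o hB hv x
    | mul a b ha hb =>
      intro v hv
      rw [map_mul, map_mul, MulOpposite.unop_mul, Module.End.mul_apply]
      exact hb _ (ha _ hv)
    | add a b ha hb =>
      intro v hv
      rw [map_add, map_add, MulOpposite.unop_add, LinearMap.add_apply]
      exact Submodule.add_mem _ (ha _ hv) (hb _ hv)
  obtain ⟨y, rfl⟩ := Lam.quo_surjective k R x
  exact h y _ (single_mem_goodV (t := []) o trivial _)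

end Good

end

end Pool.Agent.Helper43.RD
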