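import Pool.Agent.Helper43.RD.Strict

/-!
# Towers of domains and their union
-/

set_option autoImplicit false
set_option linter.unusedSectionVars false

namespace Pool.Agent.Helper43.RD

open Matrix

/-- mapping a certificate -/
def Cert.map {R S : Type} [Ring R] [Ring S] {Q P : Type} [Fintype Q] [Fintype P] [DecidableEq Q]
    [DecidableEq P] {A : Matrix Q P R} (c : Cert A) (φ : R →+* S) : Cert (A.map φ) where
  r := φ c.r
  w i := φ (c.w i)
  z i := φ (c.z i)
  s i := φ (c.s i)
  p i := φ (c.p i)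
  Y j i := φ (c.Y j i)
  h1 i := by rw [← map_mul, c.h1, map_sum]; simp
  h2 i := by rw [← map_mul, c.h2, map_sum]; simp
  h3 i j := by rw [← map_mul, c.h3, map_add, map_sum]; simp [apply_ite φ]
  h4 i j := by rw [← map_mul, c.h4, map_add, map_sum]; simp [apply_ite φ]

section Tower

variable {G : ℕ → Type} [∀ n, Ring (G n)] [∀ n, IsDomain (G n)] {T : Type} [Ring T]
  (f : ∀ n, G n →+* G (n + 1)) (i : ∀ n, G n →+* T)
  (hi : ∀ n, Function.Injective (i n)) (hif : ∀ n x, i (n + 1) (f n x) = i n x)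
  (hT : ∀ x : T, ∃ n y, i n y = x) (hf : ∀ n, Covers (f n))

include hif in
theorem tower_up {n m : ℕ} (h : n ≤ m) (x : G n) : ∃ y : G m, i m y = i n x := by
  induction m, h using Nat.le_induction with
  | base => exact ⟨x, rfl⟩
  | succ m _ ih =>
    obtain ⟨y, hy⟩ := ih
    exact ⟨f m y, by rw [hif, hy]⟩

include hif hT in
theorem tower_fin {α : Type} [Finite α] (x : α → T) (n0 : ℕ) :
    ∃ n, n0 ≤ n ∧ ∃ y : α → G n, ∀ a, i n (y a) = x a := by
  haveI := Fintype.ofFinite α
  choose n y hy using fun a => hT (x a)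
  let N := max n0 (Finset.univ.sup n)
  have h1 : ∀ a, ∃ z : G N, i N z = x a := by
    intro a
    obtain ⟨z, hz⟩ := tower_up f i hif (n := n a) (m := N)
      (le_max_of_le_right (Finset.le_sup (Finset.mem_univ a))) (y a)
    exact ⟨z, hz.trans (hy a)⟩
  choose z hz using h1
  exact ⟨N, le_max_left _ _, z, hz⟩

include hif hf in
theorem tower_rreg_up {Q P : Type} [Fintype Q] [Fintype P] {n m : ℕ} (h : n ≤ m)
    (M : Matrix Q P (G n)) (hM : RReg M) :
    ∃ M' : Matrix Q P (G m), M'.map (i m) = M.map (i n) ∧ RReg M' := by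
  induction m, h using Nat.le_induction with
  | base => exact ⟨M, rfl, hM⟩
  | succ m _ ih =>
    obtain ⟨y, hy1, hy2⟩ := ih
    refine ⟨y.map (f m), ?_, (hf m).rreg y hy2⟩
    rw [← hy1]
    ext a b
    simp [hif]

include hif hf in
theorem tower_lreg_up {Q P : Type} [Fintype Q] [Fintype P] {n m : ℕ} (h : n ≤ m)
    (M : Matrix Q P (G n)) (hM : LReg M) :
    ∃ M' : Matrix Q P (G m), M'.map (i m) = M.map (i n) ∧ LReg M' := by
  induction m, h using Nat.le_induction with
  | base => exact ⟨M, rfl, hM⟩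
  | succ m _ ih =>
    obtain ⟨y, hy1, hy2⟩ := ih
    refine ⟨y.map (f m), ?_, (hf m).lreg y hy2⟩
    rw [← hy1]
    ext a b
    simp [hif]

include hif hf hi hT in
theorem tower_rreg {Q P : Type} [Fintype Q] [Fintype P] {n : ℕ}
    (M : Matrix Q P (G n)) (hM : RReg M) : RReg (M.map (i n)) := by
  intro x hx
  obtain ⟨m, hm, y, hy⟩ := tower_fin f i hif hT x n
  obtain ⟨M', h1, h2⟩ := tower_rreg_up f i hif hf hm M hM
  rw [← h1] at hx
  have h3 : M' *ᵥ y = 0 := by
    funext a
    apply hi m
    have := congrFun hx a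
    simp only [mulVec, dotProduct, map_apply, Pi.zero_apply] at this ⊢
    rw [map_sum, map_zero, ← this]
    exact Finset.sum_congr rfl fun b _ => by rw [map_mul, hy]
  have h4 := h2 y h3
  funext a
  rw [← hy, h4]
  simp

include hif hf hi hT in
theorem tower_lreg {Q P : Type} [Fintype Q] [Fintype P] {n : ℕ}
    (M : Matrix Q P (G n)) (hM : LReg M) : LReg (M.map (i n)) := by
  intro x hx
  obtain ⟨m, hm, y, hy⟩ := tower_fin f i hif hT x n
  obtain ⟨M', h1, h2⟩ := tower_lreg_up f i hif hf hm M hM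
  rw [← h1] at hx
  have h3 : y ᵥ* M' = 0 := by
    funext a
    apply hi m
    have := congrFun hx a
    simp only [vecMul, dotProduct, map_apply, Pi.zero_apply] at this ⊢
    rw [map_sum, map_zero, ← this]
    exact Finset.sum_congr rfl fun b _ => by rw [map_mul, hy]
  have h4 := h2 y h3
  funext a
  rw [← hy, h4]
  simp

include hif hi hT in
theorem tower_isDomain : IsDomain T := by
  haveI : Nontrivial T := (hi 0).nontrivial
  haveI : NoZeroDivisors T := ⟨by
    intro x y h
    obtain ⟨n, -, z, hz⟩ := tower_fin f i hif hT ![x, y] 0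
    have h0 : i n (z 0) = x := hz 0
    have h1 : i n (z 1) = y := hz 1
    rw [← h0, ← h1, ← map_mul, ← map_zero (i n)] at h
    rcases mul_eq_zero.1 (hi n h) with h2 | h2
    · left
      rw [← h0, h2, map_zero]
    · right
      rw [← h1, h2, map_zero]⟩
  exact NoZeroDivisors.to_isDomain _

include hif hT in
theorem tower_matrix {Q P : Type} [Finite Q] [Finite P] (M : Matrix Q P T) :
    ∃ (n : ℕ) (M' : Matrix Q P (G n)), M'.map (i n) = M := by
  obtain ⟨n, -, y, hy⟩ := tower_fin f i hif hT (fun p : Q × P => M p.1 p.2) 0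
  refine ⟨n, Matrix.of fun a b => y (a, b), ?_⟩
  ext a b
  exact hy (a, b)

theorem rreg_of_map {R S : Type} [Ring R] [Ring S] {φ : R →+* S} (hφ : Function.Injective φ)
    {Q P : Type} [Fintype P] {M : Matrix Q P R} (h : RReg (M.map φ)) : RReg M := by
  intro x hx
  have h1 := h (fun a => φ (x a)) (by
    funext a
    have := congrArg φ (congrFun hx a)
    simpa [mulVec, dotProduct] using this)
  funext a
  apply hφ
  rw [Pi.zero_apply, map_zero]
  exact congrFun h1 a

theorem lreg_of_map {R S : Type} [Ring R] [Ring S] {φ : R →+* S} (hφ : Function.Injective φ)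
    {Q P : Type} [Fintype Q] {M : Matrix Q P R} (h : LReg (M.map φ)) : LReg M := by
  intro x hx
  have h1 := h (fun a => φ (x a)) (by
    funext a
    have := congrArg φ (congrFun hx a)
    simpa [vecMul, dotProduct] using this)
  funext a
  apply hφ
  rw [Pi.zero_apply, map_zero]
  exact congrFun h1 a

include hif hf hi hT in
theorem tower_cert {Q P : Type} [Fintype Q] [Fintype P] [DecidableEq Q] [DecidableEq P]
    (M : Matrix Q P T) (h1 : RReg M) (h2 : LReg M) : Nonempty (Cert M) := by
  obtain ⟨n, M', rfl⟩ := tower_matrix f i hif hT M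
  obtain ⟨c, -⟩ := (hf n).cert M' (rreg_of_map (hi n) h1) (lreg_of_map (hi n) h2)
  have h3 : (M'.map (f n)).map (i (n + 1)) = M'.map (i n) := by
    ext a b
    simp [hif]
  rw [← h3]
  exact ⟨c.map (i (n + 1))⟩

include hif hf hi hT in
theorem tower_SL (hSL : ∀ n, SL (G n)) : SL T := by
  intro m n A
  obtain ⟨N, A', rfl⟩ := tower_matrix f i hif hT A
  obtain ⟨B', hB1, hB2⟩ := hSL N m n A'
  have hBB := SL_idem hB1 hB2
  -- the left regular matrix `[A', 1 - B']`
  let E : Matrix (Fin m) (Fin n ⊕ Fin m) (G N) := Matrix.of fun a b =>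
    Sum.elim (fun j => A' a j) (fun j => (1 - B') a j) b
  have hE : LReg E := by
    intro y hy
    have e1 : y ᵥ* A' = 0 := by
      funext j
      exact congrFun hy (Sum.inl j)
    have e2 : y ᵥ* (1 - B') = 0 := by
      funext j
      exact congrFun hy (Sum.inr j)
    rw [vecMul_sub, vecMul_one, hB2 y e1, sub_zero] at e2
    exact e2
  have hE' := tower_lreg f i hi hif hT hf E hE
  refine ⟨B'.map (i N), ?_, ?_⟩
  · rw [← Matrix.map_mul, hB1]
  · intro y hy
    apply hE'
    have e1 : (y ᵥ* B'.map (i N)) ᵥ* A'.map (i N) = 0 := by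
      rw [vecMul_vecMul, ← Matrix.map_mul, hB1, hy]
    have e2 : (y ᵥ* B'.map (i N)) ᵥ* (1 - B').map (i N) = 0 := by
      rw [vecMul_vecMul, ← Matrix.map_mul, Matrix.mul_sub, hBB, Matrix.mul_one, sub_self]
      simp
    funext j
    rcases j with j | j
    · exact congrFun e1 j
    · exact congrFun e2 j

include hif hf hi hT in
theorem tower_SR (hSR : ∀ n, SR (G n)) : SR T := by
  intro m n A
  obtain ⟨N, A', rfl⟩ := tower_matrix f i hif hT A
  obtain ⟨C', hC1, hC2⟩ := hSR N m n A'
  have hCC := SR_idem hC1 hC2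
  let E : Matrix (Fin m ⊕ Fin n) (Fin n) (G N) := Matrix.of fun a b =>
    Sum.elim (fun j => A' j b) (fun j => (1 - C') j b) a
  have hE : RReg E := by
    intro y hy
    have e1 : A' *ᵥ y = 0 := by
      funext j
      exact congrFun hy (Sum.inl j)
    have e2 : (1 - C') *ᵥ y = 0 := by
      funext j
      exact congrFun hy (Sum.inr j)
    rw [sub_mulVec, one_mulVec, hC2 y e1, sub_zero] at e2
    exact e2
  have hE' := tower_rreg f i hi hif hT hf E hE
  refine ⟨C'.map (i N), ?_, ?_⟩
  · rw [← Matrix.map_mul, hC1]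
  · intro y hy
    apply hE'
    have e1 : A'.map (i N) *ᵥ (C'.map (i N) *ᵥ y) = 0 := by
      rw [mulVec_mulVec, ← Matrix.map_mul, hC1, hy]
    have e2 : (1 - C').map (i N) *ᵥ (C'.map (i N) *ᵥ y) = 0 := by
      rw [mulVec_mulVec, ← Matrix.map_mul, Matrix.sub_mul, hCC, Matrix.one_mul, sub_self]
      simp
    funext j
    rcases j with j | j
    · exact congrFun e1 j
    · exact congrFun e2 j

end Tower

end Pool.Agent.Helper43.RD
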