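import Pool.Agent.Helper43.RD.Present

/-!
# Words with coefficients
-/

set_option autoImplicit false
set_option linter.unusedSectionVars false

namespace Pool.Agent.Helper43.RD

open Finsupp

noncomputable section

open scoped Classical

section Words

/-- words with coefficients -/
abbrev V (β L R : Type) [Ring R] : Type := List (β × L) →₀ R

variable {k R β L : Type} [Field k] [Ring R] [Algebra k R] (B : Module.Basis β k R)

theorem V.hom_ext {W : Type} [AddCommGroup W] [Module k W] {f g : V β L R →ₗ[k] W}
    (h : ∀ t b, f (single t (B b)) = g (single t (B b))) : f = g := by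
  apply Finsupp.lhom_ext'
  intro t
  apply B.ext
  intro b
  exact h t b

theorem V.map_mem {W : Type} [AddCommGroup W] [Module k W] (f : V β L R →ₗ[k] W)
    (N : Submodule k W) (S : List (β × L) → Prop)
    (h : ∀ t, S t → ∀ b, f (single t (B b)) ∈ N) (v : V β L R) (hv : ∀ t, v t ≠ 0 → S t) :
    f v ∈ N := by
  rw [← Finsupp.sum_single v, Finsupp.sum, map_sum]
  refine N.sum_mem fun t ht => ?_
  have h1 : S t := hv t (Finsupp.mem_support_iff.1 ht)
  have h2 : (f.comp (Finsupp.lsingle t)) (v t) ∈ N := by
    rw [← B.linearCombination_repr (v t), Finsupp.linearCombination_apply, Finsupp.sum, map_sum]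
    refine N.sum_mem fun b _ => ?_
    rw [map_smul]
    exact N.smul_mem _ (h t h1 b)
  exact h2

variable (k) in
/-- right multiplication by coefficients -/
def rho (c : R) : Module.End k (V β L R) :=
  Finsupp.mapRange.linearMap (LinearMap.mulRight k c)

@[simp] theorem rho_apply (c : R) (v : V β L R) (t : List (β × L)) :
    rho k c v t = v t * c := rfl

@[simp] theorem rho_single (c : R) (t : List (β × L)) (d : R) :
    rho k c (single t d : V β L R) = single t (d * c) := by
  simp [rho]

theorem rho_one : (rho k (1 : R) : Module.End k (V β L R)) = 1 := by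
  apply LinearMap.ext
  intro v
  ext t
  simp

theorem rho_mul (a b : R) : (rho k (a * b) : Module.End k (V β L R)) = rho k b * rho k a := by
  apply LinearMap.ext
  intro v
  ext t
  simp [mul_assoc]

theorem rho_add (a b : R) : (rho k (a + b) : Module.End k (V β L R)) = rho k a + rho k b := by
  apply LinearMap.ext
  intro v
  ext t
  simp [mul_add]

theorem rho_zero : (rho k (0 : R) : Module.End k (V β L R)) = 0 := by
  apply LinearMap.ext
  intro v
  ext t
  simp

/-- right multiplication by a letter -/
def plain (x : L) : Module.End k (V β L R) :=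
  Finsupp.lsum k fun t => B.constr k fun b => (single ((b, x) :: t) (1 : R) : V β L R)

theorem plain_single (x : L) (t : List (β × L)) (b : β) :
    plain B x (single t (B b)) = single ((b, x) :: t) 1 := by
  simp [plain]

/-- removing the last letter and applying a functional to the last coefficient -/
def dl (x : L) (χ : R →ₗ[k] k) : Module.End k (V β L R) :=
  Finsupp.lsum k fun t => match t with
    | [] => 0
    | (b, y) :: t' => if y = x then
        (Finsupp.lsingle t').comp ((LinearMap.toSpanSingleton k R (B b)).comp χ) else 0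

@[simp] theorem dl_nil (x : L) (χ : R →ₗ[k] k) (c : R) :
    dl B x χ (single [] c) = 0 := by
  simp [dl]

theorem dl_cons (x : L) (χ : R →ₗ[k] k) (b : β) (y : L) (t : List (β × L)) (c : R) :
    dl B x χ (single ((b, y) :: t) c) = if y = x then single t (χ c • B b) else 0 := by
  simp only [dl, Finsupp.lsum_single]
  split_ifs <;> simp

theorem repr_dl (x : L) (χ : R →ₗ[k] k) (v : V β L R) (t : List (β × L)) (b : β) :
    B.repr (dl B x χ v t) b = χ (v ((b, x) :: t)) := by
  induction v using Finsupp.induction_linear with
  | zero => simp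
  | add u v hu hv => simp [hu, hv]
  | single s c =>
    cases s with
    | nil => simp
    | cons p s =>
      obtain ⟨b', y⟩ := p
      rw [dl_cons]
      by_cases hy : y = x
      · subst hy
        rw [if_pos rfl]
        by_cases hs : s = t
        · subst hs
          by_cases hb : b' = b
          · subst hb
            simp
          · have : (b', y) :: s ≠ (b, y) :: s := by
              intro h
              simp at h
              exact hb h
            rw [Finsupp.single_eq_same, Finsupp.single_eq_of_ne' this]
            simp [hb]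
        · have : (b', y) :: s ≠ (b, y) :: t := by
            intro h
            simp at h
            exact hs h.2
          rw [Finsupp.single_eq_of_ne' hs, Finsupp.single_eq_of_ne' this]
          simp
      · have : (b', y) :: s ≠ (b, x) :: t := by
          intro h
          simp at h
          exact hy h.1.2
        rw [if_neg hy, Finsupp.single_eq_of_ne' this]
        simp

theorem dl_plain (x y : L) (χ : R →ₗ[k] k) :
    dl B x χ * plain B y = if y = x then χ 1 • (1 : Module.End k (V β L R)) else 0 := by
  apply V.hom_ext B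
  intro t b
  rw [Module.End.mul_apply, plain_single, dl_cons]
  split_ifs
  · rw [LinearMap.smul_apply, Module.End.one_apply, Finsupp.smul_single]
  · rfl

theorem dl_rho (x : L) (χ : R →ₗ[k] k) (c : R) :
    (dl B x χ * rho k c : Module.End k (V β L R)) = dl B x (χ.comp (LinearMap.mulRight k c)) := by
  apply V.hom_ext B
  intro t b
  rw [Module.End.mul_apply, rho_single]
  cases t with
  | nil => rw [dl_nil, dl_nil]
  | cons p t =>
    obtain ⟨b', y⟩ := p
    rw [dl_cons, dl_cons]
    rfl

theorem dl_rho_plain (x y : L) (χ : R →ₗ[k] k) (c : R) (v : V β L R) :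
    dl B x χ (rho k c (plain B y v)) = if y = x then χ c • v else 0 := by
  have h1 : dl B x χ (rho k c (plain B y v)) =
      ((dl B x χ * rho k c : Module.End k (V β L R)) * plain B y) v := rfl
  rw [h1, dl_rho, dl_plain]
  split_ifs <;> simp

theorem dl_rho_apply (x : L) (χ : R →ₗ[k] k) (c : R) (v : V β L R) :
    dl B x χ (rho k c v) = dl B x (χ.comp (LinearMap.mulRight k c)) v := by
  rw [← dl_rho]
  rfl

theorem dl_plain_apply (x y : L) (χ : R →ₗ[k] k) (v : V β L R) :
    dl B x χ (plain B y v) = if y = x then χ 1 • v else 0 := by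
  have h1 : dl B x χ (plain B y v) = (dl B x χ * plain B y) v := rfl
  rw [h1, dl_plain]
  split_ifs <;> simp

/-- the weight of a word -/
def wt (d : L → ℕ) : List (β × L) → ℕ
  | [] => 0
  | p :: t => wt d t + d p.2

@[simp] theorem wt_nil (d : L → ℕ) : wt d ([] : List (β × L)) = 0 := rfl
@[simp] theorem wt_cons (d : L → ℕ) (p : β × L) (t : List (β × L)) :
    wt d (p :: t) = wt d t + d p.2 := rfl

/-- elements all of whose words have weight `< n` -/
def low (d : L → ℕ) (n : ℤ) : Submodule k (V β L R) where
  carrier := {v | ∀ t, n ≤ (wt d t : ℤ) → v t = 0}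
  add_mem' := by
    intro u v hu hv t ht
    simp [hu t ht, hv t ht]
  zero_mem' := by
    intro t _
    rfl
  smul_mem' := by
    intro c v hv t ht
    simp [hv t ht]

theorem mem_low {d : L → ℕ} {n : ℤ} {v : V β L R} : v ∈ (low (k := k) d n) ↔
    ∀ t, n ≤ (wt d t : ℤ) → v t = 0 := Iff.rfl

theorem low_mono {d : L → ℕ} {m n : ℤ} (h : m ≤ n) :
    (low d m : Submodule k (V β L R)) ≤ low d n := by
  intro v hv t ht
  exact hv t (h.trans ht)

theorem low_zero {d : L → ℕ} {n : ℤ} (hn : n ≤ 0) {v : V β L R} (h : v ∈ (low (k := k) d n)) :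
    v = 0 := by
  ext t
  exact h t (by omega)

theorem exists_low {d : L → ℕ} (v : V β L R) : ∃ n : ℕ, v ∈ (low (k := k) d n) := by
  refine ⟨(v.support.sup fun t => wt d t) + 1, ?_⟩
  intro t ht
  by_contra h
  have h1 : t ∈ v.support := Finsupp.mem_support_iff.2 h
  have h2 := Finset.le_sup (f := fun t : List (β × L) => wt d t) h1
  simp only [Nat.cast_add, Nat.cast_one] at ht
  omega

theorem exists_top {d : L → ℕ} {v : V β L R} (hv : v ≠ 0) :
    ∃ n : ℕ, v ∈ (low (k := k) d (n + 1)) ∧ v ∉ (low (k := k) d n) := by
  have h := exists_low (k := k) (d := d) v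
  have h0 : Nat.find h ≠ 0 := by
    intro h1
    have h2 := Nat.find_spec h
    rw [h1] at h2
    exact hv (low_zero le_rfl h2)
  obtain ⟨m, hm⟩ := Nat.exists_eq_succ_of_ne_zero h0
  refine ⟨m, ?_, ?_⟩
  · have h2 := Nat.find_spec h
    rw [hm] at h2
    simpa using h2
  · exact Nat.find_min h (by omega)

theorem low_map {d : L → ℕ} {n : ℤ} {W : Type} [AddCommGroup W] [Module k W]
    (f : V β L R →ₗ[k] W) (N : Submodule k W)
    (h : ∀ t, (wt d t : ℤ) < n → ∀ b, f (single t (B b)) ∈ N) {v : V β L R}
    (hv : v ∈ (low (k := k) d n)) : f v ∈ N := by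
  refine V.map_mem B f N (fun t => (wt d t : ℤ) < n) h v ?_
  intro t ht
  by_contra h'
  exact ht (hv t (not_lt.1 h'))

theorem single_mem_low {d : L → ℕ} {n : ℤ} {t : List (β × L)}
    (h : (wt d t : ℤ) < n) (c : R) : single t c ∈ (low (k := k) d n) := by
  intro s hs
  rw [Finsupp.single_eq_of_ne]
  rintro rfl
  omega

theorem rho_low {d : L → ℕ} {n : ℤ} (c : R) {v : V β L R} (hv : v ∈ (low (k := k) d n)) :
    rho k c v ∈ (low (k := k) d n) := by
  intro t ht
  rw [rho_apply, hv t ht, zero_mul]

theorem plain_low {d : L → ℕ} {n : ℤ} (x : L) {v : V β L R} (hv : v ∈ (low (k := k) d n)) :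
    plain B x v ∈ (low (k := k) d (n + d x)) := by
  refine low_map B _ _ (fun t ht b => ?_) hv
  rw [plain_single]
  apply single_mem_low
  simp only [wt_cons]
  push_cast
  omega

theorem dl_low {d : L → ℕ} {n : ℤ} (x : L) (χ : R →ₗ[k] k) {v : V β L R}
    (hv : v ∈ (low (k := k) d n)) :
    dl B x χ v ∈ (low (k := k) d (n - d x)) := by
  intro t ht
  apply B.repr.injective
  ext b
  rw [repr_dl, hv]
  · simp
  · simp only [wt_cons]
    push_cast
    omega

/-- detecting the top part -/
theorem mem_low_of_dl {d : L → ℕ} {n : ℤ} {v : V β L R} (h0 : n ≤ 0 → v [] = 0)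
    (h : ∀ x (χ : R →ₗ[k] k), dl B x χ v ∈ (low (k := k) d (n - d x))) :
    v ∈ (low (k := k) d n) := by
  intro t ht
  cases t with
  | nil =>
    apply h0
    simpa using ht
  | cons p t =>
    obtain ⟨b, x⟩ := p
    apply B.repr.injective
    ext b'
    have h1 := h x (B.coord b')
    have h2 := repr_dl B x (B.coord b') v t b
    simp only [wt_cons] at ht
    push_cast at ht
    rw [h1 t (by omega)] at h2
    simpa using h2.symm

/-! ### Representations -/

/-- right modules over the free `R`-ring on `L` -/
structure Rep (k R L W : Type) [Field k] [Ring R] [Algebra k R] [AddCommGroup W] [Module k W]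
    where
  ρ : R →ₐ[k] (Module.End k W)ᵐᵒᵖ
  φ : L → Module.End k W

variable {W : Type} [AddCommGroup W] [Module k W]

/-- the coefficient operators -/
def Rep.r (T : Rep k R L W) (c : R) : Module.End k W := (T.ρ c).unop

theorem Rep.r_mul (T : Rep k R L W) (a b : R) : T.r (a * b) = T.r b * T.r a := by
  simp [Rep.r]

theorem Rep.r_one (T : Rep k R L W) : T.r 1 = 1 := by
  simp [Rep.r]

theorem Rep.r_add (T : Rep k R L W) (a b : R) : T.r (a + b) = T.r a + T.r b := by
  simp [Rep.r]

theorem Rep.r_smul (T : Rep k R L W) (a : k) (b : R) : T.r (a • b) = a • T.r b := by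
  simp [Rep.r]

/-- evaluation of words -/
def Rep.evw (T : Rep k R L W) (w0 : W) : List (β × L) → W
  | [] => w0
  | (b, x) :: t => T.φ x (T.r (B b) (Rep.evw T w0 t))

/-- the coefficient operators, linear in the coefficient -/
def Rep.rl (T : Rep k R L W) (w : W) : R →ₗ[k] W where
  toFun c := T.r c w
  map_add' a b := by rw [T.r_add]; rfl
  map_smul' a b := by rw [T.r_smul]; rfl

/-- evaluation -/
def Rep.ev (T : Rep k R L W) (w0 : W) : V β L R →ₗ[k] W :=
  Finsupp.lsum k fun t => T.rl (T.evw B w0 t)

theorem Rep.ev_single (T : Rep k R L W) (w0 : W) (t : List (β × L)) (c : R) :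
    T.ev B w0 (single t c) = T.r c (T.evw B w0 t) := by
  rw [Rep.ev, Finsupp.lsum_single]
  rfl

theorem Rep.ev_nil (T : Rep k R L W) (w0 : W) :
    T.ev B w0 (single [] (1 : R)) = w0 := by
  rw [Rep.ev_single, T.r_one]
  rfl

theorem Rep.ev_rho (T : Rep k R L W) (w0 : W) (c : R) (v : V β L R) :
    T.ev B w0 (rho k c v) = T.r c (T.ev B w0 v) := by
  have h : (T.ev B w0).comp (rho k c) = (T.r c).comp (T.ev B w0) := by
    apply V.hom_ext B
    intro t b
    simp only [LinearMap.comp_apply]
    rw [rho_single, T.ev_single, T.ev_single, T.r_mul]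
    rfl
  exact LinearMap.congr_fun h v

theorem Rep.ev_plain (T : Rep k R L W) (w0 : W) (x : L) (v : V β L R) :
    T.ev B w0 (plain B x v) = T.φ x (T.ev B w0 v) := by
  have h : (T.ev B w0).comp (plain B x) = (T.φ x).comp (T.ev B w0) := by
    apply V.hom_ext B
    intro t b
    simp only [LinearMap.comp_apply]
    rw [plain_single, T.ev_single, T.ev_single, T.r_one]
    rfl
  exact LinearMap.congr_fun h v

theorem Rep.ev_cons (T : Rep k R L W) (w0 : W) (b : β) (x : L) (t : List (β × L)) (c : R) :
    T.ev B w0 (single ((b, x) :: t) c) = T.r c (T.φ x (T.ev B w0 (single t (B b)))) := by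
  rw [T.ev_single, T.ev_single]
  rfl

/-- the coefficient action on words -/
def rhoHom : R →ₐ[k] (Module.End k (V β L R))ᵐᵒᵖ :=
  AlgHom.mk
    { toFun := fun c => MulOpposite.op (rho k c)
      map_one' := by rw [rho_one]; rfl
      map_mul' := fun a b => by rw [rho_mul]; rfl
      map_zero' := by rw [rho_zero]; rfl
      map_add' := fun a b => by rw [rho_add]; rfl }
    (by
      intro c
      apply MulOpposite.unop_injective
      apply LinearMap.ext
      intro v
      ext t
      simp [Algebra.algebraMap_eq_smul_one])

/-- a representation on words, with the standard coefficient action -/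
def wordRep {L' : Type} (φ : L' → Module.End k (V β L R)) : Rep k R L' (V β L R) where
  ρ := rhoHom
  φ := φ

theorem wordRep_r {L' : Type} (φ : L' → Module.End k (V β L R)) (c : R) :
    (wordRep φ).r c = rho k c := rfl

theorem wordRep_φ {L' : Type} (φ : L' → Module.End k (V β L R)) (x : L') :
    (wordRep φ).φ x = φ x := rfl

end Words

end

end Pool.Agent.Helper43.RD
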